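import Pool.Agent.Lib.MP_1c8600_lv.Basic

/-!
# The positive half: the forcing notion

`Ω` indexes trees (copies of `List ℕ`, the children of the node `t` being `k :: t`); the node `t` of
the tree `a` has the rank `ρ a t`, the nodes of rank `0` are called leaves.  A local condition is a
finite partial function from atoms to truth values; the atoms are the finite binary words (the
digits of a generic real `x`) and the nodes.  A node which is not a leaf is true iff all its children
are false.  A leaf `(a, t)` is true iff `x` has the value `true` at infinitely many restrictions of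
the branch `g a t`.  A condition assigns a local condition to every point `i : I`.
-/

set_option autoImplicit false
set_option linter.unusedSectionVars false

open Set Filter Pool.LV

namespace Pool.PV

/-- The data of the trees. -/
class TR (Ω : Type) where
  ρ : Ω → List ℕ → Ordinal.{0}
  lt : ∀ a t k, ρ a t ≠ 0 → ρ a (k :: t) < ρ a t
  zero : ∀ a t k, ρ a t = 0 → ρ a (k :: t) = 0
  fin : ∀ a t β, β < ρ a t → {k : ℕ | ρ a (k :: t) < β}.Finite
  g : Ω → List ℕ → ℕ → Bool
  g_inj : ∀ a t a' t', g a t = g a' t' → a = a' ∧ t = t'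
  h : Ω → ℕ → Bool
  h_inj : Function.Injective h

/-- The atoms. -/
abbrev At (Ω : Type) := List Bool ⊕ (Ω × List ℕ)

/-- The atom `x σ`. -/
abbrev At.x {Ω : Type} (σ : List Bool) : At Ω := Sum.inl σ

/-- The atom of the node `t` of the tree `a`. -/
abbrev At.nd {Ω : Type} (a : Ω) (t : List ℕ) : At Ω := Sum.inr (a, t)

variable {I Ω : Type} [D : TR Ω]

/-- `p'` extends `p` and keeps its promises. -/
def LeAt (p' p : At Ω → Option Bool) : Prop :=
  (∀ x b, p x = some b → p' x = some b) ∧
    ∀ a t m, D.ρ a t = 0 → p (At.nd a t) = some false → p (At.x (pre (D.g a t) m)) = none →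
      p' (At.x (pre (D.g a t) m)) ≠ some true

/-- No node and child are both true. -/
def Lgl (p : At Ω → Option Bool) : Prop :=
  ∀ a t k, p (At.nd a t) = some true → p (At.nd a (k :: t)) ≠ some true

/-- Conditions. -/
structure Cnd (I Ω : Type) where
  f : I → At Ω → Option Bool
  fin : {x : I × At Ω | f x.1 x.2 ≠ none}.Finite
  con : ∀ i a t k, f i (At.nd a t) = some true → f i (At.nd a (k :: t)) ≠ some true

lemma LeAt.refl (p : At Ω → Option Bool) : LeAt p p :=
  ⟨fun _ _ h => h, fun a t m _ _ h h' => by rw [h] at h'; simp at h'⟩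

lemma LeAt.trans {p q r : At Ω → Option Bool} (h : LeAt p q) (h' : LeAt q r) : LeAt p r := by
  refine ⟨fun x b hx => h.1 x b (h'.1 x b hx), fun a t m h0 h1 h2 => ?_⟩
  rcases hq : q (At.x (pre (D.g a t) m)) with _ | b
  · exact h.2 a t m h0 (h'.1 _ _ h1) hq
  · have h3 := h'.2 a t m h0 h1 h2
    rw [hq] at h3
    rw [h.1 _ _ hq]
    exact h3

instance : Preorder (Cnd I Ω) where
  le z' z := ∀ i, LeAt (z'.f i) (z.f i)
  le_refl z i := LeAt.refl _
  le_trans a b c h h' i := (h i).trans (h' i)

namespace Cnd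

lemma le_def {z' z : Cnd I Ω} : z' ≤ z ↔ ∀ i, LeAt (z'.f i) (z.f i) := Iff.rfl

omit D in
lemma ext' {z z' : Cnd I Ω} (h : ∀ i, z.f i = z'.f i) : z = z' := by
  cases z; cases z'
  have : (fun i => _) = _ := funext h
  simp only [mk.injEq]
  exact this

lemma le_some {z' z : Cnd I Ω} (h : z' ≤ z) {i : I} {x : At Ω} {b : Bool}
    (hx : z.f i x = some b) : z'.f i x = some b := (h i).1 x b hx

/-- The empty condition. -/
def top : Cnd I Ω := ⟨fun _ _ => none, by simp, fun _ _ _ _ h => by simp at h⟩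

lemma le_top (z : Cnd I Ω) : z ≤ top := fun i => ⟨fun x b h => by simp [top] at h,
  fun a t m _ h => by simp [top] at h⟩

instance : Nonempty (Cnd I Ω) := ⟨top⟩

/-- The support of a condition. -/
def supp (z : Cnd I Ω) : Set I := {i | ∃ x, z.f i x ≠ none}

omit D in
lemma supp_finite (z : Cnd I Ω) : z.supp.Finite := by
  refine (z.fin.image Prod.fst).subset ?_
  rintro i ⟨x, hx⟩
  exact ⟨(i, x), hx, rfl⟩

open Classical in
/-- `z` on `s`, `w` elsewhere. -/
noncomputable def glue (s : Set I) (z w : Cnd I Ω) : Cnd I Ω where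
  f i := if i ∈ s then z.f i else w.f i
  fin := by
    refine (z.fin.union w.fin).subset ?_
    rintro ⟨i, x⟩ hx
    by_cases h : i ∈ s
    · left
      simpa [h] using hx
    · right
      simpa [h] using hx
  con i := by
    by_cases h : i ∈ s
    · simp only [h, if_true]
      exact z.con i
    · simp only [h, if_false]
      exact w.con i

omit D in
lemma glue_pos {s : Set I} {z w : Cnd I Ω} {i : I} (h : i ∈ s) : (glue s z w).f i = z.f i := by
  simp [glue, h]

omit D in
lemma glue_neg {s : Set I} {z w : Cnd I Ω} {i : I} (h : i ∉ s) : (glue s z w).f i = w.f i := by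
  simp [glue, h]

/-- The restriction of `z` to `s`. -/
noncomputable def res (s : Set I) (z : Cnd I Ω) : Cnd I Ω := glue s z top

lemma leAt_none (p : At Ω → Option Bool) : LeAt p (fun _ => none) :=
  ⟨fun x b h => by simp at h, fun a t m _ h => by simp at h⟩

lemma le_res_iff {s : Set I} {z w : Cnd I Ω} :
    w ≤ res s z ↔ ∀ i ∈ s, LeAt (w.f i) (z.f i) := by
  constructor
  · intro h i hi
    have h1 := h i
    unfold res at h1
    rwa [glue_pos hi] at h1
  · intro h i
    unfold res
    by_cases hi : i ∈ s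
    · rw [glue_pos hi]
      exact h i hi
    · rw [glue_neg hi]
      exact leAt_none _

lemma le_res (s : Set I) (z : Cnd I Ω) : z ≤ res s z :=
  le_res_iff.2 fun _ _ => LeAt.refl _

/-- Replace the local condition at `i`. -/
noncomputable def upd (z : Cnd I Ω) (i : I) (p : At Ω → Option Bool)
    (hf : {x | p x ≠ none}.Finite) (hc : Lgl p) : Cnd I Ω := by
  classical
  exact
  { f := fun j => if j = i then p else z.f j
    fin := by
      refine (z.fin.union ((hf.image fun x => (i, x)))).subset ?_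
      rintro ⟨j, x⟩ hx
      by_cases h : j = i
      · right
        subst h
        exact ⟨x, by simpa using hx, rfl⟩
      · left
        simpa [h] using hx
    con := fun j a t k => by
      by_cases h : j = i
      · simp only [h, if_true]
        exact hc a t k
      · simp only [h, if_false]
        exact z.con j a t k }

omit D in
lemma upd_self {z : Cnd I Ω} {i : I} {p : At Ω → Option Bool} {hf : {x | p x ≠ none}.Finite}
    {hc : Lgl p} : (z.upd i p hf hc).f i = p := by
  simp [upd]

omit D in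
lemma upd_ne {z : Cnd I Ω} {i j : I} {p : At Ω → Option Bool} {hf : {x | p x ≠ none}.Finite}
    {hc : Lgl p} (h : j ≠ i) : (z.upd i p hf hc).f j = z.f j := by
  simp [upd, h]

omit D in
lemma fin_at (z : Cnd I Ω) (i : I) : {x | z.f i x ≠ none}.Finite := by
  refine (z.fin.image Prod.snd).subset ?_
  intro x hx
  exact ⟨(i, x), hx, rfl⟩

/-- The action of a permutation. -/
def act (π : Equiv.Perm I) (z : Cnd I Ω) : Cnd I Ω where
  f i := z.f (π.symm i)
  fin := by
    refine (z.fin.image fun x : I × At Ω => (π x.1, x.2)).subset ?_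
    rintro ⟨i, x⟩ hx
    exact ⟨(π.symm i, x), hx, by simp⟩
  con i := z.con (π.symm i)

omit D in
lemma act_f (π : Equiv.Perm I) (z : Cnd I Ω) (i : I) : (act π z).f (π i) = z.f i := by
  simp [act]

omit D in
lemma act_act (π σ : Equiv.Perm I) (z : Cnd I Ω) : act π (act σ z) = act (π * σ) z := rfl

omit D in
lemma act_one (z : Cnd I Ω) : act 1 z = z := rfl

lemma act_le_act {π : Equiv.Perm I} {z w : Cnd I Ω} : act π z ≤ act π w ↔ z ≤ w := by
  constructor
  · intro h i
    have := h (π i)
    rwa [act_f, act_f] at this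
  · intro h i
    exact h (π.symm i)

omit D in
/-- A condition with support fixed by `π` is fixed. -/
lemma act_eq {π : Equiv.Perm I} {z : Cnd I Ω} (h : ∀ i ∈ z.supp, π i = i) : act π z = z := by
  apply ext'
  intro i
  change z.f (π.symm i) = z.f i
  by_cases hi : i ∈ z.supp
  · have h1 : π.symm i = i := by
      rw [Equiv.symm_apply_eq]
      exact (h i hi).symm
    rw [h1]
  · have h2 : π.symm i ∉ z.supp := by
      intro h3
      have h4 := h _ h3
      rw [Equiv.apply_symm_apply] at h4
      rw [← h4] at h3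
      exact hi h3
    funext x
    have h5 : ∀ j, j ∉ z.supp → z.f j x = none := by
      intro j hj
      by_contra hne
      exact hj ⟨x, hne⟩
    rw [h5 _ hi, h5 _ h2]

/-! ### Extensions -/

/-- Adding a digit. -/
lemma exists_digit (z : Cnd I Ω) (i : I) (σ : List Bool) (b : Bool)
    (hn : z.f i (At.x σ) = none)
    (hb : b = true → ∀ a t, D.ρ a t = 0 → z.f i (At.nd a t) = some false →
      σ ≠ pre (D.g a t) σ.length) :
    ∃ z' ≤ z, z'.f i (At.x σ) = some b ∧ ∀ j x, (j ≠ i ∨ x ≠ At.x σ) → z'.f j x = z.f j x := by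
  classical
  have hnd : ∀ a t, Function.update (z.f i) (At.x σ) (some b) (At.nd a t) = z.f i (At.nd a t) :=
    fun a t => Function.update_of_ne (fun h => by cases h) _ _
  have hf : {x | Function.update (z.f i) (At.x σ) (some b) x ≠ none}.Finite := by
    refine ((z.fin_at i).insert (At.x σ)).subset ?_
    intro x hx
    by_cases h : x = At.x σ
    · exact Or.inl h
    · right
      rw [mem_ofPred_eq, Function.update_of_ne h] at hx
      exact hx
  have hc : Lgl (Function.update (z.f i) (At.x σ) (some b)) := by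
    intro a t k h
    rw [hnd] at h ⊢
    exact z.con i a t k h
  refine ⟨z.upd i _ hf hc, ?_, ?_, ?_⟩
  · intro l
    by_cases hl : l = i
    · subst hl
      rw [Cnd.upd_self]
      constructor
      · intro x c hx
        have h : x ≠ At.x σ := by
          rintro rfl
          rw [hn] at hx
          cases hx
        rw [Function.update_of_ne h, hx]
      · intro a t m h0 h1 h2 h3
        by_cases h : At.x (pre (D.g a t) m) = (At.x σ : At Ω)
        · rw [h, Function.update_self] at h3
          have h4 : pre (D.g a t) m = σ := by simpa using h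
          refine hb (by simpa using h3) a t h0 h1 ?_
          rw [← h4, length_pre]
        · rw [Function.update_of_ne h, h2] at h3
          cases h3
    · rw [Cnd.upd_ne hl]
      exact LeAt.refl _
  · rw [Cnd.upd_self, Function.update_self]
  · intro l x hx
    by_cases hl : l = i
    · subst hl
      rw [Cnd.upd_self, Function.update_of_ne]
      rcases hx with h | h
      · exact absurd rfl h
      · exact h
    · rw [Cnd.upd_ne hl]

/-- Every digit can be decided. -/
lemma decide_digit (z : Cnd I Ω) (i : I) (σ : List Bool) :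
    ∃ z' ≤ z, ∃ b, z'.f i (At.x σ) = some b := by
  rcases h : z.f i (At.x σ) with _ | b
  · obtain ⟨z', h1, h2, -⟩ := exists_digit z i σ false h (fun h => by cases h)
    exact ⟨z', h1, false, h2⟩
  · exact ⟨z, le_rfl, b, h⟩

/-- Adding a label. -/
lemma exists_label (z : Cnd I Ω) (i : I) (a : Ω) (t : List ℕ) (b : Bool)
    (hn : z.f i (At.nd a t) = none)
    (hb : b = true → (∀ k, z.f i (At.nd a (k :: t)) ≠ some true) ∧
      ∀ k s, t = k :: s → z.f i (At.nd a s) ≠ some true) :
    ∃ z' ≤ z, z'.f i (At.nd a t) = some b ∧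
      ∀ j x, (j ≠ i ∨ x ≠ At.nd a t) → z'.f j x = z.f j x := by
  classical
  have hne : ∀ (a' : Ω) (t' : List ℕ), ¬ (a' = a ∧ t' = t) → At.nd a' t' ≠ At.nd a t := by
    intro a' t' h h'
    apply h
    have h2 := Sum.inr.inj h'
    exact ⟨congrArg Prod.fst h2, congrArg Prod.snd h2⟩
  have hf : {x | Function.update (z.f i) (At.nd a t) (some b) x ≠ none}.Finite := by
    refine ((z.fin_at i).insert (At.nd a t)).subset ?_
    intro x hx
    by_cases h : x = At.nd a t
    · exact Or.inl h
    · right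
      rw [mem_ofPred_eq, Function.update_of_ne h] at hx
      exact hx
  have hc : Lgl (Function.update (z.f i) (At.nd a t) (some b)) := by
    intro a' t' k h
    by_cases h1 : a' = a ∧ t' = t
    · obtain ⟨rfl, rfl⟩ := h1
      rw [Function.update_self] at h
      rw [Function.update_of_ne (hne _ _ (fun h2 => List.cons_ne_self _ _ h2.2))]
      exact (hb (by simpa using h)).1 k
    · rw [Function.update_of_ne (hne _ _ h1)] at h
      by_cases h2 : a' = a ∧ k :: t' = t
      · obtain ⟨rfl, rfl⟩ := h2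
        rw [Function.update_self]
        intro h3
        exact (hb (by simpa using h3)).2 k t' rfl h
      · rw [Function.update_of_ne (hne _ _ h2)]
        exact z.con i a' t' k h
  refine ⟨z.upd i _ hf hc, ?_, ?_, ?_⟩
  · intro l
    by_cases hl : l = i
    · subst hl
      rw [Cnd.upd_self]
      constructor
      · intro x c hx
        have h : x ≠ At.nd a t := by
          rintro rfl
          rw [hn] at hx
          cases hx
        rw [Function.update_of_ne h, hx]
      · intro a' t' m h0 h1 h2 h3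
        rw [Function.update_of_ne (fun h => by cases h), h2] at h3
        cases h3
    · rw [Cnd.upd_ne hl]
      exact LeAt.refl _
  · rw [Cnd.upd_self, Function.update_self]
  · intro l x hx
    by_cases hl : l = i
    · subst hl
      rw [Cnd.upd_self, Function.update_of_ne]
      rcases hx with h | h
      · exact absurd rfl h
      · exact h
    · rw [Cnd.upd_ne hl]

/-- Every atom can be decided. -/
lemma decide_atom (z : Cnd I Ω) (i : I) (x : At Ω) : ∃ z' ≤ z, ∃ b, z'.f i x = some b := by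
  rcases x with σ | ⟨a, t⟩
  · exact decide_digit z i σ
  · rcases h : z.f i (Sum.inr (a, t)) with _ | b
    · obtain ⟨z', h1, h2, -⟩ := exists_label z i a t false h (fun h => by cases h)
      exact ⟨z', h1, false, h2⟩
    · exact ⟨z, le_rfl, b, h⟩

/-- Long prefixes of `f` avoid the finitely many atoms and the other branches. -/
lemma QA3_big (z : Cnd I Ω) (i : I) (f : ℕ → Bool) :
    ∃ m₁ : ℕ, ∀ m ≥ m₁, z.f i (At.x (pre f m)) = none ∧
      ∀ a t, z.f i (At.nd a t) ≠ none → D.g a t ≠ f → pre f m ≠ pre (D.g a t) m := by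
  classical
  have hF := fin_at z i
  -- digits
  have h1 : {m : ℕ | z.f i (At.x (pre f m)) ≠ none}.Finite := by
    have : {m : ℕ | z.f i (At.x (pre f m)) ≠ none} =
        (fun m : ℕ => (At.x (pre f m) : At Ω)) ⁻¹' {x | z.f i x ≠ none} := rfl
    rw [this]
    refine hF.preimage fun m _ m' _ h => ?_
    exact (pre_inj (Sum.inl_injective h)).1
  -- nodes
  have h2 : {q : Ω × List ℕ | z.f i (At.nd q.1 q.2) ≠ none}.Finite := by
    have : {q : Ω × List ℕ | z.f i (At.nd q.1 q.2) ≠ none} =
        (Sum.inr : Ω × List ℕ → At Ω) ⁻¹' {x | z.f i x ≠ none} := rfl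
    rw [this]
    exact hF.preimage Sum.inr_injective.injOn
  have h3 : ∀ q : Ω × List ℕ, ∃ n : ℕ, D.g q.1 q.2 ≠ f → ∀ m ≥ n,
      pre f m ≠ pre (D.g q.1 q.2) m := by
    intro q
    by_cases hq : D.g q.1 q.2 = f
    · exact ⟨0, fun h => absurd hq h⟩
    · obtain ⟨l, hl⟩ := Function.ne_iff.1 hq
      refine ⟨l + 1, fun _ m hm h => ?_⟩
      exact hl (pre_eq_iff.1 h l (by omega)).symm
  choose n hn using h3
  obtain ⟨b1, hb1⟩ := h1.bddAbove
  obtain ⟨b2, hb2⟩ := (h2.image n).bddAbove
  refine ⟨b1 + b2 + 1, fun m hm => ⟨?_, ?_⟩⟩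
  · by_contra hcon
    have := hb1 (show m ∈ {m : ℕ | z.f i (At.x (pre f m)) ≠ none} from hcon)
    omega
  · intro a t hat hg
    have h4 : n (a, t) ≤ b2 := hb2 ⟨(a, t), hat, rfl⟩
    exact hn (a, t) hg m (by omega)

/-- A true leaf. -/
lemma leaf_true (z : Cnd I Ω) (i : I) (a : Ω) (t : List ℕ)
    (h : z.f i (At.nd a t) = some true) (m₀ : ℕ) :
    ∃ m ≥ m₀, ∃ z' ≤ z, z'.f i (At.x (pre (D.g a t) m)) = some true := by
  obtain ⟨m₁, hm₁⟩ := QA3_big z i (D.g a t)
  obtain ⟨h1, h2⟩ := hm₁ (m₀ + m₁) (by omega)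
  obtain ⟨z', hz', h3, _⟩ := exists_digit z i (pre (D.g a t) (m₀ + m₁)) true h1 (by
    intro _ a' t' _ hf
    rw [length_pre]
    refine h2 a' t' (by rw [hf]; simp) ?_
    intro hg
    obtain ⟨rfl, rfl⟩ := D.g_inj _ _ _ _ hg
    rw [hf] at h
    simp at h)
  exact ⟨m₀ + m₁, by omega, z', hz', h3⟩

/-- A false leaf. -/
lemma leaf_false (z : Cnd I Ω) (i : I) (a : Ω) (t : List ℕ) (h0 : D.ρ a t = 0)
    (h : z.f i (At.nd a t) = some false) :
    ∃ m₀, ∀ m ≥ m₀, ∀ z' ≤ z, z'.f i (At.x (pre (D.g a t) m)) ≠ some true := by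
  obtain ⟨m₁, hm₁⟩ := QA3_big z i (D.g a t)
  refine ⟨m₁, fun m hm z' hz' => ?_⟩
  exact (hz' i).2 a t m h0 h (hm₁ m hm).1

/-- A true node. -/
lemma node_true (z : Cnd I Ω) (i : I) (a : Ω) (t : List ℕ)
    (h : z.f i (At.nd a t) = some true) (k : ℕ) :
    ∀ z' ≤ z, z'.f i (At.nd a (k :: t)) ≠ some true := fun z' hz' =>
  z'.con i a t k (le_some hz' h)

/-- A false node. -/
lemma node_false (z : Cnd I Ω) (i : I) (a : Ω) (t : List ℕ)
    (h : z.f i (At.nd a t) = some false) :
    ∃ k, ∃ z' ≤ z, z'.f i (At.nd a (k :: t)) = some true := by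
  classical
  have hF := fin_at z i
  have h1 : {k : ℕ | z.f i (At.nd a (k :: t)) ≠ none}.Finite := by
    have : {k : ℕ | z.f i (At.nd a (k :: t)) ≠ none} =
        (fun k : ℕ => (At.nd a (k :: t) : At Ω)) ⁻¹' {x | z.f i x ≠ none} := rfl
    rw [this]
    refine hF.preimage fun m _ m' _ h => ?_
    have h2 := Sum.inr_injective h
    simpa using h2
  have h2 : {k : ℕ | ∃ k', z.f i (At.nd a (k' :: k :: t)) ≠ none}.Finite := by
    refine (hF.image fun x : At Ω => match x with
      | Sum.inl _ => 0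
      | Sum.inr q => q.2.tail.headI).subset ?_
    rintro k ⟨k', hk'⟩
    exact ⟨At.nd a (k' :: k :: t), hk', rfl⟩
  obtain ⟨k, hk⟩ := (h1.union h2).exists_notMem
  have hk1 : z.f i (At.nd a (k :: t)) = none := by
    by_contra hc
    exact hk (Or.inl hc)
  have hk2 : ∀ k', z.f i (At.nd a (k' :: k :: t)) = none := by
    intro k'
    by_contra hc
    exact hk (Or.inr ⟨k', hc⟩)
  obtain ⟨z', hz', h3, _⟩ := exists_label z i a (k :: t) true hk1 (by
    intro _
    refine ⟨fun k' => by rw [hk2 k']; simp, ?_⟩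
    rintro k' s hs
    obtain ⟨rfl, rfl⟩ := List.cons.inj hs
    rw [h]
    simp)
  exact ⟨k, z', hz', h3⟩

/-- Points are separated. -/
lemma exists_sep (z : Cnd I Ω) {i j : I} (h : i ≠ j) :
    ∃ z' ≤ z, ∃ σ, z'.f i (At.x σ) = some true ∧ z'.f j (At.x σ) = some false := by
  classical
  have h2 : {q : Ω × List ℕ | z.f i (At.nd q.1 q.2) ≠ none}.Finite := by
    have : {q : Ω × List ℕ | z.f i (At.nd q.1 q.2) ≠ none} =
        (Sum.inr : Ω × List ℕ → At Ω) ⁻¹' {x | z.f i x ≠ none} := rfl
    rw [this]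
    exact (fin_at z i).preimage Sum.inr_injective.injOn
  obtain ⟨f, hf⟩ := (h2.image fun q => D.g q.1 q.2).exists_notMem
  obtain ⟨m₁, hm₁⟩ := QA3_big z i f
  obtain ⟨m₂, hm₂⟩ := QA3_big z j f
  obtain ⟨h3, h4⟩ := hm₁ (m₁ + m₂) (by omega)
  obtain ⟨h5, _⟩ := hm₂ (m₁ + m₂) (by omega)
  obtain ⟨z1, hz1, h6, h7⟩ := exists_digit z i (pre f (m₁ + m₂)) true h3 (by
    intro _ a t _ hat
    rw [length_pre]
    have hne : z.f i (At.nd a t) ≠ none := by rw [hat]; simp
    refine h4 a t hne ?_
    intro hg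
    exact hf ⟨(a, t), hne, hg⟩)
  have h8 : z1.f j (At.x (pre f (m₁ + m₂))) = none := by
    rw [h7 j _ (Or.inl h.symm), h5]
  obtain ⟨z2, hz2, h9, _⟩ := exists_digit z1 j (pre f (m₁ + m₂)) false h8 (by
    intro hb
    simp at hb)
  exact ⟨z2, hz2.trans hz1, pre f (m₁ + m₂), Cnd.le_some hz2 h6, h9⟩

/-! ### Linkedness -/

lemma QA4_sep {α : Type} {S : Set α} (hS : S.Finite) (f : α → ℕ → Bool)
    (hf : Function.Injective f) :
    ∀ᶠ k in atTop, ∀ a ∈ S, ∀ b ∈ S, pre (f a) k = pre (f b) k → a = b := by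
  rw [eventually_all_finite hS]
  intro a ha
  rw [eventually_all_finite hS]
  intro b hb
  by_cases h : a = b
  · exact Eventually.of_forall fun k _ => h
  · have h0 : f a ≠ f b := fun h' => h (hf h')
    obtain ⟨n, hn⟩ := Function.ne_iff.1 h0
    filter_upwards [eventually_gt_atTop n] with k hk h1
    exact absurd (pre_eq_iff.1 h1 n hk) hn

/-- The indices of the trees which occur in a condition. -/
def QA4_occ (z : Cnd I Ω) : Set Ω := {a | ∃ i t, z.f i (At.nd a t) ≠ none}

lemma QA4_occ_finite (z : Cnd I Ω) : (QA4_occ z).Finite := by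
  have h := (z.fin.image (fun y : I × At Ω =>
    Sum.elim (fun _ => (none : Option Ω)) (fun q => some q.1) y.2)).preimage
      (Option.some_injective Ω).injOn
  refine h.subset ?_
  rintro a ⟨i, t, ha⟩
  exact ⟨(i, At.nd a t), ha, rfl⟩

lemma QA4_supp_finite (z : Cnd I Ω) : z.supp.Finite := by
  refine (z.fin.image Prod.fst).subset ?_
  rintro i ⟨x, hx⟩
  exact ⟨(i, x), hx, rfl⟩

/-- `k` separates the points and trees which occur in `z`. -/
def QA4_fit (j : I → ℕ → Bool) (k : ℕ) (z : Cnd I Ω) : Prop :=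
  (∀ i ∈ z.supp, ∀ i' ∈ z.supp, pre (j i) k = pre (j i') k → i = i') ∧
    ∀ a ∈ QA4_occ z, ∀ a' ∈ QA4_occ z, pre (D.h a) k = pre (D.h a') k → a = a'

lemma QA4_exists_fit (j : I → ℕ → Bool) (hj : Function.Injective j) (z : Cnd I Ω) :
    ∃ k, QA4_fit j k z :=
  ((QA4_sep (QA4_supp_finite z) j hj).and (QA4_sep (QA4_occ_finite z) D.h D.h_inj)).exists

/-- The code of an atom. -/
def QA4_cd (k : ℕ) : At Ω → List Bool ⊕ (List Bool × List ℕ) :=
  Sum.elim (fun σ => Sum.inl σ) fun q => Sum.inr (pre (D.h q.1) k, q.2)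

/-- The data of a condition. -/
def QA4_tp (j : I → ℕ → Bool) (k : ℕ) (z : Cnd I Ω) :
    Set (List Bool × (List Bool ⊕ (List Bool × List ℕ)) × Option Bool) :=
  (fun y : I × At Ω => (pre (j y.1) k, QA4_cd k y.2, z.f y.1 y.2)) ''
    {y : I × At Ω | z.f y.1 y.2 ≠ none}

lemma QA4_tp_finite (j : I → ℕ → Bool) (k : ℕ) (z : Cnd I Ω) : (QA4_tp j k z).Finite :=
  z.fin.image _

/-- Transfer between conditions of the same type. -/
lemma QA4_tr {j : I → ℕ → Bool} {k : ℕ} {z z' : Cnd I Ω} (hz : QA4_fit j k z)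
    (h : QA4_tp j k z' ⊆ QA4_tp j k z) {i : I} {x : At Ω} {b : Bool} (hi : i ∈ z.supp)
    (ha : ∀ a t, x = At.nd a t → a ∈ QA4_occ z) (hx : z'.f i x = some b) : z.f i x = some b := by
  have h1 : (pre (j i) k, QA4_cd k x, some b) ∈ QA4_tp j k z' :=
    ⟨(i, x), by simp [hx], by simp [hx]⟩
  obtain ⟨⟨i', x'⟩, h2, h3⟩ := h h1
  simp only [Prod.mk.injEq] at h3
  obtain ⟨e1, e2, e3⟩ := h3
  have hi' : i' = i := hz.1 i' ⟨x', h2⟩ i hi e1
  subst hi'
  have hx' : x' = x := by
    rcases x' with σ | ⟨a, t⟩ <;> rcases x with σ' | ⟨a', t'⟩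
    · simpa [QA4_cd] using e2
    · simp [QA4_cd] at e2
    · simp [QA4_cd] at e2
    · simp only [QA4_cd, Sum.elim_inr, Sum.inr.injEq, Prod.mk.injEq] at e2
      have := hz.2 a ⟨i', t, h2⟩ a' (ha a' t' rfl) e2.1
      rw [this, e2.2]
  rw [← hx', e3]

/-- The union of two conditions of the same type. -/
lemma QA4_join {j : I → ℕ → Bool} {k : ℕ} {z z' : Cnd I Ω} (hz : QA4_fit j k z)
    (hz' : QA4_fit j k z') (h : QA4_tp j k z' = QA4_tp j k z) : ∃ w, w ≤ z ∧ w ≤ z' := by
  have hs : ∀ {z : Cnd I Ω} {i : I} {x : At Ω} {b : Bool}, z.f i x = some b → i ∈ z.supp :=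
    fun {z i x b} h => ⟨x, by rw [h]; simp⟩
  have ho : ∀ {z : Cnd I Ω} {i : I} {a : Ω} {t : List ℕ} {b : Bool},
      z.f i (At.nd a t) = some b → a ∈ QA4_occ z :=
    fun {z i a t b} h => ⟨i, t, by rw [h]; simp⟩
  have ha0 : ∀ {z : Cnd I Ω} {a : Ω}, a ∈ QA4_occ z → ∀ {s : List ℕ}, ∀ a' t',
      (At.nd a s : At Ω) = At.nd a' t' → a' ∈ QA4_occ z := by
    intro z a ha s a' t' e
    simp only [At.nd, Sum.inr.injEq, Prod.mk.injEq] at e
    rw [← e.1]
    exact ha
  have hd : ∀ {z : Cnd I Ω} {σ : List Bool}, ∀ a' t',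
      (At.x σ : At Ω) = At.nd a' t' → a' ∈ QA4_occ z := by
    intro z σ a' t' e
    simp at e
  -- the values of the union
  have hv : ∀ i x b, ((z.f i x).or (z'.f i x)) = some b → z.f i x = some b ∨ z'.f i x = some b := by
    intro i x b hb
    cases hzx : z.f i x with
    | none => rw [hzx] at hb; right; simpa using hb
    | some c => rw [hzx] at hb; left; simpa using hb
  refine ⟨⟨fun i x => (z.f i x).or (z'.f i x), ?_, ?_⟩, ?_, ?_⟩
  · refine (z.fin.union z'.fin).subset ?_
    rintro ⟨i, x⟩ hx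
    by_contra hn
    simp only [mem_union, mem_ofPred_eq, not_or, not_not] at hn
    apply hx
    simp only [hn.1, hn.2, Option.or_none]
  · intro i a t m h1 h2
    rcases hv _ _ _ h1 with h1 | h1 <;> rcases hv _ _ _ h2 with h2 | h2
    · exact z.con i a t m h1 h2
    · exact z.con i a t m h1 (QA4_tr hz h.subset (hs h1) (ha0 (ho h1)) h2)
    · exact z.con i a t m (QA4_tr hz h.subset (hs h2) (ha0 (ho h2)) h1) h2
    · exact z'.con i a t m h1 h2
  · intro i
    refine ⟨fun x b hx => by simp [hx], fun a t m h0 h1 h2 h3 => ?_⟩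
    rcases hv _ _ _ h3 with h3 | h3
    · rw [h3] at h2
      simp at h2
    · have := QA4_tr hz h.subset (hs h1) hd h3
      rw [this] at h2
      simp at h2
  · intro i
    refine ⟨fun x b hx => ?_, fun a t m h0 h1 h2 h3 => ?_⟩
    · show (z.f i x).or (z'.f i x) = some b
      cases hzx : z.f i x with
      | none => simp [hx]
      | some c =>
        have h1 : z.f i x = some b := by
          refine QA4_tr hz h.subset (hs hzx) ?_ hx
          rintro a t rfl
          exact ho hzx
        rw [hzx] at h1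
        simpa using h1
    · rcases hv _ _ _ h3 with h3 | h3
      · have := QA4_tr hz' h.symm.subset (hs h1) hd h3
        rw [this] at h2
        simp at h2
      · rw [h3] at h2
        simp at h2

/-- Two conditions with the same type are compatible. -/
theorem exists_type (j : I → ℕ → Bool) (hj : Function.Injective j) :
    ∃ τ : Cnd I Ω → ℕ, ∀ z z', τ z = τ z' → ∃ w, w ≤ z ∧ w ≤ z' := by
  classical
  choose k hk using QA4_exists_fit (Ω := Ω) j hj
  obtain ⟨e, he⟩ := exists_injective_nat
    (ℕ × Finset (List Bool × (List Bool ⊕ (List Bool × List ℕ)) × Option Bool))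
  refine ⟨fun z => e (k z, (QA4_tp_finite j (k z) z).toFinset), fun z z' h => ?_⟩
  have h1 := he h
  simp only [Prod.mk.injEq] at h1
  have h2 : QA4_tp j (k z) z = QA4_tp j (k z') z' := Set.Finite.toFinset_inj.1 h1.2
  have h3 := hk z'
  rw [← h1.1] at h3 h2
  exact QA4_join (hk z) h3 h2.symm

/-- Every nonempty set of conditions has a countable subset which is predense in it. -/
theorem exists_pred (j : I → ℕ → Bool) (hj : Function.Injective j) (W : Set (Cnd I Ω))
    (hW : W.Nonempty) :
    ∃ w : ℕ → Cnd I Ω, (∀ n, w n ∈ W) ∧ ∀ z ∈ W, ∃ n v, v ≤ z ∧ v ≤ w n := by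
  classical
  obtain ⟨τ, hτ⟩ := exists_type (Ω := Ω) j hj
  obtain ⟨w0, hw0⟩ := hW
  refine ⟨fun n => if h : ∃ z ∈ W, τ z = n then h.choose else w0, fun n => ?_, fun z hz => ?_⟩
  · by_cases h : ∃ z ∈ W, τ z = n
    · simp only [h, dif_pos]
      exact h.choose_spec.1
    · simp only [h, dif_neg, not_false_iff]
      exact hw0
  · have h : ∃ z' ∈ W, τ z' = τ z := ⟨z, hz, rfl⟩
    obtain ⟨v, h1, h2⟩ := hτ z h.choose h.choose_spec.2.symm
    refine ⟨τ z, v, h1, ?_⟩
    simp only [h, dif_pos]
    exact h2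

end Cnd

end Pool.PV
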