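import Pool.Agent.Lib.MP_1c8600_pv.Cnd

/-!
# The positive half: Borel codes with conditions as parameters

`Kd I Ω m` is the type of codes of subsets of `I^(m+1)`; `ev c i z` means that `z` forces in the
direct way that the tuple `i` belongs to the set coded by `c`.
-/

set_option autoImplicit false
set_option linter.unusedSectionVars false

open Set Pool.LV

namespace Pool.PV

variable {I Ω : Type} [D : TR Ω]

/-- The `n`-th finite word. -/
def gs (n : ℕ) : List Bool := (Encodable.decode (α := List Bool) n).getD []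

lemma gs_encode (σ : List Bool) : gs (Encodable.encode σ) = σ := by
  simp [gs]

/-- `z` forces that the point `i` belongs to the `n`-th set `A n`: `A 0 = I` and
`A (n + 1) = {i | x_i (gs n) = true}`. -/
def Hd (z : Cnd I Ω) (i : I) : ℕ → Prop
  | 0 => True
  | n + 1 => z.f i (At.x (gs n)) = some true

/-- Codes of subsets of `I^(m+1)`: rectangles, complements of rectangles, unions and complements
of unions of the sets coded by those `c n` such that the condition `q n` is in the generic filter. -/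
inductive Kd (I Ω : Type) (m : ℕ) : Type
  | gen (n : Fin (m + 1) → ℕ) : Kd I Ω m
  | genc (n : Fin (m + 1) → ℕ) : Kd I Ω m
  | un (q : ℕ → Cnd I Ω) (c : ℕ → Kd I Ω m) : Kd I Ω m
  | co (q : ℕ → Cnd I Ω) (c : ℕ → Kd I Ω m) : Kd I Ω m

/-- `z` forces in the direct way that `i` belongs to the set coded by `c`. -/
def ev {m : ℕ} : Kd I Ω m → (Fin (m + 1) → I) → Cnd I Ω → Prop
  | .gen n, i, z => ∀ k, Hd z (i k) (n k)
  | .genc n, i, z => ∀ z' ≤ z, ¬ ∀ k, Hd z' (i k) (n k)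
  | .un q c, i, z => ∃ n, z ≤ q n ∧ ev (c n) i z
  | .co q c, i, z => ∀ z' ≤ z, ∀ n, z' ≤ q n → ¬ ev (c n) i z'

/-- The code `c` is in the class `α`. -/
def RkLe {m : ℕ} : Kd I Ω m → Ordinal.{0} → Prop
  | .gen _, _ => True
  | .genc _, _ => True
  | .un _ c, α => ∀ n, ∃ β < α, RkLe (c n) β
  | .co _ c, α => ∀ n, ∃ β < α, RkLe (c n) β

/-- The coordinates of the parameters of `c`. -/
def Kd.supp {m : ℕ} : Kd I Ω m → Set I
  | .gen _ => ∅
  | .genc _ => ∅
  | .un q c => ⋃ n, (Cnd.supp (q n) ∪ (c n).supp)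
  | .co q c => ⋃ n, (Cnd.supp (q n) ∪ (c n).supp)

omit D in
lemma Kd.supp_countable {m : ℕ} (c : Kd I Ω m) : c.supp.Countable := by
  induction c with
  | gen n => exact Set.countable_empty
  | genc n => exact Set.countable_empty
  | un q c ih => exact Set.countable_iUnion fun n => ((q n).supp_finite.countable).union (ih n)
  | co q c ih => exact Set.countable_iUnion fun n => ((q n).supp_finite.countable).union (ih n)

lemma Hd.mono {z z' : Cnd I Ω} {i : I} {n : ℕ} (h : Hd z i n) (hz : z' ≤ z) : Hd z' i n := by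
  cases n with
  | zero => trivial
  | succ n => exact Cnd.le_some hz h

lemma ev_mono {m : ℕ} (c : Kd I Ω m) {i : Fin (m + 1) → I} {z z' : Cnd I Ω} (h : ev c i z)
    (hz : z' ≤ z) : ev c i z' := by
  induction c with
  | gen n => exact fun k => Hd.mono (h k) hz
  | genc n => exact fun z'' hz'' => h z'' (hz''.trans hz)
  | un q c ih =>
    obtain ⟨n, h1, h2⟩ := h
    exact ⟨n, hz.trans h1, ih n h2⟩
  | co q c ih => exact fun z'' hz'' => h z'' (hz''.trans hz)

lemma QB1_Hd_act (π : Equiv.Perm I) (z : Cnd I Ω) (i : I) (n : ℕ) :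
    Hd (Cnd.act π z) (π i) n ↔ Hd z i n := by
  cases n with
  | zero => exact Iff.rfl
  | succ n =>
    show (Cnd.act π z).f (π i) _ = _ ↔ z.f i _ = _
    rw [Cnd.act_f]

lemma QB1_forall (π : Equiv.Perm I) (z : Cnd I Ω) (P : Cnd I Ω → Prop) :
    (∀ z' ≤ Cnd.act π z, P z') ↔ ∀ z' ≤ z, P (Cnd.act π z') := by
  constructor
  · intro h z' hz'
    exact h _ (Cnd.act_le_act.2 hz')
  · intro h z' hz'
    have e : z' = Cnd.act π (Cnd.act π⁻¹ z') := by
      rw [Cnd.act_act, mul_inv_cancel, Cnd.act_one]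
    rw [e] at hz' ⊢
    exact h _ (Cnd.act_le_act.1 hz')

lemma QB1_le {π : Equiv.Perm I} {q : Cnd I Ω} (h : ∀ i ∈ q.supp, π i = i) (z : Cnd I Ω) :
    Cnd.act π z ≤ q ↔ z ≤ q := by
  conv_lhs => rw [← Cnd.act_eq h]
  exact Cnd.act_le_act

/-- Invariance. -/
lemma ev_act {m : ℕ} (c : Kd I Ω m) {π : Equiv.Perm I} (hπ : ∀ i ∈ c.supp, π i = i)
    (i : Fin (m + 1) → I) (z : Cnd I Ω) : ev c (fun k => π (i k)) (Cnd.act π z) ↔ ev c i z := by
  induction c generalizing z with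
  | gen n => exact forall_congr' fun k => QB1_Hd_act π z (i k) (n k)
  | genc n =>
    show (∀ z' ≤ Cnd.act π z, ¬ ∀ k, Hd z' (π (i k)) (n k)) ↔ ∀ z' ≤ z, ¬ ∀ k, Hd z' (i k) (n k)
    rw [QB1_forall]
    exact forall_congr' fun z' => forall_congr' fun _ =>
      not_congr (forall_congr' fun k => QB1_Hd_act π z' (i k) (n k))
  | un q c ih =>
    have h1 : ∀ n, ∀ j ∈ (q n).supp, π j = j := fun n j hj =>
      hπ j (Set.mem_iUnion.2 ⟨n, Or.inl hj⟩)
    have h2 : ∀ n, ∀ j ∈ (c n).supp, π j = j := fun n j hj =>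
      hπ j (Set.mem_iUnion.2 ⟨n, Or.inr hj⟩)
    exact exists_congr fun n => and_congr (QB1_le (h1 n) z) (ih n (h2 n) z)
  | co q c ih =>
    have h1 : ∀ n, ∀ j ∈ (q n).supp, π j = j := fun n j hj =>
      hπ j (Set.mem_iUnion.2 ⟨n, Or.inl hj⟩)
    have h2 : ∀ n, ∀ j ∈ (c n).supp, π j = j := fun n j hj =>
      hπ j (Set.mem_iUnion.2 ⟨n, Or.inr hj⟩)
    show (∀ z' ≤ Cnd.act π z, ∀ n, z' ≤ q n → ¬ ev (c n) (fun k => π (i k)) z') ↔
      ∀ z' ≤ z, ∀ n, z' ≤ q n → ¬ ev (c n) i z'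
    rw [QB1_forall]
    exact forall_congr' fun z' => forall_congr' fun _ => forall_congr' fun n =>
      imp_congr (QB1_le (h1 n) z') (not_congr (ih n (h2 n) z'))

/-- The code of the cylinder `S × I`. -/
def Kd.cyl {m : ℕ} : Kd I Ω m → Kd I Ω (m + 1)
  | .gen n => .gen (Fin.snoc (α := fun _ => ℕ) n 0)
  | .genc n => .genc (Fin.snoc (α := fun _ => ℕ) n 0)
  | .un q c => .un q (fun n => (c n).cyl)
  | .co q c => .co q (fun n => (c n).cyl)

lemma QB1_snoc {m : ℕ} (n : Fin (m + 1) → ℕ) (i : Fin (m + 2) → I) (z : Cnd I Ω) :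
    (∀ k, Hd z (i k) (Fin.snoc (α := fun _ => ℕ) n 0 k)) ↔
      ∀ k, Hd z (Fin.init (α := fun _ => I) i k) (n k) := by
  constructor
  · intro h k
    have := h k.castSucc
    rw [Fin.snoc_castSucc] at this
    exact this
  · intro h k
    refine Fin.lastCases ?_ (fun k => ?_) k
    · rw [Fin.snoc_last]
      trivial
    · rw [Fin.snoc_castSucc]
      exact h k

lemma ev_cyl {m : ℕ} (c : Kd I Ω m) (i : Fin (m + 2) → I) (z : Cnd I Ω) :
    ev c.cyl i z ↔ ev c (Fin.init (α := fun _ => I) i) z := by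
  induction c generalizing z with
  | gen n => exact QB1_snoc n i z
  | genc n =>
    exact forall_congr' fun z' => forall_congr' fun _ => not_congr (QB1_snoc n i z')
  | un q c ih => exact exists_congr fun n => and_congr Iff.rfl (ih n z)
  | co q c ih =>
    exact forall_congr' fun z' => forall_congr' fun _ => forall_congr' fun n =>
      imp_congr Iff.rfl (not_congr (ih n z'))

/-- The code of the complement. -/
def Kd.neg {m : ℕ} (c : Kd I Ω m) : Kd I Ω m := .co (fun _ => Cnd.top) (fun _ => c)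

lemma ev_neg {m : ℕ} (c : Kd I Ω m) (i : Fin (m + 1) → I) (z : Cnd I Ω) :
    ev c.neg i z ↔ ∀ z' ≤ z, ¬ ev c i z' :=
  ⟨fun h z' hz' => h z' hz' 0 (Cnd.le_top z'), fun h z' hz' _ _ => h z' hz'⟩

/-! ### Forcing -/

/-- `z` forces `X`. -/
def Fo (X : Cnd I Ω → Prop) (z : Cnd I Ω) : Prop := ∀ z' ≤ z, ∃ z'' ≤ z', X z''

/-- Monotone predicates. -/
def Mn (X : Cnd I Ω → Prop) : Prop := ∀ z z', z' ≤ z → X z → X z'

lemma Fo.mono {X : Cnd I Ω → Prop} : Mn (Fo X) := fun _ _ hz h w hw => h w (hw.trans hz)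

lemma Fo.of {X : Cnd I Ω → Prop} (hX : Mn X) {z : Cnd I Ω} (h : X z) : Fo X z :=
  fun z' hz' => ⟨z', le_rfl, hX z z' hz' h⟩

lemma Fo.imp {X Y : Cnd I Ω → Prop} (h : ∀ z, X z → Fo Y z) {z : Cnd I Ω} (hz : Fo X z) :
    Fo Y z := by
  intro z' hz'
  obtain ⟨z1, h1, hX⟩ := hz z' hz'
  obtain ⟨z2, h2, hY⟩ := h z1 hX z1 le_rfl
  exact ⟨z2, h2.trans h1, hY⟩

lemma Fo.fo {X : Cnd I Ω → Prop} {z : Cnd I Ω} (h : Fo (Fo X) z) : Fo X z :=
  h.imp fun _ h => h

/-- The family `θ` of monotone predicates is coded. -/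
def Cdd {m : ℕ} (θ : (Fin (m + 1) → I) → Cnd I Ω → Prop) : Prop :=
  ∃ b : Kd I Ω m, ∀ i z, Fo (ev b i) z ↔ Fo (θ i) z

namespace Cdd

variable {m : ℕ} {θ θ' : (Fin (m + 1) → I) → Cnd I Ω → Prop}

lemma code (c : Kd I Ω m) : Cdd (ev c) := ⟨c, fun _ _ => Iff.rfl⟩

lemma congr (h : Cdd θ) (h' : ∀ i z, Fo (θ i) z ↔ Fo (θ' i) z) : Cdd θ' := by
  obtain ⟨b, hb⟩ := h
  exact ⟨b, fun i z => (hb i z).trans (h' i z)⟩

/-- A sufficient condition. -/
lemma congr' (h : Cdd θ) (h1 : ∀ i z, θ i z → Fo (θ' i) z) (h2 : ∀ i z, θ' i z → Fo (θ i) z) :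
    Cdd θ' :=
  h.congr fun i _ => ⟨fun h => h.imp (h1 i), fun h => h.imp (h2 i)⟩

/-- For monotone `X`: no extension satisfies `X` iff no extension forces `X`. -/
lemma QB2_not_iff {X : Cnd I Ω → Prop} (hX : Mn X) (z : Cnd I Ω) :
    (∀ z' ≤ z, ¬ X z') ↔ ∀ z' ≤ z, ¬ Fo X z' := by
  constructor
  · intro h z' hz' hF
    obtain ⟨w, hw, hXw⟩ := hF z' le_rfl
    exact h w (hw.trans hz') hXw
  · intro h z' hz' hX'
    exact h z' hz' (Fo.of hX hX')

lemma not (h : Cdd θ) (hm : ∀ i, Mn (θ i)) : Cdd (fun i z => ∀ z' ≤ z, ¬ θ i z') := by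
  obtain ⟨b, hb⟩ := h
  refine ⟨b.neg, fun i z => ?_⟩
  have h1 : ev b.neg i = fun z => ∀ z' ≤ z, ¬ θ i z' := by
    funext w
    apply propext
    rw [ev_neg, QB2_not_iff (fun _ _ hz h => ev_mono b h hz), QB2_not_iff (hm i)]
    exact forall_congr' fun z' => forall_congr' fun _ => not_congr (hb i z')
  rw [h1]

lemma un {θ : ℕ → (Fin (m + 1) → I) → Cnd I Ω → Prop} (h : ∀ n, Cdd (θ n))
    (hm : ∀ n i, Mn (θ n i)) : Cdd (fun i z => ∃ n, θ n i z) := by
  choose b hb using h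
  refine (code (.un (fun _ => Cnd.top) b)).congr' ?_ ?_
  · rintro i z ⟨n, _, hn⟩
    have h1 : Fo (θ n i) z := (hb n i z).1 (Fo.of (fun _ _ hz h => ev_mono (b n) h hz) hn)
    intro z' hz'
    obtain ⟨w, hw, hw'⟩ := h1 z' hz'
    exact ⟨w, hw, n, hw'⟩
  · rintro i z ⟨n, hn⟩
    have h1 : Fo (ev (b n) i) z := (hb n i z).2 (Fo.of (hm n i) hn)
    intro z' hz'
    obtain ⟨w, hw, hw'⟩ := h1 z' hz'
    exact ⟨w, hw, n, Cnd.le_top w, hw'⟩

lemma QB2_ff : Cdd (m := m) (fun (_ : Fin (m + 1) → I) (_ : Cnd I Ω) => False) := by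
  refine (code (.genc fun _ => 0)).congr' ?_ ?_
  · intro i z h
    exact (h z le_rfl fun k => trivial).elim
  · intro i z h
    exact h.elim

lemma un' {κ : Type} [Countable κ] {θ : κ → (Fin (m + 1) → I) → Cnd I Ω → Prop}
    (h : ∀ n, Cdd (θ n)) (hm : ∀ n i, Mn (θ n i)) : Cdd (fun i z => ∃ n, θ n i z) := by
  rcases isEmpty_or_nonempty κ with hκ | hκ
  · have h1 : (fun (i : Fin (m + 1) → I) (z : Cnd I Ω) => ∃ n, θ n i z) = fun _ _ => False := by
      funext i z
      apply propext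
      constructor
      · rintro ⟨n, _⟩
        exact hκ.elim n
      · exact False.elim
    rw [h1]
    exact QB2_ff
  · obtain ⟨e, he⟩ := exists_surjective_nat κ
    have h1 : (fun (i : Fin (m + 1) → I) (z : Cnd I Ω) => ∃ n, θ n i z) =
        fun i z => ∃ n : ℕ, θ (e n) i z := by
      funext i z
      exact propext (he.exists (p := fun n => θ n i z))
    rw [h1]
    exact un (fun n => h (e n)) (fun n => hm (e n))

lemma QB2_all {κ : Type} [Countable κ] {θ : κ → (Fin (m + 1) → I) → Cnd I Ω → Prop}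
    (h : ∀ n, Cdd (θ n)) (hm : ∀ n i, Mn (θ n i)) :
    Cdd (fun i z => ∀ n, Fo (θ n i) z) := by
  have h1 := un' (θ := fun n i z => ∀ z' ≤ z, ¬ θ n i z') (fun n => (h n).not (hm n))
    (fun n i z z' hz h w hw => h w (hw.trans hz))
  have h2 := h1.not (fun i z z' hz => fun ⟨n, hn⟩ => ⟨n, fun w hw => hn w (hw.trans hz)⟩)
  have h3 : (fun (i : Fin (m + 1) → I) (z : Cnd I Ω) => ∀ n, Fo (θ n i) z) =
      fun i z => ∀ z' ≤ z, ¬ ∃ n, ∀ z'' ≤ z', ¬ θ n i z'' := by
    funext i z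
    apply propext
    constructor
    · rintro h z' hz' ⟨n, hn⟩
      obtain ⟨w, hw, hw'⟩ := h n z' hz'
      exact hn w hw hw'
    · intro h n z' hz'
      by_contra hcon
      apply h z' hz'
      refine ⟨n, fun w hw hw' => hcon ⟨w, hw, hw'⟩⟩
  rw [h3]
  exact h2

lemma and (h : Cdd θ) (h' : Cdd θ') (hm : ∀ i, Mn (θ i)) (hm' : ∀ i, Mn (θ' i)) :
    Cdd (fun i z => θ i z ∧ θ' i z) := by
  have h1 := QB2_all (κ := Bool) (θ := fun b => if b = true then θ else θ')
    (fun b => by cases b <;> simpa) (fun b i => by cases b <;> simp [hm, hm'])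
  refine h1.congr' ?_ ?_
  · intro i z hz z' hz'
    have ha : Fo (θ i) z := by simpa using hz true
    have hb : Fo (θ' i) z := by simpa using hz false
    obtain ⟨w, hw, hw'⟩ := ha z' hz'
    obtain ⟨v, hv, hv'⟩ := hb w (hw.trans hz')
    exact ⟨v, hv.trans hw, hm i w v hv hw', hv'⟩
  · rintro i z ⟨ha, hb⟩ z' hz'
    refine ⟨z', le_rfl, fun b => ?_⟩
    cases b
    · simpa using Fo.of (hm' i) (hm' i z z' hz' hb)
    · simpa using Fo.of (hm i) (hm i z z' hz' ha)

lemma all {κ : Type} [Countable κ] {θ : κ → (Fin (m + 1) → I) → Cnd I Ω → Prop}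
    (h : ∀ n, Cdd (θ n)) (hm : ∀ n i, Mn (θ n i)) :
    Cdd (fun i z => ∀ n, Fo (θ n i) z) := QB2_all h hm

lemma tt : Cdd (m := m) (fun (_ : Fin (m + 1) → I) (_ : Cnd I Ω) => True) := by
  refine (code (.gen fun _ => 0)).congr' ?_ ?_
  · intro i z _ z' _
    exact ⟨z', le_rfl, trivial⟩
  · intro i z _ z' _
    exact ⟨z', le_rfl, fun _ => trivial⟩

lemma ff : Cdd (m := m) (fun (_ : Fin (m + 1) → I) (_ : Cnd I Ω) => False) := QB2_ff

/-- A fixed condition is in the generic filter. -/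
lemma cond (q : Cnd I Ω) : Cdd (m := m) (fun (_ : Fin (m + 1) → I) z => z ≤ q) := by
  refine (code (.un (fun _ => q) fun _ => .gen fun _ => 0)).congr' ?_ ?_
  · rintro i z ⟨_, hz, _⟩ z' hz'
    exact ⟨z', le_rfl, hz'.trans hz⟩
  · intro i z hz z' hz'
    exact ⟨z', le_rfl, 0, hz'.trans hz, fun _ => trivial⟩

lemma QB2_mn (j : I) (x : At Ω) (b : Bool) : Mn (fun z : Cnd I Ω => z.f j x = some b) :=
  fun _ _ hz h => Cnd.le_some hz h

lemma QB2_digit (k : Fin (m + 1)) (σ : List Bool) (i : Fin (m + 1) → I) (z : Cnd I Ω) :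
    (∀ k', Hd z (i k') (Function.update (fun _ => 0) k (Encodable.encode σ + 1) k')) ↔
      z.f (i k) (At.x σ) = some true := by
  constructor
  · intro h
    have h1 := h k
    rw [Function.update_self] at h1
    have h2 : z.f (i k) (At.x (gs (Encodable.encode σ))) = some true := h1
    rwa [gs_encode] at h2
  · intro h k'
    by_cases hk : k' = k
    · subst hk
      rw [Function.update_self]
      show z.f (i k') (At.x (gs (Encodable.encode σ))) = some true
      rwa [gs_encode]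
    · rw [Function.update_of_ne hk]
      trivial

/-- Digits. -/
lemma digit (k : Fin (m + 1)) (σ : List Bool) (b : Bool) :
    Cdd (m := m) (fun (i : Fin (m + 1) → I) (z : Cnd I Ω) => z.f (i k) (At.x σ) = some b) := by
  cases b
  · refine (code (.genc (Function.update (fun _ => 0) k (Encodable.encode σ + 1)))).congr' ?_ ?_
    · intro i z h z' hz'
      obtain ⟨w, hw, b, hb⟩ := Cnd.decide_digit z' (i k) σ
      refine ⟨w, hw, ?_⟩
      cases b
      · exact hb
      · exact (h w (hw.trans hz') ((QB2_digit k σ i w).2 hb)).elim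
    · intro i z h z' hz'
      refine ⟨z', le_rfl, fun w hw hw' => ?_⟩
      have h1 := (QB2_digit k σ i w).1 hw'
      rw [Cnd.le_some (hw.trans hz') h] at h1
      simp at h1
  · refine (code (.gen (Function.update (fun _ => 0) k (Encodable.encode σ + 1)))).congr' ?_ ?_
    · intro i z h
      exact Fo.of (QB2_mn _ _ _) ((QB2_digit k σ i z).1 h)
    · intro i z h z' hz'
      exact ⟨z', le_rfl, (QB2_digit k σ i z').2 (Cnd.le_some hz' h)⟩

lemma QB3_all {X : (Fin (m + 1) → I) → Prop}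
    {Y : List Bool → Bool → (Fin (m + 1) → I) → Cnd I Ω → Prop} (k : Fin (m + 1))
    (hY : ∀ σ b, Cdd (Y σ b)) (hm : ∀ σ b i, Mn (Y σ b i))
    (h1 : ∀ i, ¬ X i → ∀ z : Cnd I Ω, ∃ z' ≤ z, ∃ σ b, z'.f (i k) (At.x σ) = some b ∧
      ∀ z'' ≤ z', ¬ Y σ b i z'')
    (h2 : ∀ i, X i → ∀ z : Cnd I Ω, ∀ σ b, z.f (i k) (At.x σ) = some b → Y σ b i z) :
    Cdd (m := m) (fun (i : Fin (m + 1) → I) (_ : Cnd I Ω) => X i) := by
  have hθm : ∀ σ b i, Mn (fun z : Cnd I Ω => z.f (i k) (At.x σ) = some b ∧ Y σ b i z) :=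
    fun σ b i z z' hz h => ⟨Cnd.le_some hz h.1, hm σ b i z z' hz h.2⟩
  have hθ : ∀ σ b, Cdd (m := m) (fun (i : Fin (m + 1) → I) (z : Cnd I Ω) =>
      z.f (i k) (At.x σ) = some b ∧ Y σ b i z) := fun σ b =>
    (digit k σ b).and (hY σ b) (fun i z z' hz h => Cnd.le_some hz h) (hm σ b)
  have hθ' : ∀ σ, Cdd (m := m) (fun (i : Fin (m + 1) → I) (z : Cnd I Ω) =>
      ∃ b, z.f (i k) (At.x σ) = some b ∧ Y σ b i z) := fun σ =>
    un' (κ := Bool) (hθ σ) (hθm σ)
  have hθm' : ∀ σ i, Mn (fun z : Cnd I Ω => ∃ b, z.f (i k) (At.x σ) = some b ∧ Y σ b i z) :=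
    fun σ i z z' hz ⟨b, h⟩ => ⟨b, hθm σ b i z z' hz h⟩
  refine (all (κ := List Bool) hθ' hθm').congr' (fun i z h => ?_) (fun i z h => ?_)
  · by_contra hX
    have hX' : ¬ X i := fun hX' => hX fun z' _ => ⟨z', le_rfl, hX'⟩
    obtain ⟨z', hz', σ, b, hb, hY'⟩ := h1 i hX' z
    obtain ⟨z'', hz'', b', hb', hY''⟩ := h σ z' hz'
    have h3 := Cnd.le_some hz'' hb
    rw [hb'] at h3
    obtain rfl : b' = b := by simpa using h3
    exact hY' z'' hz'' hY''
  · refine fun z1 _ => ⟨z1, le_rfl, fun σ z' _ => ?_⟩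
    obtain ⟨z'', hz'', b, hb⟩ := Cnd.decide_digit z' (i k) σ
    exact ⟨z'', hz'', b, hb, h2 i h z'' σ b hb⟩

/-- Equality of coordinates. -/
lemma eq (k l : Fin (m + 1)) :
    Cdd (m := m) (fun (i : Fin (m + 1) → I) (_ : Cnd I Ω) => i k = i l) := by
  refine QB3_all (Y := fun σ b i z => z.f (i l) (At.x σ) = some b) k (fun σ b => digit l σ b)
    (fun σ b i z z' hz h => Cnd.le_some hz h) (fun i h z => ?_) (fun i h z σ b hb => ?_)
  · obtain ⟨z', hz', σ, h1, h2⟩ := Cnd.exists_sep z h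
    refine ⟨z', hz', σ, true, h1, fun z'' hz'' h3 => ?_⟩
    rw [Cnd.le_some hz'' h2] at h3
    simp at h3
  · rw [← h]
    exact hb

/-- The digits of a given point. -/
lemma QB3_digit (j : I) (σ : List Bool) (b : Bool) :
    Cdd (m := m) (fun (_ : Fin (m + 1) → I) (z : Cnd I Ω) => z.f j (At.x σ) = some b) := by
  obtain ⟨q, -, hq, hq'⟩ := Cnd.exists_digit (Cnd.top : Cnd I Ω) j σ b rfl
    (fun _ a t _ h => by simp [Cnd.top] at h)
  have h : ∀ z : Cnd I Ω, z ≤ q ↔ z.f j (At.x σ) = some b := by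
    intro z
    refine ⟨fun hz => Cnd.le_some hz hq, fun hz i => ⟨fun x b' hx => ?_, fun a t n _ hx _ => ?_⟩⟩
    · by_cases hc : i ≠ j ∨ x ≠ At.x σ
      · rw [hq' i x hc] at hx
        simp [Cnd.top] at hx
      · push Not at hc
        obtain ⟨rfl, rfl⟩ := hc
        rw [hq] at hx
        rwa [← hx]
    · rw [hq' i _ (Or.inr (by simp [At.nd, At.x]))] at hx
      simp [Cnd.top] at hx
  refine (cond (m := m) q).congr fun i z => ?_
  have h' : (fun z : Cnd I Ω => z ≤ q) = fun z => z.f j (At.x σ) = some b := by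
    funext z
    exact propext (h z)
  rw [h']

/-- Equality with a given point. -/
lemma eqc (k : Fin (m + 1)) (j : I) :
    Cdd (m := m) (fun (i : Fin (m + 1) → I) (_ : Cnd I Ω) => i k = j) := by
  refine QB3_all (Y := fun σ b _ z => z.f j (At.x σ) = some b) k (fun σ b => QB3_digit j σ b)
    (fun σ b i z z' hz h => Cnd.le_some hz h) (fun i h z => ?_) (fun i h z σ b hb => ?_)
  · obtain ⟨z', hz', σ, h1, h2⟩ := Cnd.exists_sep z h
    refine ⟨z', hz', σ, true, h1, fun z'' hz'' h3 => ?_⟩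
    rw [Cnd.le_some hz'' h2] at h3
    simp at h3
  · rw [← h]
    exact hb

/-- Membership in a countable set of points. -/
lemma mem (k : Fin (m + 1)) {s : Set I} (hs : s.Countable) :
    Cdd (m := m) (fun (i : Fin (m + 1) → I) (_ : Cnd I Ω) => i k ∈ s) := by
  have : Countable s := hs
  refine (un' (κ := s) (fun j => eqc (m := m) k j.1) (fun j i z z' _ h => h)).congr fun i z => ?_
  have h : (fun _ : Cnd I Ω => ∃ j : s, i k = j.1) = fun _ => i k ∈ s := by
    funext _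
    refine propext ⟨?_, fun h => ⟨⟨_, h⟩, rfl⟩⟩
    rintro ⟨j, hj⟩
    rw [hj]
    exact j.2
  rw [h]

/-- Labels of nodes. -/
lemma QB4_false {k : Fin (m + 1)} {x : At Ω}
    (h : Cdd (m := m) (fun (i : Fin (m + 1) → I) (z : Cnd I Ω) => z.f (i k) x = some true)) :
    Cdd (m := m) (fun (i : Fin (m + 1) → I) (z : Cnd I Ω) => z.f (i k) x = some false) := by
  refine (h.not fun i => QB2_mn _ _ _).congr' ?_ ?_
  · intro i z h z' hz'
    obtain ⟨w, hw, b, hb⟩ := Cnd.decide_atom z' (i k) x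
    refine ⟨w, hw, ?_⟩
    cases b
    · exact hb
    · exact (h w (hw.trans hz') hb).elim
  · intro i z h z' hz'
    refine ⟨z', le_rfl, fun w hw hw' => ?_⟩
    rw [Cnd.le_some (hw.trans hz') h] at hw'
    simp at hw'

lemma QB4_true (k : Fin (m + 1)) (a : Ω) : ∀ (α : Ordinal.{0}) (t : List ℕ), D.ρ a t = α →
    Cdd (m := m) (fun (i : Fin (m + 1) → I) (z : Cnd I Ω) =>
      z.f (i k) (At.nd a t) = some true) := by
  intro α
  induction α using WellFoundedLT.induction with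
  | ind α IH =>
    intro t ht
    by_cases h0 : D.ρ a t = 0
    · -- a leaf
      have h1 : ∀ m₀ : ℕ, Cdd (m := m) (fun (i : Fin (m + 1) → I) (z : Cnd I Ω) =>
          ∃ n : {n : ℕ // m₀ ≤ n}, z.f (i k) (At.x (pre (D.g a t) n)) = some true) := fun m₀ =>
        un' (fun n => digit k _ true) (fun n i => QB2_mn _ _ _)
      have h2 := all h1 (fun m₀ i z z' hz => fun ⟨n, hn⟩ => ⟨n, Cnd.le_some hz hn⟩)
      refine h2.congr' ?_ ?_
      · intro i z h z' hz'
        obtain ⟨w, hw, b, hb⟩ := Cnd.decide_atom z' (i k) (At.nd a t)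
        refine ⟨w, hw, ?_⟩
        cases b
        · exfalso
          obtain ⟨m₀, hm₀⟩ := Cnd.leaf_false w (i k) a t h0 hb
          obtain ⟨v, hv, n, hn⟩ := h m₀ w (hw.trans hz')
          exact hm₀ n n.2 v hv hn
        · exact hb
      · intro i z h z' hz'
        refine ⟨z', le_rfl, fun m₀ w hw => ?_⟩
        obtain ⟨n, hn, v, hv, hv'⟩ := Cnd.leaf_true w (i k) a t
          (Cnd.le_some (hw.trans hz') h) m₀
        exact ⟨v, hv, ⟨n, hn⟩, hv'⟩
    · -- not a leaf
      have h1 : ∀ j : ℕ, Cdd (m := m) (fun (i : Fin (m + 1) → I) (z : Cnd I Ω) =>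
          z.f (i k) (At.nd a (j :: t)) = some true) := fun j =>
        IH _ (by rw [← ht]; exact D.lt a t j h0) (j :: t) rfl
      have h2 := (un h1 (fun j i => QB2_mn _ _ _)).not
        (fun i z z' hz => fun ⟨n, hn⟩ => ⟨n, Cnd.le_some hz hn⟩)
      refine h2.congr' ?_ ?_
      · intro i z h z' hz'
        obtain ⟨w, hw, b, hb⟩ := Cnd.decide_atom z' (i k) (At.nd a t)
        refine ⟨w, hw, ?_⟩
        cases b
        · exfalso
          obtain ⟨j, v, hv, hv'⟩ := Cnd.node_false w (i k) a t hb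
          exact h v (hv.trans (hw.trans hz')) ⟨j, hv'⟩
        · exact hb
      · intro i z h z' hz'
        refine ⟨z', le_rfl, ?_⟩
        rintro w hw ⟨j, hj⟩
        exact Cnd.node_true z (i k) a t h j w (hw.trans hz') hj

lemma node (k : Fin (m + 1)) (a : Ω) (t : List ℕ) (b : Bool) :
    Cdd (m := m) (fun (i : Fin (m + 1) → I) (z : Cnd I Ω) =>
      z.f (i k) (At.nd a t) = some b) := by
  cases b
  · exact QB4_false (QB4_true k a _ t rfl)
  · exact QB4_true k a _ t rfl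

/-- Local conditions. -/
lemma local' (k : Fin (m + 1)) (p : At Ω → Option Bool) (hp : {x | p x ≠ none}.Finite) :
    Cdd (m := m) (fun (i : Fin (m + 1) → I) (z : Cnd I Ω) => LeAt (z.f (i k)) p) := by
  classical
  -- the index type
  let κ1 : Type := {x : At Ω // p x ≠ none}
  let κ2 : Type := {q : (Ω × List ℕ) × ℕ // D.ρ q.1.1 q.1.2 = 0 ∧
    p (At.nd q.1.1 q.1.2) = some false ∧ p (At.x (pre (D.g q.1.1 q.1.2) q.2)) = none}
  have hc1 : Countable κ1 := hp.countable.to_subtype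
  have hc2 : Countable κ2 := by
    have hfin : {q : Ω × List ℕ | p (At.nd q.1 q.2) ≠ none}.Finite := by
      have h1 : (Sum.inr : Ω × List ℕ → At Ω) ⁻¹' {x | p x ≠ none} =
          {q : Ω × List ℕ | p (At.nd q.1 q.2) ≠ none} := rfl
      rw [← h1]
      exact hp.preimage Sum.inr_injective.injOn
    have h2 : ({q : Ω × List ℕ | p (At.nd q.1 q.2) ≠ none} ×ˢ (univ : Set ℕ)).Countable :=
      hfin.countable.prod countable_univ
    refine (h2.mono ?_).to_subtype
    rintro ⟨⟨a, t⟩, n⟩ ⟨_, h4, _⟩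
    refine ⟨?_, mem_univ _⟩
    show p (At.nd a t) ≠ none
    have h4' : p (At.nd a t) = some false := h4
    rw [h4']
    simp
  have hx : ∀ (x : At Ω) (b : Bool), Cdd (m := m) (fun (i : Fin (m + 1) → I) (z : Cnd I Ω) =>
      z.f (i k) x = some b) := by
    intro x b
    rcases x with σ | ⟨a, t⟩
    · exact digit k σ b
    · exact node k a t b
  let θ : κ1 ⊕ κ2 → (Fin (m + 1) → I) → Cnd I Ω → Prop := fun n i z =>
    match n with
    | Sum.inl x => z.f (i k) x.1 = some ((p x.1).getD false)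
    | Sum.inr q => ∀ z' ≤ z, ¬ z'.f (i k) (At.x (pre (D.g q.1.1.1 q.1.1.2) q.1.2)) = some true
  have h1 : ∀ n, Cdd (θ n) := by
    rintro (x | q)
    · exact hx x.1 _
    · exact (digit k _ true).not fun i => QB2_mn _ _ _
  have hm : ∀ n i, Mn (θ n i) := by
    rintro (x | q) i
    · exact QB2_mn _ _ _
    · intro z z' hz h w hw
      exact h w (hw.trans hz)
  refine (all h1 hm).congr' ?_ ?_
  · intro i z h z' hz'
    -- all values
    have h2 : ∀ s : Set (At Ω), s.Finite → s ⊆ {x | p x ≠ none} → ∀ z' ≤ z, ∃ w ≤ z',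
        ∀ x ∈ s, ∀ b, p x = some b → w.f (i k) x = some b := by
      intro s hs
      induction s, hs using Set.Finite.induction_on with
      | empty =>
        intro _ z' _
        exact ⟨z', le_rfl, fun x hx => hx.elim⟩
      | @insert x s hxs hs IH =>
        intro hsub z' hz'
        obtain ⟨w, hw, hw'⟩ := IH ((subset_insert _ _).trans hsub) z' hz'
        obtain ⟨v, hv, hv'⟩ := h (Sum.inl ⟨x, hsub (mem_insert _ _)⟩) w (hw.trans hz')
        refine ⟨v, hv.trans hw, ?_⟩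
        intro y hy b hb
        rcases hy with rfl | hy
        · have h3 : v.f (i k) y = some ((p y).getD false) := hv'
          rw [h3, hb]
          rfl
        · exact Cnd.le_some hv (hw' y hy b hb)
    obtain ⟨w, hw, hw'⟩ := h2 _ hp (fun x hx => hx) z' hz'
    refine ⟨w, hw, fun x b hb => hw' x (by
      show p x ≠ none
      rw [hb]
      simp) b hb, fun a t n h0 h3 h4 h5 => ?_⟩
    obtain ⟨v, hv, hv'⟩ := h (Sum.inr ⟨((a, t), n), h0, h3, h4⟩) w (hw.trans hz')
    exact hv' v le_rfl (Cnd.le_some hv h5)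
  · intro i z h z' hz'
    refine ⟨z', le_rfl, ?_⟩
    have hz'' : LeAt (z'.f (i k)) p := (hz' (i k)).trans h
    rintro (x | q)
    · refine Fo.of (hm (Sum.inl x) i) ?_
      show z'.f (i k) x.1 = some ((p x.1).getD false)
      obtain ⟨b, hb⟩ := Option.ne_none_iff_exists'.1 x.2
      rw [hz''.1 x.1 b hb, hb]
      rfl
    · refine Fo.of (hm (Sum.inr q) i) ?_
      obtain ⟨⟨⟨a, t⟩, n⟩, h0, h3, h4⟩ := q
      intro w hw hw'
      have hw'' : LeAt (w.f (i k)) p := (hw (i k)).trans hz''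
      exact hw''.2 a t n h0 h3 h4 hw'

end Cdd

end Pool.PV
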