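import Pool.Agent.Lib.MP_1c8600_lc.ModDefs

/-!
# MP_1c8600_lc: the positive answer inside a transitive model
-/

set_option autoImplicit false

namespace Pool.MP_1c8600_lc

open Pool.PC

/-- In `V`, the set `E` has the cardinality `2^ℵ₀`: `V` contains an injective function from `E` to
the subsets of `ω` and a function with domain `E` whose values include all subsets of `ω` that
belong to `V`. -/
def SizeC (V : Set ZFSet.{0}) (E : ZFSet.{0}) : Prop :=
  (∃ f ∈ V, FunOn f E ∧ (∀ x y, ZFSet.pair x y ∈ f → y ⊆ ZFSet.omega) ∧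
    ∀ x x' y, ZFSet.pair x y ∈ f → ZFSet.pair x' y ∈ f → x = x') ∧
  ∃ g ∈ V, FunOn g E ∧ ∀ y ∈ V, y ⊆ ZFSet.omega → ∃ x ∈ E, ZFSet.pair x y ∈ g

/-- In `V`, some set `E` of cardinality `2^ℵ₀` carries a sequence of subsets which has property (a)
and property (b)_k for every `k ≥ 1`. -/
def PosE (V : Set ZFSet.{0}) : Prop :=
  ∃ E ∈ V, SizeC V E ∧ ∃ A : ℕ → ZFSet.{0}, SeqIn V A ∧ (∀ n, A n ⊆ E) ∧
    PropAV V E A ∧ ∀ k, PropBV V E A k

/-- The positive answer in `V`, in the strongest form: there is a set of cardinality `2^ℵ₀`, and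
every such set `E` carries a sequence of subsets which has property (a) and property (b)_k for
every `k ≥ 1`. -/
def PositiveV (V : Set ZFSet.{0}) : Prop :=
  (∃ E ∈ V, SizeC V E) ∧ ∀ E ∈ V, SizeC V E → ∃ A : ℕ → ZFSet.{0}, SeqIn V A ∧
    (∀ n, A n ⊆ E) ∧ PropAV V E A ∧ ∀ k, PropBV V E A k

end Pool.MP_1c8600_lc
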