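import Pool.Agent.Lib.MP_1c8600_pv.Code

/-!
# The positive half: ranks
-/

set_option autoImplicit false
set_option linter.unusedSectionVars false

open Set Pool.LV

namespace Pool.PV

variable {I Ω : Type} [D : TR Ω]

/-- Compatibility. -/
def Cpt (z w : Cnd I Ω) : Prop := ∃ v, v ≤ z ∧ v ≤ w

/-- All nodes mentioned by `z` at `i` have rank at most `β`. -/
def Rk (i : I) (β : Ordinal.{0}) (z : Cnd I Ω) : Prop :=
  ∀ a t b, z.f i (At.nd a t) = some b → D.ρ a t ≤ β

/-- All nodes mentioned by `z` at `i` have rank less than `β`. -/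
def Rk' (i : I) (β : Ordinal.{0}) (z : Cnd I Ω) : Prop :=
  ∀ a t b, z.f i (At.nd a t) = some b → D.ρ a t < β

/-- The additional false nodes of the restriction. -/
def QD1_S (z : Cnd I Ω) (i : I) (β : Ordinal.{0}) (a : Ω) (t : List ℕ) : Prop :=
  ∃ k s, t = k :: s ∧ z.f i (At.nd a s) = some true ∧ β < D.ρ a s ∧ D.ρ a t < β

lemma QD1_fin (z : Cnd I Ω) (i : I) (β : Ordinal.{0}) :
    {x : At Ω | ∃ a t, x = At.nd a t ∧ QD1_S z i β a t}.Finite := by
  have h1 : {x : At Ω | ∃ a t, x = At.nd a t ∧ QD1_S z i β a t} ⊆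
      ⋃ y ∈ {x | z.f i x ≠ none}, {x : At Ω | ∃ a s k, y = At.nd a s ∧ x = At.nd a (k :: s) ∧
        β < D.ρ a s ∧ D.ρ a (k :: s) < β} := by
    rintro x ⟨a, t, rfl, k, s, rfl, h2, h3, h4⟩
    simp only [mem_iUnion]
    exact ⟨At.nd a s, by simp [h2], a, s, k, rfl, rfl, h3, h4⟩
  refine Set.Finite.subset (Set.Finite.biUnion (z.fin_at i) fun y _ => ?_) h1
  rcases y with σ | ⟨a, s⟩
  · refine Set.Finite.subset Set.finite_empty ?_
    rintro x ⟨a, s, k, h2, -⟩
    exact absurd h2 (by simp [At.nd])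
  · by_cases h2 : β < D.ρ a s
    · refine Set.Finite.subset ((D.fin a s β h2).image fun k => At.nd a (k :: s)) ?_
      rintro x ⟨a', s', k, h3, rfl, h4, h5⟩
      simp only [At.nd, Sum.inr.injEq, Prod.mk.injEq] at h3
      obtain ⟨rfl, rfl⟩ := h3
      exact ⟨k, h5, rfl⟩
    · refine Set.Finite.subset Set.finite_empty ?_
      rintro x ⟨a', s', k, h3, rfl, h4, h5⟩
      simp only [At.nd, Sum.inr.injEq, Prod.mk.injEq] at h3
      obtain ⟨rfl, rfl⟩ := h3
      exact absurd h4 h2

open Classical in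
/-- The local condition of the restriction. -/
noncomputable def QD1_p (z : Cnd I Ω) (i : I) (β : Ordinal.{0}) : At Ω → Option Bool
  | Sum.inl σ => z.f i (At.x σ)
  | Sum.inr (a, t) => if D.ρ a t ≤ β ∧ z.f i (At.nd a t) ≠ none then z.f i (At.nd a t) else
      if QD1_S z i β a t then some false else none

lemma QD1_true {z : Cnd I Ω} {i : I} {β : Ordinal.{0}} {a : Ω} {t : List ℕ}
    (h : QD1_p z i β (At.nd a t) = some true) : z.f i (At.nd a t) = some true := by
  simp only [QD1_p, At.nd] at h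
  split_ifs at h with h1 h2
  · exact h
  · exact absurd h (by simp)

lemma QD1_low {z : Cnd I Ω} {i : I} {β : Ordinal.{0}} {a : Ω} {t : List ℕ} {b : Bool}
    (h : z.f i (At.nd a t) = some b) (h1 : D.ρ a t ≤ β) :
    QD1_p z i β (At.nd a t) = some b := by
  simp only [QD1_p, At.nd] at h ⊢
  rw [if_pos ⟨h1, by rw [h]; simp⟩, h]

lemma QD1_S_false {z : Cnd I Ω} {i : I} {β : Ordinal.{0}} {a : Ω} {t : List ℕ}
    (h : QD1_S z i β a t) {b : Bool} (hb : z.f i (At.nd a t) = some b) : b = false := by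
  obtain ⟨k, s, rfl, h1, -, -⟩ := h
  have h2 := z.con i a s k h1
  rcases b with _ | _
  · rfl
  · exact absurd hb h2

lemma QD1_S_p {z : Cnd I Ω} {i : I} {β : Ordinal.{0}} {a : Ω} {t : List ℕ}
    (h : QD1_S z i β a t) : QD1_p z i β (At.nd a t) = some false := by
  simp only [QD1_p, At.nd]
  split_ifs with h1
  · obtain ⟨b, hb⟩ := Option.ne_none_iff_exists'.1 h1.2
    have h2 : z.f i (At.nd a t) = some b := hb
    rw [QD1_S_false h h2] at hb
    exact hb
  · rfl

/-- The restriction of `z` to the nodes of rank at most `β`. -/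
theorem exists_hat (z : Cnd I Ω) (i : I) (β : Ordinal.{0}) :
    ∃ z', Rk i β z' ∧ Cpt z z' ∧ ∀ q, Rk' i β q → Cpt q z' → Cpt q z := by
  classical
  have hpf : {x | QD1_p z i β x ≠ none}.Finite := by
    refine Set.Finite.subset ((z.fin_at i).union (QD1_fin z i β)) ?_
    rintro (σ | ⟨a, t⟩) hx
    · exact Or.inl hx
    · simp only [QD1_p, mem_ofPred_eq] at hx
      split_ifs at hx with h1 h2
      · exact Or.inl h1.2
      · exact Or.inr ⟨a, t, rfl, h2⟩
      · exact absurd rfl hx
  have hpc : Lgl (QD1_p z i β) := fun a t k h1 h2 => z.con i a t k (QD1_true h1) (QD1_true h2)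
  refine ⟨z.upd i (QD1_p z i β) hpf hpc, ?_, ?_, ?_⟩
  · intro a t b h
    rw [Cnd.upd_self] at h
    simp only [QD1_p, At.nd] at h
    split_ifs at h with h1 h2
    · exact h1.1
    · obtain ⟨-, -, -, -, -, h3⟩ := h2
      exact h3.le
  · -- the union
    set p : At Ω → Option Bool := fun x => if z.f i x ≠ none then z.f i x else QD1_p z i β x
      with hp
    have hf : {x | p x ≠ none}.Finite := by
      refine Set.Finite.subset ((z.fin_at i).union hpf) ?_
      intro x hx
      simp only [hp, mem_ofPred_eq] at hx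
      split_ifs at hx with h1
      · exact Or.inl h1
      · exact Or.inr hx
    have hpos : ∀ {x b}, z.f i x = some b → p x = some b := by
      intro x b h
      simp only [hp]
      rw [if_pos (by rw [h]; simp), h]
    have htrue : ∀ {a t}, p (At.nd a t) = some true → z.f i (At.nd a t) = some true := by
      intro a t h
      simp only [hp] at h
      split_ifs at h with h1
      · exact h
      · exact QD1_true h
    have hx : ∀ σ, p (At.x σ) = z.f i (At.x σ) := by
      intro σ
      simp only [hp]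
      split_ifs with h1
      · rfl
      · rfl
    have hc : Lgl p := fun a t k h1 h2 => z.con i a t k (htrue h1) (htrue h2)
    refine ⟨z.upd i p hf hc, fun j => ?_, fun j => ?_⟩
    · by_cases hj : j = i
      · subst hj
        rw [Cnd.upd_self]
        refine ⟨fun x b h => hpos h, fun a t m _ _ h => ?_⟩
        rw [hx, h]
        simp
      · rw [Cnd.upd_ne hj]
        exact LeAt.refl _
    · by_cases hj : j = i
      · subst hj
        rw [Cnd.upd_self, Cnd.upd_self]
        refine ⟨fun x b h => ?_, fun a t m _ _ h => ?_⟩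
        · rcases x with σ | ⟨a, t⟩
          · exact hpos h
          · have h0 := h
            simp only [QD1_p] at h
            split_ifs at h with h1 h2
            · exact hpos h
            · by_cases h3 : z.f j (At.nd a t) = none
              · simp only [hp]
                rw [if_neg (not_not.2 h3)]
                exact h0
              · obtain ⟨c, hc'⟩ := Option.ne_none_iff_exists'.1 h3
                have h4 := QD1_S_false h2 hc'
                rw [← h, ← h4]
                exact hpos hc'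
        · have h1 : z.f j (At.x (pre (D.g a t) m)) = none := h
          rw [hx, h1]
          simp
      · rw [Cnd.upd_ne hj, Cnd.upd_ne hj]
        exact LeAt.refl _
  · rintro q hq ⟨w, hwq, hwz⟩
    have hwi := hwz i
    rw [Cnd.upd_self] at hwi
    set p : At Ω → Option Bool := fun x => match x with
      | Sum.inl σ => w.f i (At.x σ)
      | Sum.inr (a, t) => if z.f i (At.nd a t) ≠ none then z.f i (At.nd a t) else
        q.f i (At.nd a t) with hp
    have hcon : ∀ {a t b b'}, z.f i (At.nd a t) = some b → q.f i (At.nd a t) = some b' →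
        b = b' := by
      intro a t b b' h1 h2
      have h3 := hq a t b' h2
      have h4 := hwi.1 _ _ (QD1_low h1 h3.le)
      have h5 := Cnd.le_some hwq h2
      rw [h4] at h5
      exact Option.some.inj h5
    have hpz : ∀ {a t b}, z.f i (At.nd a t) = some b → p (At.nd a t) = some b := by
      intro a t b h
      simp only [hp, At.nd] at h ⊢
      rw [if_pos (by rw [h]; simp), h]
    have hpq : ∀ {a t b}, q.f i (At.nd a t) = some b → p (At.nd a t) = some b := by
      intro a t b h
      by_cases h1 : z.f i (At.nd a t) = none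
      · simp only [hp, At.nd] at h1 h ⊢
        rw [if_neg (not_not.2 h1), h]
      · obtain ⟨c, hc'⟩ := Option.ne_none_iff_exists'.1 h1
        rw [hpz hc', hcon hc' h]
    have hor : ∀ {a t b}, p (At.nd a t) = some b →
        z.f i (At.nd a t) = some b ∨ q.f i (At.nd a t) = some b := by
      intro a t b h
      simp only [hp, At.nd] at h
      split_ifs at h with h1
      · exact Or.inl h
      · exact Or.inr h
    have hc : Lgl p := by
      intro a t k h1 h2
      rcases hor h1 with h3 | h3 <;> rcases hor h2 with h4 | h4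
      · exact z.con i a t k h3 h4
      · have h5 := hq _ _ _ h4
        by_cases h6 : D.ρ a t ≤ β
        · exact w.con i a t k (hwi.1 _ _ (QD1_low h3 h6)) (Cnd.le_some hwq h4)
        · have h7 : QD1_S z i β a (k :: t) := ⟨k, t, rfl, h3, not_le.1 h6, h5⟩
          have h8 := hwi.1 _ _ (QD1_S_p h7)
          have h9 := Cnd.le_some hwq h4
          rw [h8] at h9
          simp at h9
      · have h5 := hq _ _ _ h3
        have h6 : D.ρ a (k :: t) ≤ β := by
          by_cases h7 : D.ρ a t = 0
          · rw [D.zero a t k h7]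
            exact zero_le
          · exact ((D.lt a t k h7).trans h5).le
        exact w.con i a t k (Cnd.le_some hwq h3) (hwi.1 _ _ (QD1_low h4 h6))
      · exact q.con i a t k h3 h4
    have hf : {x | p x ≠ none}.Finite := by
      refine Set.Finite.subset ((w.fin_at i).union ((z.fin_at i).union (q.fin_at i))) ?_
      rintro (σ | ⟨a, t⟩) hx
      · exact Or.inl hx
      · simp only [hp, mem_ofPred_eq] at hx
        split_ifs at hx with h1
        · exact Or.inr (Or.inl h1)
        · exact Or.inr (Or.inr hx)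
    refine ⟨w.upd i p hf hc, fun j => ?_, fun j => ?_⟩
    · by_cases hj : j = i
      · subst hj
        rw [Cnd.upd_self]
        refine ⟨fun x b h => ?_, fun a t m h0 h1 h2 => (hwq j).2 a t m h0 h1 h2⟩
        rcases x with σ | ⟨a, t⟩
        · exact Cnd.le_some hwq h
        · exact hpq h
      · rw [Cnd.upd_ne hj]
        exact hwq j
    · by_cases hj : j = i
      · subst hj
        rw [Cnd.upd_self]
        refine ⟨fun x b h => ?_, fun a t m h0 h1 h2 => ?_⟩
        · rcases x with σ | ⟨a, t⟩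
          · exact hwi.1 _ _ h
          · exact hpz h
        · exact hwi.2 a t m h0 (QD1_low h1 (by rw [h0]; exact zero_le)) h2
      · rw [Cnd.upd_ne hj]
        have h1 := hwz j
        rwa [Cnd.upd_ne hj] at h1

/-- Forgetting the labels at `i`. -/
lemma exists_forget (z : Cnd I Ω) (i : I) :
    ∃ z', z ≤ z' ∧ (∀ σ, z'.f i (At.x σ) = z.f i (At.x σ)) ∧
      ∀ a t, z'.f i (At.nd a t) = none := by
  classical
  set p : At Ω → Option Bool := fun x => match x with
    | Sum.inl σ => z.f i (At.x σ)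
    | Sum.inr _ => none with hp
  have hf : {x | p x ≠ none}.Finite := by
    refine Set.Finite.subset (z.fin_at i) ?_
    rintro (σ | ⟨a, t⟩) hx
    · exact hx
    · exact absurd rfl hx
  have hc : Lgl p := fun a t k h => by simp [hp, At.nd] at h
  refine ⟨z.upd i p hf hc, fun j => ?_, fun σ => by rw [Cnd.upd_self], fun a t => by
    rw [Cnd.upd_self]⟩
  by_cases hj : j = i
  · subst hj
    rw [Cnd.upd_self]
    refine ⟨fun x b h => ?_, fun a t m _ h => by simp [hp, At.nd] at h⟩
    rcases x with σ | ⟨a, t⟩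
    · exact h
    · simp [hp] at h
  · rw [Cnd.upd_ne hj]
    exact LeAt.refl _

/-- The two halves of the induction hypothesis. -/
def Ph (β : Ordinal.{0}) (i : I) (X : Cnd I Ω → Prop) : Prop :=
  (∀ z, Fo X z → ∃ z', Rk i β z' ∧ Cpt z z' ∧ Fo X z') ∧
    ∀ z, (∀ w ≤ z, ¬ X w) → ∃ z', Rk i β z' ∧ Cpt z z' ∧ ∀ w ≤ z', ¬ X w

lemma QD2_rk {z : Cnd I Ω} {i : I} (h : ∀ a t, z.f i (At.nd a t) = none) (β : Ordinal.{0}) :
    Rk i β z := fun a t b hb => by
  rw [h a t] at hb
  exact absurd hb (by simp)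

lemma Ph.base (β : Ordinal.{0}) (i : I) (n : ℕ) : Ph β i (fun z : Cnd I Ω => Hd z i n) := by
  rcases n with _ | n
  · refine ⟨fun z _ => ?_, fun z h => absurd trivial (h z le_rfl)⟩
    obtain ⟨z', h1, -, h3⟩ := exists_forget z i
    exact ⟨z', QD2_rk h3 β, ⟨z, le_rfl, h1⟩, fun w _ => ⟨w, le_rfl, trivial⟩⟩
  · have key : ∀ z : Cnd I Ω, ∃ z1 ≤ z, ∃ z', z1 ≤ z' ∧ Rk i β z' ∧ ∃ b,
        z1.f i (At.x (gs n)) = some b ∧ z'.f i (At.x (gs n)) = some b := by
      intro z
      obtain ⟨z1, hz1, b, hb⟩ := Cnd.decide_digit z i (gs n)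
      obtain ⟨z', h1, h2, h3⟩ := exists_forget z1 i
      exact ⟨z1, hz1, z', h1, QD2_rk h3 β, b, hb, by rw [h2, hb]⟩
    refine ⟨fun z h => ?_, fun z h => ?_⟩
    · obtain ⟨z1, h1, z', h2, h3, b, h4, h5⟩ := key z
      obtain ⟨z2, h6, h7⟩ := h z1 h1
      have h8 := Cnd.le_some h6 h4
      have h9 : z2.f i (At.x (gs n)) = some true := h7
      rw [h9] at h8
      refine ⟨z', h3, ⟨z1, h1, h2⟩, fun w hw => ⟨w, le_rfl, ?_⟩⟩
      have h10 := Cnd.le_some hw h5
      rw [← h8] at h10
      exact h10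
    · obtain ⟨z1, h1, z', h2, h3, b, h4, h5⟩ := key z
      refine ⟨z', h3, ⟨z1, h1, h2⟩, fun w hw hX => h z1 h1 ?_⟩
      have h6 := Cnd.le_some hw h5
      have h7 : w.f i (At.x (gs n)) = some true := hX
      rw [h6] at h7
      rw [h7] at h4
      exact h4

lemma Ph.not {β : Ordinal.{0}} {i : I} {X : Cnd I Ω → Prop} (h : Ph β i X) (hX : Mn X) :
    Ph β i (fun z => ∀ w ≤ z, ¬ X w) := by
  refine ⟨fun z hz => ?_, fun z hz => ?_⟩
  · have h1 : ∀ w ≤ z, ¬ X w := by
      intro w hw hXw
      obtain ⟨v, hv, h2⟩ := hz w hw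
      exact h2 v le_rfl (hX w v hv hXw)
    obtain ⟨z', h2, h3, h4⟩ := h.2 z h1
    exact ⟨z', h2, h3, fun w hw => ⟨w, le_rfl, fun v hv => h4 v (hv.trans hw)⟩⟩
  · have h1 : Fo X z := by
      intro w hw
      by_contra hcon
      exact hz w hw fun v hv hXv => hcon ⟨v, hv, hXv⟩
    obtain ⟨z', h2, h3, h4⟩ := h.1 z h1
    refine ⟨z', h2, h3, fun w hw h5 => ?_⟩
    obtain ⟨v, hv, h6⟩ := h4 w hw
    exact h5 v hv h6

/-- `z` off `i` and `w` at `i`. -/
lemma QD3_mix (z w : Cnd I Ω) (i : I) (h : z ≤ w) :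
    ∃ v, z ≤ v ∧ v.f i = w.f i ∧ ∀ j, j ≠ i → v.f j = z.f j := by
  refine ⟨z.upd i (w.f i) (w.fin_at i) (w.con i), fun j => ?_, Cnd.upd_self,
    fun j hj => Cnd.upd_ne hj⟩
  by_cases hj : j = i
  · subst hj
    rw [Cnd.upd_self]
    exact h j
  · rw [Cnd.upd_ne hj]
    exact LeAt.refl _

lemma QD3_le {z w v : Cnd I Ω} {i : I} (h1 : v.f i = w.f i) (h2 : ∀ j, j ≠ i → v.f j = z.f j)
    (h : z ≤ w) : v ≤ w := by
  intro j
  by_cases hj : j = i
  · subst hj
    rw [h1]
    exact LeAt.refl _
  · rw [h2 j hj]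
    exact h j

lemma QD3_leq {z v u q : Cnd I Ω} {i : I} (h2 : ∀ j, j ≠ i → v.f j = z.f j) (h : z ≤ q)
    (hq : i ∉ q.supp) (hu : u ≤ v) : u ≤ q := by
  intro j
  by_cases hj : j = i
  · subst hj
    have h3 : ∀ x, q.f j x = none := by
      intro x
      by_contra hcon
      exact hq ⟨x, hcon⟩
    exact ⟨fun x b hb => by rw [h3] at hb; exact absurd hb (by simp),
      fun a t m _ hb => by rw [h3] at hb; exact absurd hb (by simp)⟩
  · have h3 := hu j
    rw [h2 j hj] at h3
    exact h3.trans (h j)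

/-- Unions. -/
theorem Ph.un {β : Ordinal.{0}} {i : I} {X : ℕ → Cnd I Ω → Prop} {q : ℕ → Cnd I Ω}
    (hX : ∀ n, Mn (X n)) (hq : ∀ n, i ∉ Cnd.supp (q n))
    (h : ∀ n, ∃ γ < β, Ph γ i (X n)) : Ph β i (fun z => ∃ n, z ≤ q n ∧ X n z) := by
  refine ⟨fun z hz => ?_, fun z hz => ?_⟩
  · obtain ⟨z1, h1, n, h2, h3⟩ := hz z le_rfl
    obtain ⟨γ, hγ, hP⟩ := h n
    obtain ⟨z', h4, ⟨z2, h5, h6⟩, h7⟩ := hP.1 z1 (Fo.of (hX n) h3)
    obtain ⟨v, h8, h9, h10⟩ := QD3_mix z2 z' i h6
    refine ⟨v, fun a t b hb => ?_, ⟨z2, h5.trans h1, h8⟩, fun w hw => ?_⟩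
    · rw [h9] at hb
      exact (h4 a t b hb).trans hγ.le
    · obtain ⟨w', h11, h12⟩ := h7 w (hw.trans (QD3_le h9 h10 h6))
      exact ⟨w', h11, n, QD3_leq h10 (h5.trans h2) (hq n) (h11.trans hw), h12⟩
  · obtain ⟨z', h1, h2, h3⟩ := exists_hat z i β
    refine ⟨z', h1, h2, ?_⟩
    rintro w hw ⟨n, h4, h5⟩
    obtain ⟨γ, hγ, hP⟩ := h n
    obtain ⟨z'', h6, ⟨z2, h7, h8⟩, h9⟩ := hP.1 w (Fo.of (hX n) h5)
    obtain ⟨v, h10, h11, h12⟩ := QD3_mix z2 z'' i h8
    obtain ⟨u, h13, h14⟩ := h3 v (fun a t b hb => by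
      rw [h11] at hb
      exact (h6 a t b hb).trans_lt hγ) ⟨z2, h10, h7.trans hw⟩
    obtain ⟨u', h15, h16⟩ := h9 u (h13.trans (QD3_le h11 h12 h8))
    exact hz u' (h15.trans h14) ⟨n, QD3_leq h12 (h7.trans h4) (hq n) (h15.trans h13), h16⟩

lemma hd_mn (i : I) (n : ℕ) : Mn (fun z : Cnd I Ω => Hd z i n) := fun _ _ hz h => h.mono hz

lemma gen_eq (n : Fin (0 + 1) → ℕ) (i : I) :
    (ev (.gen n) (fun _ => i) : Cnd I Ω → Prop) = fun z => Hd z i (n 0) := by
  funext z
  apply propext
  constructor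
  · intro h
    exact h 0
  · intro h k
    have : k = 0 := Fin.ext (Nat.lt_one_iff.1 k.2)
    rw [this]
    exact h

lemma genc_eq (n : Fin (0 + 1) → ℕ) (i : I) :
    (ev (.genc n) (fun _ => i) : Cnd I Ω → Prop) = fun z => ∀ w ≤ z, ¬ Hd w i (n 0) := by
  funext z
  apply propext
  constructor
  · intro h w hw hd
    apply h w hw
    intro k
    have : k = 0 := Fin.ext (Nat.lt_one_iff.1 k.2)
    rw [this]
    exact hd
  · intro h w hw hd
    exact h w hw (hd 0)

lemma co_eq (q : ℕ → Cnd I Ω) (c : ℕ → Kd I Ω 0) (i : I) :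
    (ev (.co q c) (fun _ => i) : Cnd I Ω → Prop) =
      fun z => ∀ w ≤ z, ¬ ∃ n, w ≤ q n ∧ ev (c n) (fun _ => i) w := by
  funext z
  apply propext
  constructor
  · rintro h w hw ⟨n, hn, he⟩
    exact h w hw n hn he
  · intro h w hw n hn he
    exact h w hw ⟨n, hn, he⟩

theorem ph_ev (c : Kd I Ω 0) (β : Ordinal.{0}) (hc : RkLe c β) (i : I) (hi : i ∉ c.supp) :
    Ph β i (ev c fun _ => i) := by
  induction c generalizing β with
  | gen n =>
    rw [gen_eq]
    exact Ph.base β i (n 0)
  | genc n =>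
    rw [genc_eq]
    exact Ph.not (Ph.base β i (n 0)) (hd_mn i (n 0))
  | un q c ih =>
    have hs : ∀ n, i ∉ Cnd.supp (q n) ∧ i ∉ (c n).supp := by
      intro n
      constructor
      · intro h
        exact hi (Set.mem_iUnion.2 ⟨n, Or.inl h⟩)
      · intro h
        exact hi (Set.mem_iUnion.2 ⟨n, Or.inr h⟩)
    exact Ph.un (fun n _ _ hz h => ev_mono (c n) h hz) (fun n => (hs n).1) fun n => by
      obtain ⟨γ, hγ, hr⟩ := hc n
      exact ⟨γ, hγ, ih n γ hr (hs n).2⟩
  | co q c ih =>
    have hs : ∀ n, i ∉ Cnd.supp (q n) ∧ i ∉ (c n).supp := by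
      intro n
      constructor
      · intro h
        exact hi (Set.mem_iUnion.2 ⟨n, Or.inl h⟩)
      · intro h
        exact hi (Set.mem_iUnion.2 ⟨n, Or.inr h⟩)
    rw [co_eq]
    refine Ph.not (Ph.un (fun n _ _ hz h => ev_mono (c n) h hz) (fun n => (hs n).1) fun n => ?_) ?_
    · obtain ⟨γ, hγ, hr⟩ := hc n
      exact ⟨γ, hγ, ih n γ hr (hs n).2⟩
    · rintro z z' hz ⟨n, hn, he⟩
      exact ⟨n, hz.trans hn, ev_mono (c n) he hz⟩

/-- RANK THEOREM -/
theorem rank_thm [Uncountable I] (c : Kd I Ω 0) (β : Ordinal.{0}) (hc : RkLe c β) (a : Ω)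
    (ha : β < D.ρ a []) (q : Cnd I Ω) :
    ¬ ∀ i, ∀ z ≤ q, (Fo (ev c fun _ => i) z ↔
      Fo (fun z' : Cnd I Ω => z'.f i (At.nd a []) = some true) z) := by
  classical
  intro H
  obtain ⟨i, hi⟩ : ∃ i, i ∉ c.supp ∪ q.supp := by
    by_contra hcon
    push Not at hcon
    have hcount : (Set.univ : Set I).Countable :=
      ((Kd.supp_countable c).union (Cnd.supp_finite q).countable).mono fun x _ => hcon x
    exact Set.not_countable_univ hcount
  have hic : i ∉ c.supp := fun h => hi (Or.inl h)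
  have hqi : ∀ x, q.f i x = none := by
    intro x
    by_contra hx
    exact hi (Or.inr ⟨x, hx⟩)
  -- the condition `z`
  set p : At Ω → Option Bool := fun x => if x = At.nd a [] then some true else none with hp
  have hpf : {x | p x ≠ none}.Finite := by
    refine (Set.finite_singleton (At.nd a [] : At Ω)).subset ?_
    intro x hx
    by_contra hne
    exact hx (by simp only [hp]; exact if_neg hne)
  have hpc : Lgl p := by
    intro a' t k _ hk
    have hne : (At.nd a' (k :: t) : At Ω) ≠ At.nd a [] := by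
      intro h
      have := congrArg (fun x : At Ω => Sum.elim (fun _ => ([] : List ℕ)) (fun y => y.2) x) h
      simp at this
    simp only [hp, if_neg hne] at hk
    exact absurd hk (by simp)
  set z : Cnd I Ω := q.upd i p hpf hpc with hz
  have hzi : z.f i = p := Cnd.upd_self
  have hzj : ∀ j, j ≠ i → z.f j = q.f j := fun j hj => Cnd.upd_ne hj
  have hzq : z ≤ q := by
    intro j
    by_cases hj : j = i
    · subst hj
      refine ⟨fun x b hx => ?_, fun a' t m _ hx => ?_⟩
      · rw [hqi] at hx; exact absurd hx (by simp)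
      · rw [hqi] at hx; exact absurd hx (by simp)
    · rw [hzj j hj]
      exact LeAt.refl _
  have hroot : z.f i (At.nd a []) = some true := by
    rw [hzi]; simp [hp]
  have hFo : Fo (ev c fun _ => i) z := by
    rw [H i z hzq]
    exact fun z' hz' => ⟨z', le_rfl, Cnd.le_some hz' hroot⟩
  obtain ⟨z', hrk, ⟨v, hvz, hvz'⟩, hFo'⟩ := (ph_ev c β hc i hic).1 z hFo
  have hz'root : z'.f i (At.nd a []) = none := by
    cases h : z'.f i (At.nd a []) with
    | none => rfl
    | some b => exact absurd (hrk a [] b h) (not_le.2 ha)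
  -- the condition `w`
  set r : At Ω → Option Bool := Function.update (z'.f i) (At.nd a []) (some false) with hr
  have hrf : {x | r x ≠ none}.Finite := by
    refine ((Cnd.fin_at z' i).union (Set.finite_singleton (At.nd a [] : At Ω))).subset ?_
    intro x hx
    by_cases hxa : x = At.nd a []
    · exact Or.inr hxa
    · left
      have : r x = z'.f i x := Function.update_of_ne hxa _ _
      rw [Set.mem_ofPred_eq, this] at hx
      exact hx
  have hrc : Lgl r := by
    intro a' t k h1 h2
    have h1' : z'.f i (At.nd a' t) = some true := by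
      by_cases hx : (At.nd a' t : At Ω) = At.nd a []
      · rw [hx, hr, Function.update_self] at h1
        exact absurd h1 (by simp)
      · rwa [hr, Function.update_of_ne hx] at h1
    have h2' : z'.f i (At.nd a' (k :: t)) = some true := by
      by_cases hx : (At.nd a' (k :: t) : At Ω) = At.nd a []
      · rw [hx, hr, Function.update_self] at h2
        exact absurd h2 (by simp)
      · rwa [hr, Function.update_of_ne hx] at h2
    exact z'.con i a' t k h1' h2'
  set w : Cnd I Ω := v.upd i r hrf hrc with hw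
  have hwi : w.f i = r := Cnd.upd_self
  have hwj : ∀ j, j ≠ i → w.f j = v.f j := fun j hj => Cnd.upd_ne hj
  have hwz' : w ≤ z' := by
    intro j
    by_cases hj : j = i
    · subst hj
      rw [hwi]
      refine ⟨fun x b hx => ?_, fun a' t m h0 hx hn => ?_⟩
      · have hxa : x ≠ At.nd a [] := by
          rintro rfl
          rw [hz'root] at hx
          exact absurd hx (by simp)
        rw [hr, Function.update_of_ne hxa]
        exact hx
      · have hxa : (At.x (pre (D.g a' t) m) : At Ω) ≠ At.nd a [] := by simp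
        rw [hr, Function.update_of_ne hxa, hn]
        simp
    · rw [hwj j hj]
      exact hvz' j
  have hwq : w ≤ q := by
    intro j
    by_cases hj : j = i
    · subst hj
      refine ⟨fun x b hx => ?_, fun a' t m _ hx => ?_⟩
      · rw [hqi] at hx; exact absurd hx (by simp)
      · rw [hqi] at hx; exact absurd hx (by simp)
    · rw [hwj j hj]
      exact (hvz.trans hzq) j
  have hFow : Fo (ev c fun _ => i) w := fun u hu => hFo' u (hu.trans hwz')
  rw [H i w hwq] at hFow
  obtain ⟨u, huw, hu⟩ := hFow w le_rfl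
  have hwroot : w.f i (At.nd a []) = some false := by
    rw [hwi, hr, Function.update_self]
  rw [Cnd.le_some huw hwroot] at hu
  exact absurd hu (by simp)

end Pool.PV
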