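import Pool.Agent.Lib.MP_1c8600_pv.QE
import Pool.Agent.Lib.MP_1c8600_pv.Rank
import Pool.Agent.Lib.MP_1c8600_pv.PosMod
import Pool.Agent.Lib.MP_1c8600_lv.N1

/-!
# The positive half: names
-/

set_option autoImplicit false
set_option linter.unusedSectionVars false

open Set

namespace Pool.PV

open Pool.MP_3ade05_lc Pool.PC Pool.LV Pool.MP_1c8600_lc

variable {I Ω : Type} [D : TR Ω]

/-- The forcing notion. -/
abbrev PP (I Ω : Type) : Type 1 := ULift.{1} (Cnd I Ω)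

instance : Small.{0} (PP I Ω) := inferInstance

instance : Nonempty (PP I Ω) := ⟨⟨Cnd.top⟩⟩

/-- The name of a tuple of points. -/
noncomputable def tup : (m : ℕ) → (Fin (m + 1) → I) → Name (PP I Ω)
  | 0, i => tN (i 0)
  | m + 1, i => oN (tup m (Fin.init (α := fun _ => I) i)) (tN (i (Fin.last (m + 1))))

/-- The name of the set coded by `c`. -/
noncomputable def nu {m : ℕ} (c : Kd I Ω m) : Name (PP I Ω) :=
  Name.mk (Fin (m + 1) → I) (tup m) (fun i => ⟨{p | ev c i p.down}, fun _ _ hpq h =>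
    ev_mono c h hpq⟩)

variable (I Ω) in
/-- The name of the set `E` of all points. -/
noncomputable def EN : Name (PP I Ω) := Name.mk I tN (fun _ => ⊤)

/-- The set `E`. -/
noncomputable abbrev EE (U : Set (Name (PP I Ω))) (H : Set (PP I Ω)) : ZFSet.{0} :=
  Name.val U H (EN I Ω)

/-- The set coded by `c`. -/
noncomputable abbrev vc (U : Set (Name (PP I Ω))) (H : Set (PP I Ω)) {m : ℕ} (c : Kd I Ω m) :
    ZFSet.{0} := Name.val U H (nu c)

/-- The sets `A n`. -/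
noncomputable def AA (U : Set (Name (PP I Ω))) (H : Set (PP I Ω)) (n : ℕ) : ZFSet.{0} :=
  vc U H (Kd.gen (m := 0) fun _ => n)

/-- The points of the model. -/
theorem Ev.mem_EE : Ev (P := PP I Ω) (fun U H => ∀ x, x ∈ EE U H ↔
    ∃ i : I, tN (P := PP I Ω) i ∈ U ∧ x = Name.val U H (tN i)) := by
  refine (Ev.filt (P := PP I Ω)).mono ?_
  rintro U H ⟨-, hF⟩ x
  obtain ⟨q, hq⟩ := hF.ne
  show x ∈ Name.val U H (EN I Ω) ↔ _
  rw [Name.mem_val]
  constructor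
  · rintro ⟨i, hi, -, rfl⟩
    exact ⟨i, hi, rfl⟩
  · rintro ⟨i, hi, rfl⟩
    exact ⟨i, hi, ⟨q, hq, trivial⟩, rfl⟩

theorem Ev.pt_inj : Ev (P := PP I Ω) (fun U H => ∀ i i' : I, tN (P := PP I Ω) i ∈ U →
    tN (P := PP I Ω) i' ∈ U →
      Name.val U H (tN (P := PP I Ω) i) = Name.val U H (tN i') → i = i') := by
  refine (Ev.base (P := PP I Ω)).mono ?_
  intro U H hB i i' hi hi' h
  have h1 := (val_ordN_inj hB hi hi').1 h
  exact (Ordinal.typein (α := I) WellOrderingRel).injective h1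

theorem Ev.tup_mem : Ev (P := PP I Ω) (fun U _ => ∀ m (i : Fin (m + 1) → I),
    tup (Ω := Ω) m i ∈ U ↔ ∀ k, tN (P := PP I Ω) (i k) ∈ U) := by
  refine ((Ev.base (P := PP I Ω)).and Ev.parts).mono ?_
  rintro U H ⟨hB, hp⟩ m
  induction m with
  | zero =>
    intro i
    constructor
    · intro h k
      have hk : k = 0 := Subsingleton.elim (α := Fin 1) k 0
      rw [hk]
      exact h
    · intro h
      exact h 0
  | succ m ih =>
    intro i
    constructor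
    · intro h k
      obtain ⟨h1, h2⟩ := hp _ _ h
      have h3 := (ih (Fin.init (α := fun _ => I) i)).1 h1
      refine Fin.lastCases ?_ (fun l => ?_) k
      · exact h2
      · exact h3 l
    · intro h
      exact oN_mem hB ((ih (Fin.init (α := fun _ => I) i)).2 fun k => h k.castSucc)
        (h (Fin.last (m + 1)))

theorem Ev.tup_inj : Ev (P := PP I Ω) (fun U H => ∀ m (i i' : Fin (m + 1) → I),
    tup (Ω := Ω) m i ∈ U → tup (Ω := Ω) m i' ∈ U →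
      Name.val U H (tup (Ω := Ω) m i) = Name.val U H (tup m i') → i = i') := by
  refine ((Ev.base (P := PP I Ω)).and (Ev.parts.and Ev.pt_inj)).mono ?_
  rintro U H ⟨hB, hp, hinj⟩ m
  induction m with
  | zero =>
    intro i i' hi hi' h
    have h1 := hinj _ _ hi hi' h
    funext k
    have hk : k = 0 := Subsingleton.elim (α := Fin 1) k 0
    rw [hk]
    exact h1
  | succ m ih =>
    intro i i' hi hi' h
    obtain ⟨h1, h2⟩ := hp _ _ hi
    obtain ⟨h1', h2'⟩ := hp _ _ hi'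
    have h3 : ZFSet.pair (Name.val U H (tup m (Fin.init (α := fun _ => I) i)))
        (Name.val U H (tN (P := PP I Ω) (i (Fin.last (m + 1))))) =
        ZFSet.pair (Name.val U H (tup m (Fin.init (α := fun _ => I) i')))
        (Name.val U H (tN (P := PP I Ω) (i' (Fin.last (m + 1))))) := by
      rw [← val_oN hB h1 h2, ← val_oN hB h1' h2']
      exact h
    obtain ⟨e1, e2⟩ := ZFSet.pair_injective h3
    have e3 := ih _ _ h1 h1' e1
    have e4 := hinj _ _ h2 h2' e2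
    funext k
    refine Fin.lastCases ?_ (fun l => ?_) k
    · exact e4
    · exact congrFun e3 l

/-- Elements of the powers of `E`. -/
theorem Ev.mem_pw : Ev (P := PP I Ω) (fun U H => ∀ m x, x ∈ pw (EE U H) m ↔
    ∃ i : Fin (m + 1) → I, tup (Ω := Ω) m i ∈ U ∧ x = Name.val U H (tup m i)) := by
  refine ((Ev.base.and Pool.PV.Ev.mem_EE).and Ev.parts).mono fun U H h m => ?_
  obtain ⟨⟨hB, hE⟩, hparts⟩ := h
  induction m with
  | zero =>
    intro x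
    change x ∈ EE U H ↔ _
    rw [hE]
    constructor
    · rintro ⟨i, hi, hx⟩
      exact ⟨fun _ => i, hi, hx⟩
    · rintro ⟨i, hi, hx⟩
      exact ⟨i 0, hi, hx⟩
  | succ m ih =>
    intro x
    change x ∈ (pw (EE U H) m).prod (EE U H) ↔ _
    rw [ZFSet.mem_prod]
    constructor
    · rintro ⟨a, ha, b, hb, rfl⟩
      obtain ⟨i, hi, rfl⟩ := (ih a).1 ha
      obtain ⟨j, hj, rfl⟩ := (hE b).1 hb
      refine ⟨Fin.snoc (α := fun _ => I) i j, ?_, ?_⟩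
      · change oN (tup m (Fin.init (α := fun _ => I) (Fin.snoc (α := fun _ => I) i j)))
          (tN (Fin.snoc (α := fun _ => I) i j (Fin.last (m + 1)))) ∈ U
        rw [Fin.init_snoc, Fin.snoc_last]
        exact oN_mem hB hi hj
      · change _ = Name.val U H (oN (tup m (Fin.init (α := fun _ => I)
          (Fin.snoc (α := fun _ => I) i j))) (tN (Fin.snoc (α := fun _ => I) i j
            (Fin.last (m + 1)))))
        rw [Fin.init_snoc, Fin.snoc_last, val_oN hB hi hj]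
    · rintro ⟨i, hi, rfl⟩
      obtain ⟨h1, h2⟩ := hparts _ _ hi
      exact ⟨_, (ih _).2 ⟨_, h1, rfl⟩, _, (hE _).2 ⟨_, h2, rfl⟩, val_oN hB h1 h2⟩

/-- TRUTH for codes. -/
theorem Ev.vc_mem : Ev (P := PP I Ω) (fun U H => ∀ m (c : Kd I Ω m) (i : Fin (m + 1) → I),
    tup (Ω := Ω) m i ∈ U → (Name.val U H (tup (Ω := Ω) m i) ∈ vc U H c ↔
      ∃ p ∈ H, ev c i p.down)) := by
  refine Pool.PV.Ev.tup_inj.mono fun U H h m c i hi => ?_
  unfold vc nu
  rw [Name.mem_val]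
  constructor
  · rintro ⟨i', hi', ⟨p, hp, hpc⟩, he⟩
    obtain rfl := h m i i' hi hi' he
    exact ⟨p, hp, hpc⟩
  · rintro ⟨p, hp, hpc⟩
    exact ⟨i, hi, ⟨p, hp, hpc⟩, rfl⟩

theorem Ev.vc_sub : Ev (P := PP I Ω) (fun U H => ∀ m (c : Kd I Ω m),
    vc U H c ⊆ pw (EE U H) m) := by
  refine Pool.PV.Ev.mem_pw.mono fun U H h m c x hx => ?_
  unfold vc nu at hx
  rw [Name.mem_val] at hx
  obtain ⟨i, hi, _, he⟩ := hx
  exact (h m x).2 ⟨i, hi, he⟩

/-- Genericity for codes. -/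
theorem Ev.vc_dense : Ev (P := PP I Ω) (fun U H => ∀ m (c : Kd I Ω m) (i : Fin (m + 1) → I),
    tN (P := PP I Ω) c ∈ U → tup (Ω := Ω) m i ∈ U →
      ((∃ p ∈ H, ev c i p.down) ∨ ∃ p ∈ H, ∀ z ≤ p.down, ¬ ev c i z)) := by
  refine ((Ev.tup_mem (I := I) (Ω := Ω)).and (Ev.all fun m : ℕ => Ev.genT (P := PP I Ω)
    (T := Kd I Ω m) (T' := Unit) (m + 1)
    (fun c v q _ => ∃ i : Fin (m + 1) → I, (∀ k, v k = tN (i k)) ∧ ev c i q.down))).mono ?_
  rintro U H ⟨htm, hg⟩ m c i hc hi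
  rcases hg m c hc (fun k => tN (i k)) ((htm m i).1 hi) with
    ⟨q, hq, -, -, i', h1, h2⟩ | ⟨p, hp, hn⟩
  · left
    have h3 : i = i' := funext fun k => tN_injective (h1 k)
    subst h3
    exact ⟨q, hq, h2⟩
  · right
    refine ⟨p, hp, fun z hz he => hn ⟨z⟩ hz () ⟨i, fun _ => rfl, he⟩⟩

/-- Codes which are forced to be equal have equal values. -/
theorem Ev.vc_congr : Ev (P := PP I Ω) (fun U H => ∀ m (c c' : Kd I Ω m),
    tN (P := PP I Ω) c ∈ U → tN (P := PP I Ω) c' ∈ U →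
      (∃ p ∈ H, ∀ i, ∀ z ≤ p.down, (Fo (ev c i) z ↔ Fo (ev c' i) z)) → vc U H c = vc U H c') := by
  refine (((Ev.filt (P := PP I Ω)).and (Ev.mem_pw (I := I) (Ω := Ω))).and
    ((Ev.vc_mem (I := I) (Ω := Ω)).and
      ((Ev.vc_sub (I := I) (Ω := Ω)).and (Ev.vc_dense (I := I) (Ω := Ω))))).mono ?_
  rintro U H ⟨⟨⟨-, hF⟩, hpw⟩, hmem, hsub, hdense⟩ m
  have key : ∀ c c' : Kd I Ω m, tN (P := PP I Ω) c' ∈ U →
      (∃ p ∈ H, ∀ i, ∀ z ≤ p.down, (Fo (ev c i) z ↔ Fo (ev c' i) z)) →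
        vc U H c ⊆ vc U H c' := by
    intro c c' hc' ⟨p, hp, h⟩ x hx
    obtain ⟨i, hi, rfl⟩ := (hpw m x).1 (hsub m c hx)
    obtain ⟨q, hq, he⟩ := (hmem m c i hi).1 hx
    rcases hdense m c' i hc' hi with h1 | ⟨p', hp', h1⟩
    · exact (hmem m c' i hi).2 h1
    · exfalso
      obtain ⟨r, hr, hr1, hr2⟩ := hF.dir q hq p hp
      obtain ⟨s, -, hs1, hs2⟩ := hF.dir r hr p' hp'
      have h2 : Fo (ev c i) s.down :=
        Fo.of (fun z z' hz hx => ev_mono c hx hz) (ev_mono c he (le_trans hs1 hr1))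
      have h3 := (h i s.down (le_trans hs1 hr2)).1 h2
      obtain ⟨z, hz, he'⟩ := h3 s.down le_rfl
      exact h1 z (le_trans hz hs2) he'
  intro c c' hc hc' ⟨p, hp, h⟩
  exact le_antisymm (key c c' hc' ⟨p, hp, h⟩) (key c' c hc ⟨p, hp, fun i z hz => (h i z hz).symm⟩)

/-- The converse. -/
theorem Ev.vc_eq : Ev (P := PP I Ω) (fun U H => ∀ m (c c' : Kd I Ω m),
    tN (P := PP I Ω) c ∈ U → tN (P := PP I Ω) c' ∈ U → vc U H c = vc U H c' →
      ∃ p ∈ H, ∀ i, ∀ z ≤ p.down, (Fo (ev c i) z ↔ Fo (ev c' i) z)) := by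
  have hgen := Ev.all fun m : ℕ => Ev.genT (P := PP I Ω)
    (T := Kd I Ω m × Kd I Ω m) (T' := Fin (m + 1) → I) 0
    (fun c _ q i => (ev c.1 i q.down ∧ ∀ z ≤ q.down, ¬ ev c.2 i z) ∨
      (ev c.2 i q.down ∧ ∀ z ≤ q.down, ¬ ev c.1 i z))
  have hpair := Ev.all fun m : ℕ => Ev.pairT (P := PP I Ω) (Kd I Ω m) (Kd I Ω m)
  have hop := Ev.all fun m : ℕ => Ev.opN (P := PP I Ω) (T := Fin (m + 1) → I) (tup (Ω := Ω) m)
  refine (((Ev.filt (P := PP I Ω)).and (Ev.vc_mem (I := I) (Ω := Ω))).and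
    (hgen.and (hpair.and hop))).mono ?_
  rintro U H ⟨⟨⟨-, hF⟩, hmem⟩, hg, hp, ho⟩ m c c' hc hc' hcc
  have key : ∀ d d' : Kd I Ω m, vc U H d = vc U H d' → ∀ (q : PP I Ω), q ∈ H →
      ∀ i, tup (Ω := Ω) m i ∈ U → ev d i q.down → (∀ z ≤ q.down, ¬ ev d' i z) → False := by
    intro d d' hd q hq i hi h1 h2
    have h3 := (hmem m d i hi).2 ⟨q, hq, h1⟩
    rw [hd] at h3
    obtain ⟨q', hq', h4⟩ := (hmem m d' i hi).1 h3
    obtain ⟨r, -, hr1, hr2⟩ := hF.dir q hq q' hq'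
    exact h2 r.down hr1 (ev_mono d' h4 hr2)
  rcases hg m (c, c') (hp m c c' hc hc') Fin.elim0 (fun i => i.elim0) with
    ⟨q, hq, i, hi, h1⟩ | ⟨p, hpH, hn⟩
  · exfalso
    rcases h1 with ⟨h1, h2⟩ | ⟨h1, h2⟩
    · exact key c c' hcc q hq i (ho m i hi) h1 h2
    · exact key c' c hcc.symm q hq i (ho m i hi) h1 h2
  · refine ⟨p, hpH, fun i z hz => ⟨fun h z' hz' => ?_, fun h z' hz' => ?_⟩⟩
    · obtain ⟨w, hw, h1⟩ := h z' hz'
      by_contra hno
      push Not at hno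
      exact hn ⟨w⟩ ((hw.trans hz').trans hz) i
        (Or.inl ⟨h1, fun v hv => hno v (hv.trans hw)⟩)
    · obtain ⟨w, hw, h1⟩ := h z' hz'
      by_contra hno
      push Not at hno
      exact hn ⟨w⟩ ((hw.trans hz').trans hz) i
        (Or.inr ⟨h1, fun v hv => hno v (hv.trans hw)⟩)

/-- The `n`-th code. -/
def QE4_c {m : ℕ} (n : ℕ) : Kd I Ω m → Kd I Ω m
  | .gen k => .gen k
  | .genc k => .genc k
  | .un _ c => c n
  | .co _ c => c n

/-- The `n`-th condition. -/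
def QE4_q {m : ℕ} (n : ℕ) : Kd I Ω m → Cnd I Ω
  | .gen _ => Cnd.top
  | .genc _ => Cnd.top
  | .un q _ => q n
  | .co q _ => q n

/-- Codes in the hull. -/
theorem Ev.kd_parts : Ev (P := PP I Ω) (fun U _ => ∀ m (q : ℕ → Cnd I Ω) (c : ℕ → Kd I Ω m),
    (tN (P := PP I Ω) (Kd.un q c) ∈ U ∨ tN (P := PP I Ω) (Kd.co q c) ∈ U) →
      ∀ n, tN (P := PP I Ω) (c n) ∈ U ∧ tN (P := PP I Ω) (q n) ∈ U ∧
        tN (P := PP I Ω) (Kd.un (fun _ => q n) (fun _ => c n)) ∈ U) := by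
  have h : ∀ m n : ℕ, Ev (P := PP I Ω) (fun U _ =>
      (∀ t : Kd I Ω m, tN (P := PP I Ω) t ∈ U → tN (P := PP I Ω) (QE4_c n t) ∈ U) ∧
      (∀ t : Kd I Ω m, tN (P := PP I Ω) t ∈ U → tN (P := PP I Ω) (QE4_q n t) ∈ U) ∧
      (∀ t : Kd I Ω m, tN (P := PP I Ω) t ∈ U →
        tN (P := PP I Ω) (Kd.un (fun _ => QE4_q n t) (fun _ => QE4_c n t)) ∈ U)) := by
    intro m n
    exact (Ev.opT _).and ((Ev.opT _).and (Ev.opT _))
  refine (Pool.PC.Ev.all fun m => Pool.PC.Ev.all fun n => h m n).mono fun U H hU m q c hc n => ?_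
  obtain ⟨h1, h2, h3⟩ := hU m n
  rcases hc with hc | hc
  · exact ⟨h1 _ hc, h2 _ hc, h3 _ hc⟩
  · exact ⟨h1 _ hc, h2 _ hc, h3 _ hc⟩

/-- The name of a sequence of coded sets. -/
noncomputable def QE4_s {m : ℕ} (c : ℕ → Kd I Ω m) : Name (PP I Ω) :=
  Name.mk ℕ (fun n => PC.oN (ordN (PP I Ω) ((n : ℕ) : Ordinal.{0})) (nu (c n))) (fun _ => ⊤)

/-- Sequences of coded sets belong to the model. -/
theorem Ev.seq_vc : Ev (P := PP I Ω) (fun U H => ∀ m (c : ℕ → Kd I Ω m),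
    tN (P := PP I Ω) c ∈ U → SeqIn (MM U H) (fun n => vc U H (c n))) := by
  have h1 : ∀ m : ℕ, Ev (P := PP I Ω) (fun U _ =>
      ∀ c : ℕ → Kd I Ω m, tN (P := PP I Ω) c ∈ U → QE4_s c ∈ U) := fun m => Ev.opN _
  have h2 : ∀ m n : ℕ, Ev (P := PP I Ω) (fun U _ =>
      ∀ c : ℕ → Kd I Ω m, tN (P := PP I Ω) c ∈ U → nu (c n) ∈ U) := fun m n => Ev.opN _
  refine (Ev.base.and ((Pool.PC.Ev.all h1).and (Pool.PC.Ev.all fun m => Pool.PC.Ev.all fun n =>
    h2 m n))).mono fun U H h m c hc => ?_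
  obtain ⟨hB, h1, h2⟩ := h
  obtain ⟨q, hq⟩ := hB.filt.ne
  have hval : ∀ n : ℕ, Name.val U H (PC.oN (ordN (PP I Ω) (n : Ordinal.{0})) (nu (c n))) =
      ZFSet.pair (num n) (vc U H (c n)) := by
    intro n
    rw [val_oN hB (hB.nat n) (h2 m n c hc), val_ordN_nat hB]
  refine ⟨Name.val U H (QE4_s c), ⟨QE4_s c, mem_univ _, h1 m c hc, rfl⟩, fun z => ?_⟩
  rw [Name.mem_val]
  constructor
  · rintro ⟨k, _, _, rfl⟩
    exact ⟨k, hval k⟩
  · rintro ⟨k, rfl⟩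
    exact ⟨k, oN_mem hB (hB.nat k) (h2 m k c hc), ⟨q, hq, trivial⟩, (hval k).symm⟩

/-- The facts about the points and codes which are used below. -/
structure QE5_Hyp (U : Set (Name (PP I Ω))) (H : Set (PP I Ω)) : Prop where
  base : Base U H
  pw : ∀ m x, x ∈ pw (EE U H) m ↔
    ∃ i : Fin (m + 1) → I, tup (Ω := Ω) m i ∈ U ∧ x = Name.val U H (tup m i)
  tm : ∀ m (i : Fin (m + 1) → I), tup (Ω := Ω) m i ∈ U ↔ ∀ k, tN (P := PP I Ω) (i k) ∈ U
  vm : ∀ m (c : Kd I Ω m) (i : Fin (m + 1) → I), tup (Ω := Ω) m i ∈ U →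
    (Name.val U H (tup (Ω := Ω) m i) ∈ vc U H c ↔ ∃ p ∈ H, ev c i p.down)
  vs : ∀ m (c : Kd I Ω m), vc U H c ⊆ MP_1c8600_lc.pw (EE U H) m

lemma QE5_hyp : Ev (P := PP I Ω) (fun U H => QE5_Hyp (I := I) (Ω := Ω) U H) := by
  refine ((Ev.base.and Ev.mem_pw).and (Ev.tup_mem.and (Ev.vc_mem.and Ev.vc_sub))).mono
    fun U H h => ?_
  exact ⟨h.1.1, h.1.2, h.2.1, h.2.2.1, h.2.2.2⟩

section QE5

variable {U : Set (Name (PP I Ω))} {H : Set (PP I Ω)} (h : QE5_Hyp (I := I) (Ω := Ω) U H)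
include h

/-- Two conditions in the filter have a common extension in the filter. -/
lemma QE5_dir {p q : PP I Ω} (hp : p ∈ H) (hq : q ∈ H) :
    ∃ r ∈ H, r.down ≤ p.down ∧ r.down ≤ q.down := by
  obtain ⟨r, hr, h1, h2⟩ := h.base.filt.dir p hp q hq
  exact ⟨r, hr, h1, h2⟩

/-- Two sets of tuples are equal if they contain the same named tuples. -/
lemma QE5_ext {m : ℕ} {X Y : ZFSet.{0}} (hX : X ⊆ MP_1c8600_lc.pw (EE U H) m)
    (hY : Y ⊆ MP_1c8600_lc.pw (EE U H) m)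
    (hXY : ∀ i : Fin (m + 1) → I, tup (Ω := Ω) m i ∈ U →
      (Name.val U H (tup (Ω := Ω) m i) ∈ X ↔ Name.val U H (tup (Ω := Ω) m i) ∈ Y)) :
    X = Y := by
  ext x
  constructor
  · intro hx
    obtain ⟨i, hi, rfl⟩ := (h.pw m x).1 (hX hx)
    exact (hXY i hi).1 hx
  · intro hx
    obtain ⟨i, hi, rfl⟩ := (h.pw m x).1 (hY hx)
    exact (hXY i hi).2 hx

lemma QE5_tup_succ {m : ℕ} {i : Fin (m + 2) → I} (hi : tup (Ω := Ω) (m + 1) i ∈ U) :
    tup (Ω := Ω) m (Fin.init (α := fun _ => I) i) ∈ U ∧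
    tup (Ω := Ω) 0 (fun _ => i (Fin.last (m + 1))) ∈ U ∧
    Name.val U H (tup (Ω := Ω) (m + 1) i) =
      ZFSet.pair (Name.val U H (tup (Ω := Ω) m (Fin.init (α := fun _ => I) i)))
        (Name.val U H (tup (Ω := Ω) 0 (fun _ => i (Fin.last (m + 1))))) := by
  have h1 := (h.tm _ _).1 hi
  have h2 : tup (Ω := Ω) m (Fin.init (α := fun _ => I) i) ∈ U :=
    (h.tm _ _).2 fun k => h1 k.castSucc
  have h3 : tup (Ω := Ω) 0 (fun _ => i (Fin.last (m + 1))) ∈ U :=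
    (h.tm _ _).2 fun _ => h1 (Fin.last (m + 1))
  refine ⟨h2, h3, ?_⟩
  have h4 : tup (Ω := Ω) (m + 1) i = oN (tup (Ω := Ω) m (Fin.init (α := fun _ => I) i))
    (tup (Ω := Ω) 0 (fun _ => i (Fin.last (m + 1)))) := rfl
  rw [h4]
  exact val_oN h.base h2 h3

lemma QE5_prod_sub {m : ℕ} {X Y : ZFSet.{0}} (hX : X ⊆ MP_1c8600_lc.pw (EE U H) m)
    (hY : Y ⊆ EE U H) : X.prod Y ⊆ MP_1c8600_lc.pw (EE U H) (m + 1) := by
  intro x hx
  obtain ⟨a, ha, b, hb, rfl⟩ := ZFSet.mem_prod.1 hx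
  exact ZFSet.pair_mem_prod.2 ⟨hX ha, hY hb⟩

end QE5

theorem Ev.vc_gen : Ev (P := PP I Ω) (fun U H => ∀ m (n : ℕ → ℕ),
    vc U H (Kd.gen (I := I) (Ω := Ω) (m := m) fun k => n k) = rectZ (AA U H) m n) := by
  refine QE5_hyp.mono fun U H h m n => ?_
  have hsub : ∀ n, AA U H n ⊆ EE U H := fun n => h.vs 0 _
  have hr : ∀ m, rectZ (AA U H) m n ⊆ MP_1c8600_lc.pw (EE U H) m := by
    intro m
    induction m with
    | zero => exact hsub (n 0)
    | succ m ih => exact QE5_prod_sub h ih (hsub _)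
  induction m with
  | zero =>
    have h1 : (fun k : Fin (0 + 1) => n k) = fun _ => n 0 := by
      funext k
      rw [Fin.eq_zero k]
      rfl
    rw [h1]
    rfl
  | succ m ih =>
    refine QE5_ext h (h.vs _ _) (hr _) fun i hi => ?_
    obtain ⟨h1, h2, h3⟩ := QE5_tup_succ h hi
    rw [h.vm _ _ _ hi]
    change _ ↔ _ ∈ (rectZ (AA U H) m n).prod (AA U H (n (m + 1)))
    rw [h3, ZFSet.pair_mem_prod, ← ih]
    change _ ↔ _ ∧ _ ∈ vc U H (Kd.gen (I := I) (Ω := Ω) (m := 0) fun _ => n (m + 1))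
    rw [h.vm _ _ _ h1, h.vm _ _ _ h2]
    constructor
    · rintro ⟨p, hp, he⟩
      exact ⟨⟨p, hp, fun k => he k.castSucc⟩, p, hp, fun _ => he (Fin.last (m + 1))⟩
    · rintro ⟨⟨p, hp, he⟩, q, hq, he'⟩
      obtain ⟨r, hr, h4, h5⟩ := QE5_dir h hp hq
      refine ⟨r, hr, fun k => ?_⟩
      refine Fin.lastCases ?_ (fun k => ?_) k
      · exact Hd.mono (he' 0) h5
      · exact Hd.mono (he k) h4

theorem Ev.vc_genc : Ev (P := PP I Ω) (fun U H => ∀ m (n : Fin (m + 1) → ℕ),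
    vc U H (Kd.genc (I := I) (Ω := Ω) n) = pw (EE U H) m \ vc U H (Kd.gen n)) := by
  have hs : Ev (P := PP I Ω) (fun U _ => ∀ m (n : Fin (m + 1) → ℕ),
      tN (P := PP I Ω) (Kd.gen (I := I) (Ω := Ω) n) ∈ U) :=
    Ev.all fun m => Ev.all fun n => Ev.seed _
  refine ((QE5_hyp.and Ev.vc_dense).and hs).mono ?_
  rintro U H ⟨⟨h, hd⟩, hs⟩ m n
  refine QE5_ext h (h.vs _ _) (fun x hx => (ZFSet.mem_sdiff.1 hx).1) fun i hi => ?_
  rw [ZFSet.mem_sdiff, h.vm _ _ _ hi, h.vm _ _ _ hi]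
  constructor
  · rintro ⟨p, hp, he⟩
    refine ⟨(h.pw _ _).2 ⟨i, hi, rfl⟩, ?_⟩
    rintro ⟨q, hq, he'⟩
    obtain ⟨r, hr, h4, h5⟩ := QE5_dir h hp hq
    exact he r.down h4 (ev_mono (Kd.gen n) he' h5)
  · rintro ⟨-, hn⟩
    rcases hd m (Kd.gen n) i (hs m n) hi with h1 | ⟨p, hp, h1⟩
    · exact absurd h1 hn
    · exact ⟨p, hp, h1⟩

open Classical in
theorem Ev.vc_un : Ev (P := PP I Ω) (fun U H => ∀ m (q : ℕ → Cnd I Ω) (c : ℕ → Kd I Ω m),
    vc U H (Kd.un q c) = uni (fun n => vc U H (Kd.un (fun _ => q n) (fun _ => c n))) ∧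
      ∀ n, vc U H (Kd.un (fun _ => q n) (fun _ => c n)) =
        if (⟨q n⟩ : PP I Ω) ∈ H then vc U H (c n) else ∅) := by
  refine QE5_hyp.mono fun U H h m q c => ⟨?_, fun n => ?_⟩
  · have hu : uni (fun n => vc U H (Kd.un (fun _ => q n) (fun _ => c n))) ⊆
        MP_1c8600_lc.pw (EE U H) m := by
      intro x hx
      obtain ⟨y, hy, hxy⟩ := ZFSet.mem_sUnion.1 hx
      obtain ⟨n, rfl⟩ := ZFSet.mem_range.1 hy
      exact h.vs _ _ hxy
    refine QE5_ext h (h.vs _ _) hu fun i hi => ?_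
    rw [h.vm _ _ _ hi]
    unfold uni
    rw [ZFSet.mem_sUnion]
    constructor
    · rintro ⟨p, hp, n, hn, he⟩
      exact ⟨_, ZFSet.mem_range.2 ⟨n, rfl⟩, (h.vm _ _ _ hi).2 ⟨p, hp, 0, hn, he⟩⟩
    · rintro ⟨y, hy, hxy⟩
      obtain ⟨n, rfl⟩ := ZFSet.mem_range.1 hy
      obtain ⟨p, hp, _n, hn, he⟩ := (h.vm _ _ _ hi).1 hxy
      exact ⟨p, hp, n, hn, he⟩
  · by_cases hq : (⟨q n⟩ : PP I Ω) ∈ H
    · rw [if_pos hq]
      refine QE5_ext h (h.vs _ _) (h.vs _ _) fun i hi => ?_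
      rw [h.vm _ _ _ hi, h.vm _ _ _ hi]
      constructor
      · rintro ⟨p, hp, _n, _hn, he⟩
        exact ⟨p, hp, he⟩
      · rintro ⟨p, hp, he⟩
        obtain ⟨r, hr, h4, h5⟩ := QE5_dir h hp hq
        exact ⟨r, hr, 0, h5, ev_mono _ he h4⟩
    · rw [if_neg hq]
      refine QE5_ext h (h.vs _ _) (fun x hx => absurd hx (ZFSet.notMem_empty x)) fun i hi => ?_
      rw [h.vm _ _ _ hi]
      constructor
      · rintro ⟨p, hp, _n, hn, he⟩
        exact absurd (h.base.filt.up p hp ⟨q n⟩ hn) hq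
      · intro hx
        exact absurd hx (ZFSet.notMem_empty _)

/-- Union instead of complement of the union. -/
def QE5_un {m : ℕ} : Kd I Ω m → Kd I Ω m
  | .gen n => .gen n
  | .genc n => .genc n
  | .un q c => .un q c
  | .co q c => .un q c

theorem Ev.vc_co : Ev (P := PP I Ω) (fun U H => ∀ m (q : ℕ → Cnd I Ω) (c : ℕ → Kd I Ω m),
    tN (P := PP I Ω) (Kd.co q c) ∈ U →
      vc U H (Kd.co q c) = pw (EE U H) m \ vc U H (Kd.un q c)) := by
  have hs : Ev (P := PP I Ω) (fun U _ => ∀ m (c : Kd I Ω m), tN (P := PP I Ω) c ∈ U →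
      tN (P := PP I Ω) (QE5_un c) ∈ U) :=
    Ev.all fun m => Ev.opT (P := PP I Ω) (QE5_un (I := I) (Ω := Ω) (m := m))
  refine ((QE5_hyp.and Ev.vc_dense).and hs).mono ?_
  rintro U H ⟨⟨h, hd⟩, hs⟩ m q c hc
  refine QE5_ext h (h.vs _ _) (fun x hx => (ZFSet.mem_sdiff.1 hx).1) fun i hi => ?_
  rw [ZFSet.mem_sdiff, h.vm _ _ _ hi, h.vm _ _ _ hi]
  constructor
  · rintro ⟨p, hp, he⟩
    refine ⟨(h.pw _ _).2 ⟨i, hi, rfl⟩, ?_⟩
    rintro ⟨p', hp', n, hn, he'⟩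
    obtain ⟨r, hr, h4, h5⟩ := QE5_dir h hp hp'
    exact he r.down h4 n (h5.trans hn) (ev_mono _ he' h5)
  · rintro ⟨-, hn⟩
    rcases hd m (Kd.un q c) i (hs m (Kd.co q c) hc) hi with h1 | ⟨p, hp, h1⟩
    · exact absurd h1 hn
    · exact ⟨p, hp, fun z hz n hzn he => h1 z hz ⟨n, hzn, he⟩⟩

theorem Ev.vc_cyl : Ev (P := PP I Ω) (fun U H => ∀ m (c : Kd I Ω m),
    vc U H c.cyl = (vc U H c).prod (EE U H)) := by
  refine QE5_hyp.mono fun U H h m c => ?_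
  refine QE5_ext h (h.vs _ _) (QE5_prod_sub h (h.vs _ _) fun x hx => hx) fun i hi => ?_
  obtain ⟨h1, h2, h3⟩ := QE5_tup_succ h hi
  rw [h.vm _ _ _ hi, h3, ZFSet.pair_mem_prod, h.vm _ _ _ h1]
  constructor
  · rintro ⟨p, hp, he⟩
    exact ⟨⟨p, hp, (ev_cyl c i p.down).1 he⟩, (h.pw 0 _).2 ⟨_, h2, rfl⟩⟩
  · rintro ⟨⟨p, hp, he⟩, -⟩
    exact ⟨p, hp, (ev_cyl c i p.down).2 he⟩

/-- The sequence of the parts of a code. -/
def QE6_seq {m : ℕ} : Kd I Ω m → ℕ → Kd I Ω m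
  | .gen n => fun _ => .gen n
  | .genc n => fun _ => .genc n
  | .un q c => fun n => .un (fun _ => q n) (fun _ => c n)
  | .co q c => fun n => .un (fun _ => q n) (fun _ => c n)

lemma QE6_AA_zero : Ev (P := PP I Ω) (fun U H => AA U H 0 = EE U H) := by
  refine QE5_hyp.mono fun U H h => ?_
  refine QE5_ext (m := 0) h (h.vs _ _) (fun x hx => hx) fun i hi => ?_
  change _ ∈ vc U H (Kd.gen (I := I) (Ω := Ω) (m := 0) fun _ => 0) ↔ _
  rw [h.vm _ _ _ hi]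
  constructor
  · rintro -
    exact (h.pw 0 _).2 ⟨i, hi, rfl⟩
  · intro _
    obtain ⟨p, hp⟩ := h.base.filt.ne
    exact ⟨p, hp, fun _ => trivial⟩

/-- Coded sets are Borel. -/
theorem Ev.borel_vc : Ev (P := PP I Ω) (fun U H => ∀ m (c : Kd I Ω m),
    tN (P := PP I Ω) c ∈ U → BorelV (MM U H) (EE U H) (AA U H) m (vc U H c)) := by
  classical
  have hs : Ev (P := PP I Ω) (fun U _ => ∀ m (c : Kd I Ω m), tN (P := PP I Ω) c ∈ U →
      tN (P := PP I Ω) (QE6_seq c) ∈ U) :=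
    Ev.all fun m => Ev.opT (P := PP I Ω) (QE6_seq (I := I) (Ω := Ω) (m := m))
  refine (((Ev.vc_gen.and Ev.vc_genc).and (Ev.vc_un.and Ev.vc_co)).and
    ((Ev.kd_parts.and Ev.seq_vc).and (hs.and QE6_AA_zero))).mono ?_
  rintro U H ⟨⟨⟨hg, hgc⟩, hu, hco⟩, ⟨hkp, hsq⟩, hs, h0⟩ m c
  have hgen : ∀ n : Fin (m + 1) → ℕ, BorelV (MM U H) (EE U H) (AA U H) m
      (vc U H (Kd.gen (I := I) (Ω := Ω) n)) := by
    intro n
    have h1 : (fun k : Fin (m + 1) => (fun k : ℕ => if hk : k < m + 1 then n ⟨k, hk⟩ else 0)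
        (k : ℕ)) = n := by
      funext k
      simp [k.2]
    have h2 := hg m (fun k : ℕ => if hk : k < m + 1 then n ⟨k, hk⟩ else 0)
    rw [h1] at h2
    rw [h2]
    exact BorelV.rect _
  have hempty : BorelV (MM U H) (EE U H) (AA U H) m ∅ := by
    have h1 : ∀ m, rectZ (AA U H) m (fun _ => 0) = MP_1c8600_lc.pw (EE U H) m := by
      intro m
      induction m with
      | zero => exact h0
      | succ m ih =>
        change (rectZ (AA U H) m fun _ => 0).prod (AA U H 0) =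
          (MP_1c8600_lc.pw (EE U H) m).prod (EE U H)
        rw [ih, h0]
    have h2 := BorelV.compl _ (BorelV.rect (V := MM U H) (E := EE U H) (A := AA U H) (m := m)
      (fun _ => 0))
    rw [h1] at h2
    have h3 : MP_1c8600_lc.pw (EE U H) m \ MP_1c8600_lc.pw (EE U H) m = ∅ := by
      rw [ZFSet.eq_empty]
      intro y hy
      exact (ZFSet.mem_sdiff.1 hy).2 (ZFSet.mem_sdiff.1 hy).1
    rwa [h3] at h2
  have hun : ∀ (q : ℕ → Cnd I Ω) (c : ℕ → Kd I Ω m),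
      (tN (P := PP I Ω) (Kd.un q c) ∈ U ∨ tN (P := PP I Ω) (Kd.co q c) ∈ U) →
      (∀ n, tN (P := PP I Ω) (c n) ∈ U → BorelV (MM U H) (EE U H) (AA U H) m (vc U H (c n))) →
      BorelV (MM U H) (EE U H) (AA U H) m (vc U H (Kd.un q c)) := by
    intro q c hc ih
    rw [(hu m q c).1]
    refine BorelV.union _ (hsq m (fun n => Kd.un (fun _ => q n) (fun _ => c n)) ?_) fun n => ?_
    · rcases hc with hc | hc
      · exact hs m _ hc
      · exact hs m _ hc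
    · rw [(hu m q c).2 n]
      split_ifs with hq
      · exact ih n (hkp m q c hc n).1
      · exact hempty
  induction c with
  | gen n => exact fun _ => hgen n
  | genc n =>
    intro _
    rw [hgc m n]
    exact BorelV.compl _ (hgen n)
  | un q c ih => exact fun hc => hun q c (Or.inl hc) ih
  | co q c ih =>
    intro hc
    rw [hco m q c hc]
    exact BorelV.compl _ (hun q c (Or.inr hc) ih)

theorem Ev.EE_mem : Ev (P := PP I Ω) (fun U H => EE U H ∈ MM U H ∧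
    SeqIn (MM U H) (AA U H) ∧ AA U H 0 = EE U H ∧ ∀ n, AA U H n ⊆ EE U H) := by
  refine (((Ev.op (P := PP I Ω) (n := 0) (fun _ => EN I Ω)).and Ev.seq_vc).and
    ((Ev.seed (P := PP I Ω) (fun n : ℕ => Kd.gen (I := I) (Ω := Ω) (m := 0) fun _ => n)).and
      (QE5_hyp.and QE6_AA_zero))).mono ?_
  rintro U H ⟨⟨h1, h2⟩, h3, h4, h5⟩
  exact ⟨⟨EN I Ω, mem_univ _, h1 Fin.elim0 (fun k => k.elim0), rfl⟩, h2 0 _ h3, h5,
    fun n => h4.vs 0 _⟩

end Pool.PV
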