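import Pool.Agent.Lib.MP_1c8600_pv.M1

/-!
# The positive half: Borel sets of the model are coded
-/

set_option autoImplicit false
set_option linter.unusedSectionVars false

open Set

namespace Pool.PV

open Pool.MP_3ade05_lc Pool.PC Pool.LV Pool.MP_1c8600_lc

variable {I Ω : Type} [D : TR Ω]

/-- The condition forces that the `n`-th set of the sequence `σ` is coded by `c`. -/
def QF1_F {m : ℕ} (σ : Name (PP I Ω)) (n : ℕ) (c : Kd I Ω m) (z : PP I Ω) : Prop :=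
  Name.fmem (oN (ordN (PP I Ω) (n : ℕ)) (nu c)) σ z

/-- `(q, c)` is a mixed code. -/
def QF1_G {m : ℕ} (W : Set (Kd I Ω m)) (σ : Name (PP I Ω)) (z : PP I Ω)
    (t : (ℕ → Cnd I Ω) × (ℕ → Kd I Ω m)) : Prop :=
  (∀ k, t.2 k ∈ W ∧ (⟨t.1 k⟩ : PP I Ω) ≤ z ∧ QF1_F σ (Nat.unpair k).1 (t.2 k) ⟨t.1 k⟩) ∧
    ∀ n, ∀ z' ≤ z, ∃ k, (Nat.unpair k).1 = n ∧ ∃ w : PP I Ω, w ≤ z' ∧ w ≤ ⟨t.1 k⟩

lemma QF1_exists (j : I → ℕ → Bool) (hj : Function.Injective j) {m : ℕ} (W : Set (Kd I Ω m))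
    (σ : Name (PP I Ω)) (z : PP I Ω) (h : ∀ n, ∀ z' ≤ z, ∃ z'' ≤ z', ∃ c ∈ W, QF1_F σ n c z'') :
    ∃ t, QF1_G W σ z t := by
  have h1 : ∀ n, ∃ w : ℕ → Cnd I Ω, (∀ k, w k ∈ {y : Cnd I Ω | (⟨y⟩ : PP I Ω) ≤ z ∧
      ∃ c ∈ W, QF1_F σ n c ⟨y⟩}) ∧ ∀ y ∈ {y : Cnd I Ω | (⟨y⟩ : PP I Ω) ≤ z ∧
      ∃ c ∈ W, QF1_F σ n c ⟨y⟩}, ∃ k v, v ≤ y ∧ v ≤ w k := by
    intro n
    refine Cnd.exists_pred j hj _ ?_
    obtain ⟨z'', hz'', c, hc, hF⟩ := h n z le_rfl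
    exact ⟨z''.down, hz'', c, hc, hF⟩
  choose w hw1 hw2 using h1
  have h2 : ∀ k, ∃ c ∈ W, QF1_F σ (Nat.unpair k).1 c
      ⟨w (Nat.unpair k).1 (Nat.unpair k).2⟩ := fun k =>
    (hw1 (Nat.unpair k).1 (Nat.unpair k).2).2
  choose c hc1 hc2 using h2
  refine ⟨(fun k => w (Nat.unpair k).1 (Nat.unpair k).2, c), fun k => ⟨hc1 k,
    (hw1 (Nat.unpair k).1 (Nat.unpair k).2).1, hc2 k⟩, fun n z' hz' => ?_⟩
  obtain ⟨z'', hz'', c', hc', hF⟩ := h n z' hz'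
  obtain ⟨l, v, hv1, hv2⟩ := hw2 n z''.down ⟨hz''.trans hz', c', hc', hF⟩
  refine ⟨Nat.pair n l, by rw [Nat.unpair_pair], ⟨v⟩, le_trans (show (⟨v⟩ : PP I Ω) ≤ z'' from hv1)
    hz'', ?_⟩
  show v ≤ w (Nat.unpair (Nat.pair n l)).1 (Nat.unpair (Nat.pair n l)).2
  rw [Nat.unpair_pair]
  exact hv2

lemma QF1_pair {U : Set (Name (PP I Ω))} {H : Set (PP I Ω)} (hB : Base U H) {n n' : ℕ}
    {x y : ZFSet.{0}} (h : ZFSet.pair (num n) x = ZFSet.pair (num n') y) : n = n' ∧ x = y := by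
  obtain ⟨h1, h2⟩ := ZFSet.pair_injective h
  exact ⟨num_injective hB h1, h2⟩

/-- MIXING -/
theorem Ev.mix (j : I → ℕ → Bool) (hj : Function.Injective j) :
    Ev (P := PP I Ω) (fun U H => ∀ m (W : Set (Kd I Ω m)), tN (P := PP I Ω) W ∈ U →
      ∀ S : ℕ → ZFSet.{0}, SeqIn (MM U H) S →
        (∀ n, ∃ c ∈ W, tN (P := PP I Ω) c ∈ U ∧ S n = vc U H c) →
          ∃ q c, tN (P := PP I Ω) (Kd.un q c) ∈ U ∧ (∀ n, c n ∈ W) ∧
            uni S = vc U H (Kd.un q c)) := by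
  have hA : Ev (P := PP I Ω) (fun U H => ∀ m : ℕ, ∀ W : Set (Kd I Ω m), tN W ∈ U →
      ∀ v : Fin 1 → Name (PP I Ω), (∀ i, v i ∈ U) →
      (∃ q ∈ H, ∃ t' : ℕ, tN t' ∈ U ∧ ∀ z' ≤ q, ∀ c ∈ W, ¬ QF1_F (v 0) t' c z') ∨
        (∃ p ∈ H, ∀ q ≤ p, ∀ t' : ℕ, ¬ ∀ z' ≤ q, ∀ c ∈ W, ¬ QF1_F (v 0) t' c z')) :=
    Ev.all fun m => Ev.genT 1 (fun W v q t' => ∀ z' ≤ q, ∀ c ∈ W, ¬ QF1_F (v 0) t' c z')
  have hG : Ev (P := PP I Ω) (fun U H => ∀ m : ℕ, ∀ W : Set (Kd I Ω m), tN W ∈ U →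
      ∀ v : Fin 1 → Name (PP I Ω), (∀ i, v i ∈ U) →
      (∃ q ∈ H, ∃ t' : (ℕ → Cnd I Ω) × (ℕ → Kd I Ω m), tN t' ∈ U ∧ QF1_G W (v 0) q t') ∨
        (∃ p ∈ H, ∀ q ≤ p, ∀ t', ¬ QF1_G W (v 0) q t')) :=
    Ev.all fun m => Ev.genT 1 (fun W v q t' => QF1_G W (v 0) q t')
  have hP : Ev (P := PP I Ω) (fun U H => ∀ m : ℕ, ∀ n : ℕ,
      ∀ t : (ℕ → Cnd I Ω) × (ℕ → Kd I Ω m), tN t ∈ U →
      ∀ v : Fin 0 → Name (PP I Ω), (∀ i, v i ∈ U) →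
      (∃ q ∈ H, ∃ k : ℕ, tN k ∈ U ∧ ((Nat.unpair k).1 = n ∧ q ≤ ⟨t.1 k⟩)) ∨
        (∃ p ∈ H, ∀ q ≤ p, ∀ k : ℕ, ¬ ((Nat.unpair k).1 = n ∧ q ≤ ⟨t.1 k⟩))) :=
    Ev.all fun m => Ev.all fun n => Ev.genT (P := PP I Ω)
      (T := (ℕ → Cnd I Ω) × (ℕ → Kd I Ω m)) (T' := ℕ) 0
      (fun t _ q k => (Nat.unpair k).1 = n ∧ q ≤ ⟨t.1 k⟩)
  have hun : Ev (P := PP I Ω) (fun U _ => ∀ m : ℕ, ∀ t : (ℕ → Cnd I Ω) × (ℕ → Kd I Ω m),
      tN t ∈ U → tN (Kd.un t.1 t.2) ∈ U) := Ev.all fun m => Ev.opT _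
  have hc : Ev (P := PP I Ω) (fun U _ => ∀ m : ℕ, ∀ k : ℕ,
      ∀ t : (ℕ → Cnd I Ω) × (ℕ → Kd I Ω m), tN t ∈ U → tN (t.2 k) ∈ U) :=
    Ev.all fun m => Ev.all fun k => Ev.opT _
  have hnu : Ev (P := PP I Ω) (fun U _ => ∀ m : ℕ, ∀ c : Kd I Ω m, tN c ∈ U → nu c ∈ U) :=
    Ev.all fun m => Ev.opN _
  refine ((Ev.base.and hA).and ((hG.and hP).and (hun.and (hc.and hnu)))).mono ?_
  rintro U H ⟨⟨hB, hA⟩, ⟨hG, hP⟩, hun, hc, hnu⟩ m W hW S ⟨s, ⟨σ, -, hσU, rfl⟩, hs⟩ hS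
  have hv : ∀ i, (![σ] : Fin 1 → Name (PP I Ω)) i ∈ U := by
    intro i
    fin_cases i
    exact hσU
  -- truth
  have htr : ∀ n (c : Kd I Ω m), tN (P := PP I Ω) c ∈ U →
      ((∃ p ∈ H, QF1_F σ n c p) ↔ S n = vc U H c) := by
    intro n c hcU
    have h1 := Name.val_mem_iff hB.full.at' (oN_mem hB (hB.nat n) (hnu m c hcU)) hσU
    rw [val_oN hB (hB.nat n) (hnu m c hcU), val_ordN_nat hB] at h1
    rw [show (∃ p ∈ H, QF1_F σ n c p) ↔ ZFSet.pair (num n) (vc U H c) ∈ Name.val U H σ from h1.symm,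
      hs]
    constructor
    · rintro ⟨n', h2⟩
      obtain ⟨rfl, h3⟩ := QF1_pair hB h2
      exact h3.symm
    · intro h2
      exact ⟨n, by rw [h2]⟩
  have hp0 : ∃ p ∈ H, ∀ n, ∀ q ≤ p, ∃ z' ≤ q, ∃ c ∈ W, QF1_F σ n c z' := by
    rcases hA m W hW ![σ] hv with ⟨q, hq, n, -, hn⟩ | ⟨p, hp, hn⟩
    · exfalso
      obtain ⟨c, hcW, hcU, hSn⟩ := hS n
      obtain ⟨p, hp, hF⟩ := (htr n c hcU).2 hSn
      obtain ⟨r, -, h1, h2⟩ := hB.filt.dir q hq p hp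
      exact hn r h1 c hcW (Name.fmem_mono hF h2)
    · refine ⟨p, hp, fun n q hq => ?_⟩
      have h1 := hn q hq n
      push Not at h1
      exact h1
  obtain ⟨p₀, hp₀, hbad⟩ := hp0
  obtain ⟨z, hz, t, htU, hgood⟩ : ∃ q ∈ H, ∃ t' : (ℕ → Cnd I Ω) × (ℕ → Kd I Ω m),
      tN t' ∈ U ∧ QF1_G W σ q t' := by
    rcases hG m W hW ![σ] hv with h1 | ⟨p, hp, hn⟩
    · exact h1
    · exfalso
      obtain ⟨r, -, h1, h2⟩ := hB.filt.dir p hp p₀ hp₀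
      obtain ⟨t, ht⟩ := QF1_exists j hj W σ r (fun n z' hz' => hbad n z' (hz'.trans h2))
      exact hn r h1 t ht
  refine ⟨t.1, t.2, hun m t htU, fun n => (hgood.1 n).1, ?_⟩
  ext x
  unfold uni
  rw [ZFSet.mem_sUnion]
  constructor
  · rintro ⟨y, hy, hx⟩
    obtain ⟨n, rfl⟩ := ZFSet.mem_range.1 hy
    obtain ⟨k, rfl, hk⟩ : ∃ k, (Nat.unpair k).1 = n ∧ (⟨t.1 k⟩ : PP I Ω) ∈ H := by
      rcases hP m n t htU Fin.elim0 (fun i => i.elim0) with ⟨q, hq, k, -, h1, h2⟩ | ⟨p, hp, hn⟩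
      · exact ⟨k, h1, hB.filt.up q hq _ h2⟩
      · exfalso
        obtain ⟨r, -, h1, h2⟩ := hB.filt.dir p hp z hz
        obtain ⟨k, hk, w, hw1, hw2⟩ := hgood.2 n r h2
        exact hn w (hw1.trans h1) k ⟨hk, hw2⟩
    have h1 : S (Nat.unpair k).1 = vc U H (t.2 k) :=
      (htr _ _ (hc m k t htU)).1 ⟨_, hk, (hgood.1 k).2.2⟩
    rw [h1] at hx
    obtain ⟨i, hi, ⟨p, hp, hev⟩, rfl⟩ := Name.mem_val.1 hx
    obtain ⟨r, hr, h2, h3⟩ := hB.filt.dir p hp _ hk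
    exact Name.mem_val.2 ⟨i, hi, ⟨r, hr, ⟨k, h3, ev_mono _ hev h2⟩⟩, rfl⟩
  · intro hx
    obtain ⟨i, hi, ⟨p, hp, ⟨k, h1, h2⟩⟩, rfl⟩ := Name.mem_val.1 hx
    have hk : (⟨t.1 k⟩ : PP I Ω) ∈ H := hB.filt.up p hp _ h1
    have h3 : S (Nat.unpair k).1 = vc U H (t.2 k) :=
      (htr _ _ (hc m k t htU)).1 ⟨_, hk, (hgood.1 k).2.2⟩
    refine ⟨S (Nat.unpair k).1, ZFSet.mem_range.2 ⟨_, rfl⟩, ?_⟩
    rw [h3]
    exact Name.mem_val.2 ⟨i, hi, ⟨p, hp, h2⟩, rfl⟩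

theorem Ev.vc_neg : Ev (P := PP I Ω) (fun U H => ∀ m (c : Kd I Ω m),
    tN (P := PP I Ω) c ∈ U → tN (P := PP I Ω) c.neg ∈ U ∧
      vc U H c.neg = pw (EE U H) m \ vc U H c) := by
  have h1 : Ev (P := PP I Ω) (fun U _ => ∀ m (c : Kd I Ω m),
      tN (P := PP I Ω) c ∈ U → tN (P := PP I Ω) c.neg ∈ U) :=
    Ev.all fun m => Ev.opT (Kd.neg (I := I) (Ω := Ω) (m := m))
  refine ((Ev.base.and h1).and (Ev.vc_co.and Ev.vc_un)).mono fun U H h m c hc => ?_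
  obtain ⟨⟨hB, h1⟩, h2, h3⟩ := h
  refine ⟨h1 m c hc, ?_⟩
  have htop : (⟨Cnd.top⟩ : PP I Ω) ∈ H := by
    obtain ⟨q, hq⟩ := hB.filt.ne
    exact hB.filt.up q hq _ (Cnd.le_top q.down)
  have e1 := h2 m (fun _ => Cnd.top) (fun _ => c) (h1 m c hc)
  have e3 := (h3 m (fun _ => Cnd.top) (fun _ => c)).2 0
  rw [if_pos htop] at e3
  have e4 : vc U H (Kd.un (fun _ => Cnd.top) fun _ => c) = vc U H c := by
    rw [e3]
  show vc U H (Kd.co (fun _ => Cnd.top) (fun _ => c)) = _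
  rw [e1, e4]

/-- Borel sets are coded. -/
theorem Ev.code_of_borel (j : I → ℕ → Bool) (hj : Function.Injective j) :
    Ev (P := PP I Ω) (fun U H => ∀ m S, BorelV (MM U H) (EE U H) (AA U H) m S →
      ∃ c : Kd I Ω m, tN (P := PP I Ω) c ∈ U ∧ S = vc U H c) := by
  have h1 : Ev (P := PP I Ω) (fun U _ => ∀ m (n : Fin (m + 1) → ℕ),
      tN (P := PP I Ω) (Kd.gen (I := I) (Ω := Ω) (m := m) n) ∈ U) :=
    Ev.all fun m => Ev.all fun n => Ev.seed _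
  have h2 : Ev (P := PP I Ω) (fun U _ => ∀ m,
      tN (P := PP I Ω) (univ : Set (Kd I Ω m)) ∈ U) :=
    Ev.all fun m => Ev.seed _
  refine ((h1.and h2).and ((Ev.vc_neg (I := I) (Ω := Ω)).and
    ((Ev.mix j hj).and Ev.vc_gen))).mono fun U H h m S hS => ?_
  obtain ⟨⟨h1, h2⟩, h3, h4, h5⟩ := h
  induction hS with
  | rect n => exact ⟨Kd.gen fun k => n k, h1 m _, (h5 m n).symm⟩
  | compl S _ ih =>
    obtain ⟨c, hc, rfl⟩ := ih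
    exact ⟨c.neg, (h3 m c hc).1, (h3 m c hc).2.symm⟩
  | union S hS _ ih =>
    obtain ⟨q, c, hqc, _, e⟩ := h4 m univ (h2 m) S hS fun n => by
      obtain ⟨c, hc, e⟩ := ih n
      exact ⟨c, mem_univ _, hc, e⟩
    exact ⟨_, hqc, e⟩

/-- The set of the codes of class less than `β`. -/
def WW (I : Type) {Ω : Type} [TR Ω] (β : Ordinal.{0}) : Set (Kd I Ω 0) :=
  {c | ∃ γ < β, RkLe c γ}

/-- The complement code. -/
def unco {m : ℕ} : Kd I Ω m → Kd I Ω m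
  | .gen n => .gen n
  | .genc n => .genc n
  | .un q c => .co q c
  | .co q c => .un q c

/-- Sets of the class `β` are coded by codes of the class `β`. -/
theorem Ev.code_of_class (j : I → ℕ → Bool) (hj : Function.Injective j) :
    Ev (P := PP I Ω) (fun U H => ∀ (β : Ordinal.{0}) S, ordN (PP I Ω) β ∈ U →
      ClassV (MM U H) (EE U H) (AA U H) (Name.val U H (ordN (PP I Ω) β)) S →
        ∃ c : Kd I Ω 0, tN (P := PP I Ω) c ∈ U ∧ RkLe c β ∧ S = vc U H c) := by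
  have h1 : Ev (P := PP I Ω) (fun U _ => ∀ n : ℕ,
      tN (P := PP I Ω) (Kd.gen (I := I) (Ω := Ω) (m := 0) fun _ => n) ∈ U) :=
    Pool.PC.Ev.all fun n => Pool.LV.Ev.seed _
  have h2 : Ev (P := PP I Ω) (fun U _ => ∀ n : ℕ,
      tN (P := PP I Ω) (Kd.genc (I := I) (Ω := Ω) (m := 0) fun _ => n) ∈ U) :=
    Pool.PC.Ev.all fun n => Pool.LV.Ev.seed _
  have h3 : Ev (P := PP I Ω) (fun U _ => ∀ α β : Ordinal.{0}, ordN (PP I Ω) α ∈ U →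
      ordN (PP I Ω) β ∈ U → tN (P := PP I Ω) (WW I (Ω := Ω) α) ∈ U) :=
    Pool.PC.Ev.nm2 (fun α _ => tN (P := PP I Ω) (WW I (Ω := Ω) α))
  have h4 : Ev (P := PP I Ω) (fun U _ => ∀ c : Kd I Ω 0, tN (P := PP I Ω) c ∈ U →
      tN (P := PP I Ω) (unco c) ∈ U) := Pool.LV.Ev.opT _
  refine (((Ev.base.and (Ev.mix j hj)).and ((Ev.vc_genc).and (Ev.vc_co))).and
    ((h1.and h2).and (h3.and h4))).mono fun U H h => ?_
  obtain ⟨⟨⟨hB, hmix⟩, hgc, hco⟩, ⟨hg, hg'⟩, hW, hun⟩ := h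
  intro β S hβ hS
  generalize ha : Name.val U H (ordN (PP I Ω) β) = a at hS
  induction hS generalizing β with
  | gen n => exact ⟨Kd.gen fun _ => n, hg n, trivial, rfl⟩
  | gen_compl n =>
    refine ⟨Kd.genc fun _ => n, hg' n, trivial, ?_⟩
    rw [hgc 0 (fun _ => n)]
    rfl
  | union a S b hS hb h ih =>
    subst ha
    have hb' : ∀ n, ∃ γ < β, ordN (PP I Ω) γ ∈ U ∧ b n = Name.val U H (ordN (PP I Ω) γ) :=
      fun n => (mem_val_ordN hB).1 (hb n)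
    have hc : ∀ n, ∃ c ∈ WW I (Ω := Ω) β, tN (P := PP I Ω) c ∈ U ∧ S n = vc U H c := by
      intro n
      obtain ⟨γ, hγ, hγU, e⟩ := hb' n
      obtain ⟨c, h1, h2, h3⟩ := ih n γ hγU e.symm
      exact ⟨c, ⟨γ, hγ, h2⟩, h1, h3⟩
    obtain ⟨q, c, h1, h2, h3⟩ := hmix 0 (WW I β) (hW β β hβ hβ) S hS hc
    exact ⟨Kd.un q c, h1, h2, h3⟩
  | union_compl a S b hS hb h ih =>
    subst ha
    have hb' : ∀ n, ∃ γ < β, ordN (PP I Ω) γ ∈ U ∧ b n = Name.val U H (ordN (PP I Ω) γ) :=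
      fun n => (mem_val_ordN hB).1 (hb n)
    have hc : ∀ n, ∃ c ∈ WW I (Ω := Ω) β, tN (P := PP I Ω) c ∈ U ∧ S n = vc U H c := by
      intro n
      obtain ⟨γ, hγ, hγU, e⟩ := hb' n
      obtain ⟨c, h1, h2, h3⟩ := ih n γ hγU e.symm
      exact ⟨c, ⟨γ, hγ, h2⟩, h1, h3⟩
    obtain ⟨q, c, h1, h2, h3⟩ := hmix 0 (WW I β) (hW β β hβ hβ) S hS hc
    refine ⟨Kd.co q c, hun _ h1, h2, ?_⟩
    rw [hco 0 q c (hun _ h1), ← h3]
    rfl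

/-- The relation used for genericity. -/
def RR {m : ℕ} (c : Kd I Ω (m + 1)) (v : Fin (m + 1) → Name (PP I Ω)) (q : PP I Ω) (l : I) :
    Prop :=
  ∃ i : Fin (m + 1) → I, (v = fun k => tN (i k)) ∧
    ev c (Fin.snoc (α := fun _ => I) i l) q.down

/-- Projections of coded sets are coded. -/
theorem Ev.proj_vc [Uncountable I] (j : I → ℕ → Bool) (hj : Function.Injective j) :
    Ev (P := PP I Ω) (fun U H => ∀ m (c : Kd I Ω (m + 1)), tN (P := PP I Ω) c ∈ U →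
      ∃ b : Kd I Ω m, tN (P := PP I Ω) b ∈ U ∧
        projZ (pw (EE U H) m) (EE U H) (vc U H c) = vc U H b) := by
  have h1 : Ev (P := PP I Ω) (fun U _ => ∀ (m : ℕ) (c : Kd I Ω (m + 1)),
      tN (P := PP I Ω) c ∈ U →
      tN (P := PP I Ω) (exists_proj (Ω := Ω) j hj (m := m) c).choose ∈ U) :=
    Pool.PC.Ev.all fun m => Pool.LV.Ev.opT _
  have h2 : Ev (P := PP I Ω) (fun U H => ∀ (m : ℕ) (c : Kd I Ω (m + 1)),
      tN (P := PP I Ω) c ∈ U → ∀ v : Fin (m + 1) → Name (PP I Ω), (∀ i, v i ∈ U) →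
      (∃ q ∈ H, ∃ l : I, tN (P := PP I Ω) l ∈ U ∧ RR c v q l) ∨
        (∃ p ∈ H, ∀ q ≤ p, ∀ l, ¬ RR c v q l)) :=
    Pool.PC.Ev.all fun m => Pool.LV.Ev.genT (m + 1) (RR (m := m))
  refine (((Ev.base.and h1).and (h2.and Ev.mem_EE)).and
    ((Ev.tup_mem.and Ev.mem_pw).and (Ev.vc_mem.and (Ev.vc_sub.and Ev.vc_dense)))).mono
    fun U H h => ?_
  obtain ⟨⟨⟨hB, hop⟩, hgen, hEE⟩, ⟨htup, hpw⟩, hmem, hsub, hdense⟩ := h
  intro m c hc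
  have hbU := hop m c hc
  have hb := (exists_proj (Ω := Ω) j hj (m := m) c).choose_spec
  generalize (exists_proj (Ω := Ω) j hj (m := m) c).choose = b at hbU hb
  refine ⟨b, hbU, ?_⟩
  -- pairs
  have hpair : ∀ (i : Fin (m + 1) → I) (l : I), tup (Ω := Ω) m i ∈ U → tN (P := PP I Ω) l ∈ U →
      tup (Ω := Ω) (m + 1) (Fin.snoc (α := fun _ => I) i l) ∈ U ∧
      Name.val U H (tup (Ω := Ω) (m + 1) (Fin.snoc (α := fun _ => I) i l)) =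
        ZFSet.pair (Name.val U H (tup (Ω := Ω) m i)) (Name.val U H (tN (P := PP I Ω) l)) := by
    intro i l hi hl
    have e : tup (Ω := Ω) (m + 1) (Fin.snoc (α := fun _ => I) i l) =
        oN (tup (Ω := Ω) m i) (tN (P := PP I Ω) l) := by
      show oN (tup m (Fin.init (α := fun _ => I) (Fin.snoc (α := fun _ => I) i l)))
        (tN ((Fin.snoc (α := fun _ => I) i l : Fin (m + 2) → I) (Fin.last (m + 1)))) = _
      rw [Fin.init_snoc (α := fun _ => I), Fin.snoc_last (α := fun _ => I)]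
    rw [e]
    exact ⟨oN_mem hB hi hl, val_oN hB hi hl⟩
  ext x
  constructor
  · intro hx
    unfold projZ at hx
    rw [ZFSet.mem_sep] at hx
    obtain ⟨hx1, y, hy, hxy⟩ := hx
    obtain ⟨i, hi, rfl⟩ := (hpw m x).1 hx1
    obtain ⟨l, hl, rfl⟩ := (hEE y).1 hy
    obtain ⟨h1, h2⟩ := hpair i l hi hl
    rw [← h2] at hxy
    obtain ⟨p, hp, hev⟩ := (hmem (m + 1) c _ h1).1 hxy
    refine (hmem m b i hi).2 ?_
    rcases hdense m b i hbU hi with h3 | ⟨p', hp', hn⟩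
    · exact h3
    · exfalso
      obtain ⟨p'', hp'', hle, hle'⟩ := hB.filt.dir p hp p' hp'
      have h4 : Fo (fun z' => ∃ l : I, ev c (Fin.snoc (α := fun _ => I) i l) z') p''.down := by
        intro z' hz'
        exact ⟨z', le_rfl, l, ev_mono c hev (hz'.trans hle)⟩
      obtain ⟨z, hz, hz2⟩ := (hb i p''.down).2 h4 p''.down le_rfl
      exact hn z (hz.trans hle') hz2
  · intro hx
    have hx1 := hsub m b hx
    obtain ⟨i, hi, rfl⟩ := (hpw m x).1 hx1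
    unfold projZ
    rw [ZFSet.mem_sep]
    refine ⟨hx1, ?_⟩
    obtain ⟨p, hp, hev⟩ := (hmem m b i hi).1 hx
    have h3 : Fo (ev b i) p.down := fun z' hz' => ⟨z', le_rfl, ev_mono b hev hz'⟩
    have h4 := (hb i p.down).1 h3
    rcases hgen m c hc (fun k => tN (i k)) ((htup m i).1 hi) with
      ⟨q, hq, l, hl, i', hi', hev'⟩ | ⟨p', hp', hn⟩
    · have e : i' = i := by
        funext k
        exact (tN_injective (congrFun hi' k)).symm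
      subst e
      obtain ⟨h5, h6⟩ := hpair i' l hi hl
      refine ⟨Name.val U H (tN (P := PP I Ω) l), (hEE _).2 ⟨l, hl, rfl⟩, ?_⟩
      rw [← h6]
      exact (hmem (m + 1) c _ h5).2 ⟨q, hq, hev'⟩
    · exfalso
      obtain ⟨p'', hp'', hle, hle'⟩ := hB.filt.dir p hp p' hp'
      obtain ⟨z, hz, l, hz2⟩ := h4 p''.down hle
      exact hn ⟨z⟩ (show (⟨z⟩ : PP I Ω).down ≤ p'.down from hz.trans hle') l ⟨i, rfl, hz2⟩

theorem QF2_uni_const (x : ZFSet.{0}) : uni (fun _ => x) = x := by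
  ext y
  unfold uni
  rw [ZFSet.mem_sUnion]
  constructor
  · rintro ⟨z, hz, hy⟩
    rw [ZFSet.mem_range] at hz
    obtain ⟨_, rfl⟩ := hz
    exact hy
  · intro hy
    exact ⟨x, ZFSet.mem_range.2 ⟨0, rfl⟩, hy⟩

/-- Sets of the projective classes are coded. -/
theorem Ev.code_of_sigma [Uncountable I] (j : I → ℕ → Bool) (hj : Function.Injective j) :
    Ev (P := PP I Ω) (fun U H => ∀ k m S, SigmaV (MM U H) (EE U H) (AA U H) k m S →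
      ∃ c : Kd I Ω m, tN (P := PP I Ω) c ∈ U ∧ S = vc U H c) := by
  refine ((Pool.PV.Ev.code_of_borel j hj).and ((Pool.PV.Ev.proj_vc j hj).and
    Pool.PV.Ev.vc_neg)).mono ?_
  rintro U H ⟨h1, h2, h3⟩ k
  induction k with
  | zero =>
    rintro m S ⟨B, hB, rfl⟩
    obtain ⟨c, hc, rfl⟩ := h1 (m + 1) B hB
    obtain ⟨b, hb, e⟩ := h2 m c hc
    exact ⟨b, hb, e⟩
  | succ k ih =>
    rintro m S ⟨T, hT, rfl⟩
    obtain ⟨c, hc, rfl⟩ := ih (m + 1) T hT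
    obtain ⟨h4, h5⟩ := h3 (m + 1) c hc
    obtain ⟨b, hb, e⟩ := h2 m c.neg h4
    exact ⟨b, hb, by rw [← h5, e]⟩

lemma QF5_proj {X E A : ZFSet.{0}} (hA : A ⊆ X) (hE : ∃ e, e ∈ E) :
    projZ X E (A.prod E) = A := by
  unfold projZ
  ext x
  rw [ZFSet.mem_sep]
  constructor
  · rintro ⟨-, y, hy, h⟩
    exact (ZFSet.pair_mem_prod.1 h).1
  · intro hx
    obtain ⟨e, he⟩ := hE
    exact ⟨hA hx, e, he, ZFSet.pair_mem_prod.2 ⟨hx, he⟩⟩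

/-- Coded sets are in all projective classes. -/
theorem Ev.sigma_of_code [Uncountable I] : Ev (P := PP I Ω) (fun U H => ∀ k m (c : Kd I Ω m),
    tN (P := PP I Ω) c ∈ U → SigmaV (MM U H) (EE U H) (AA U H) k m (vc U H c)) := by
  obtain ⟨i₀⟩ : Nonempty I := inferInstance
  have hcyl : Ev (P := PP I Ω) (fun U _ => ∀ m : ℕ, ∀ c : Kd I Ω m, tN c ∈ U → tN c.cyl ∈ U) :=
    Ev.all fun m => Ev.opT _
  refine ((hcyl.and (Ev.seed i₀)).and ((Pool.PV.Ev.borel_vc.and Pool.PV.Ev.vc_cyl).and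
    ((Pool.PV.Ev.vc_neg.and Pool.PV.Ev.vc_sub).and Pool.PV.Ev.mem_EE))).mono ?_
  rintro U H ⟨⟨hcyl, hi₀⟩, ⟨hb, hc⟩, ⟨hn, hs⟩, hE⟩ k
  have hne : ∃ e, e ∈ EE (I := I) (Ω := Ω) U H := ⟨_, (hE _).2 ⟨i₀, hi₀, rfl⟩⟩
  induction k with
  | zero =>
    intro m c hcU
    refine ⟨vc U H c.cyl, hb (m + 1) c.cyl (hcyl m c hcU), ?_⟩
    rw [hc m c, QF5_proj (hs m c) hne]
  | succ k ih =>
    intro m c hcU
    obtain ⟨h1, h2⟩ := hn (m + 1) c.cyl (hcyl m c hcU)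
    refine ⟨vc U H c.cyl.neg, ih (m + 1) c.cyl.neg h1, ?_⟩
    have h3 : pw (EE U H) (m + 1) \ vc U H c.cyl.neg = vc U H c.cyl := by
      rw [h2]
      ext x
      rw [ZFSet.mem_sdiff, ZFSet.mem_sdiff]
      constructor
      · rintro ⟨h4, h5⟩
        by_contra h6
        exact h5 ⟨h4, h6⟩
      · intro h4
        exact ⟨hs (m + 1) c.cyl h4, fun h5 => h5.2 h4⟩
    rw [h3, hc m c, QF5_proj (hs m c) hne]

/-- Property (b). -/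
theorem Ev.propB [Uncountable I] (j : I → ℕ → Bool) (hj : Function.Injective j) :
    Ev (P := PP I Ω) (fun U H => ∀ k, PropBV (MM U H) (EE U H) (AA U H) k) := by
  refine ((Ev.code_of_sigma (I := I) (Ω := Ω) j hj).and
    ((Ev.sigma_of_code (I := I) (Ω := Ω)).and Pool.PV.Ev.vc_neg)).mono ?_
  rintro U H ⟨h1, h2, h3⟩ k S ⟨k', hS | ⟨T, hT, rfl⟩⟩
  · obtain ⟨c, hc, rfl⟩ := h1 k' 0 S hS
    exact h2 k 0 c hc
  · obtain ⟨c, hc, rfl⟩ := h1 k' 0 T hT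
    obtain ⟨h4, h5⟩ := h3 0 c hc
    have h6 : EE U H \ vc U H c = vc U H c.neg := h5.symm
    rw [h6]
    exact h2 k 0 c.neg h4

end Pool.PV
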