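import Pool.Agent.Lib.MP_1c8600_pv.M2

/-!
# The positive half: property (a), the size of `E`, the model
-/

set_option autoImplicit false
set_option linter.unusedSectionVars false

open Set Cardinal

namespace Pool.PV

open Pool.MP_3ade05_lc Pool.PC Pool.LV Pool.MP_1c8600_lc

variable {I Ω : Type} [D : TR Ω]

section ords

variable {P : Type 1} [Preorder P]

/-- The rank of a name. -/
noncomputable def QG1_rk : Name P → Ordinal.{0}
  | .mk ι A _ => ⨆ k : ι, Order.succ (QG1_rk (A k))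

lemma QG1_rk_lt (σ : Name P) (k : σ.ι) : QG1_rk (σ.A k) < QG1_rk σ := by
  cases σ with
  | mk ι A c =>
    have h1 : QG1_rk (Name.mk ι A c) = ⨆ k : ι, Order.succ (QG1_rk (A k)) := by
      rw [QG1_rk]
    have h2 : Order.succ (QG1_rk (A k)) ≤ ⨆ k : ι, Order.succ (QG1_rk (A k)) :=
      Ordinal.le_iSup (fun k : ι => Order.succ (QG1_rk (A k))) k
    rw [h1]
    exact lt_of_lt_of_le (Order.lt_succ _) h2

lemma QG1_sub {U : Set (Name P)} {H : Set P} (hB : Base U H)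
    (hr : ∀ σ ∈ U, ordN P (QG1_rk σ) ∈ U) (τ : Name P) (hτ : τ ∈ U)
    (ho : (Name.val U H τ).IsOrdinal) :
    Name.val U H τ ⊆ Name.val U H (ordN P (QG1_rk τ)) := by
  induction τ using Name.ind with
  | h τ ih =>
    intro x hx
    obtain ⟨k, hk, _, rfl⟩ := Name.mem_val.1 hx
    have h1 : (Name.val U H (τ.A k)).IsOrdinal := ho.mem hx
    have h2 := ih k hk h1
    have h3 : Name.val U H (ordN P (QG1_rk (τ.A k))) ∈ Name.val U H (ordN P (QG1_rk τ)) :=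
      (mem_val_ordN hB).2 ⟨_, QG1_rk_lt τ k, hr _ hk, rfl⟩
    exact h1.mem_of_subset_of_mem (isOrdinal_val_ordN hB _) h2 h3

/-- The ordinals of the model. -/
theorem Ev.ordinals : Ev (P := P) (fun U H => ∀ a ∈ MM U H,
    a.IsOrdinal → ∃ β : Ordinal.{0}, ordN P β ∈ U ∧ a = Name.val U H (ordN P β)) := by
  have h1 : Ev (P := P) (fun U _ => ∀ v : Fin 1 → Name P, (∀ i, v i ∈ U) →
      ordN P (QG1_rk (v 0)) ∈ U) := Pool.PC.Ev.op (n := 1) (fun v => ordN P (QG1_rk (v 0)))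
  refine ((Pool.PC.Ev.base (P := P)).and h1).mono ?_
  rintro U H ⟨hB, h2⟩ a ha ho
  have hr : ∀ σ ∈ U, ordN P (QG1_rk σ) ∈ U := fun σ hσ => h2 (fun _ => σ) (fun _ => hσ)
  obtain ⟨τ, -, hτ, rfl⟩ := ha
  have h3 := QG1_sub hB hr τ hτ ho
  rcases (ho.subset_iff_eq_or_mem (isOrdinal_val_ordN hB _)).1 h3 with h4 | h4
  · exact ⟨_, hr τ hτ, h4⟩
  · obtain ⟨β, -, hβ, e⟩ := (mem_val_ordN hB).1 h4
    exact ⟨β, hβ, e⟩

end ords

/-- Countable ordinals of the model are countable. -/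
theorem Ev.countable_ord (j : I → ℕ → Bool) (hj : Function.Injective j) :
    Ev (P := PP I Ω) (fun U H => ∀ β : Ordinal.{0}, ordN (PP I Ω) β ∈ U →
      (∃ f ∈ MM U H, FunOn f ZFSet.omega ∧ ∀ x ∈ Name.val U H (ordN (PP I Ω) β),
        ∃ n ∈ ZFSet.omega, ZFSet.pair n x ∈ f) → β < Ordinal.omega 1) := by
  obtain ⟨τ, hτ⟩ := Cnd.exists_type (Ω := Ω) j hj
  refine ((Ev.base (P := PP I Ω)).and Ev.no_surj).mono ?_
  rintro U H ⟨hB, hns⟩ β hβ ⟨f, hf, hfun, hsurj⟩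
  by_contra hlt
  rw [not_lt] at hlt
  obtain ⟨p₀, hp₀⟩ := hB.filt.ne
  have hom := val_ordN_omega hB
  obtain ⟨y, hy, hny⟩ := hns Ordinal.omega0 β hB.omega hβ ⟨p₀, hp₀, by
    intro p _ R hR huniq
    have hcount : ({b | ∃ a, ∃ q ≤ p, R q a b} : Set β.ToType).Countable := by
      have h1 : ({b | ∃ a, ∃ q ≤ p, R q a b} : Set β.ToType) =
          ⋃ a : (Ordinal.omega0.{0}).ToType, {b | ∃ q ≤ p, R q a b} := by
        ext b
        simp
      have hc : Countable (Ordinal.omega0.{0}).ToType := by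
        rw [← Cardinal.mk_le_aleph0_iff]
        simp
      rw [h1]
      refine countable_iUnion fun a => ?_
      choose! q hq using fun (b : β.ToType) (hb : b ∈ {b | ∃ q ≤ p, R q a b}) => hb
      have hinj : InjOn (fun b => τ (q b).down) {b | ∃ q ≤ p, R q a b} := by
        intro b hb b' hb' he
        obtain ⟨w, hw1, hw2⟩ := hτ _ _ he
        have e1 : (⟨w⟩ : PP I Ω) ≤ q b := hw1
        have e2 : (⟨w⟩ : PP I Ω) ≤ q b' := hw2
        exact huniq ⟨w⟩ (e1.trans (hq b hb).1) a b b' (hR _ _ _ _ e1 (hq b hb).2)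
          (hR _ _ _ _ e2 (hq b' hb').2)
      exact (mapsTo_univ _ _).countable_of_injOn hinj (to_countable (univ : Set ℕ))
    obtain ⟨b, hb⟩ : ∃ b : β.ToType, b ∉ {b | ∃ a, ∃ q ≤ p, R q a b} := by
      by_contra hall
      push Not at hall
      have h2 : (univ : Set β.ToType).Countable := hcount.mono fun b _ => hall b
      have h3 : #β.ToType ≤ ℵ₀ := Cardinal.mk_le_aleph0_iff.mpr (countable_univ_iff.mp h2)
      rw [Cardinal.mk_toType] at h3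
      have h4 := Ordinal.card_le_card hlt
      rw [Ordinal.card_omega] at h4
      have h5 := h4.trans h3
      exact absurd h5 (not_le.mpr Cardinal.aleph0_lt_aleph_one)
    exact ⟨p, le_rfl, b, fun q' hq' a hR' => hb ⟨a, q', hq', hR'⟩⟩⟩ f hf (by rw [hom]; exact hfun)
  obtain ⟨n, hn, hp⟩ := hsurj y hy
  exact hny n (by rw [hom]; exact hn) hp

/-- The code of the value of the root of the tree `a`. -/
theorem exists_root (a : Ω) : ∃ c : Kd I Ω 0, ∀ i z, Fo (ev c i) z ↔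
    Fo (fun z' : Cnd I Ω => z'.f (i 0) (At.nd a []) = some true) z :=
  Cdd.node 0 a [] true

/-- Property (a). -/
theorem Ev.propA [Uncountable I] (j : I → ℕ → Bool) (hj : Function.Injective j)
    (hu : ∀ β : Ordinal.{0}, β < Ordinal.omega 1 → ∃ a : Ω, β < D.ρ a []) :
    Ev (P := PP I Ω) (fun U H => PropAV (MM U H) (EE U H) (AA U H)) := by
  classical
  choose root hroot using (exists_root (I := I) (Ω := Ω))
  -- the tree and the code for an ordinal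
  have h0 : ∀ β : Ordinal.{0}, ∃ c : Kd I Ω 0, β < Ordinal.omega 1 → ∃ a : Ω, β < D.ρ a [] ∧
      c = root a := by
    intro β
    by_cases h : β < Ordinal.omega 1
    · obtain ⟨a, ha⟩ := hu β h
      exact ⟨root a, fun _ => ⟨a, ha, rfl⟩⟩
    · exact ⟨Kd.gen fun _ => 0, fun h' => absurd h' h⟩
  choose c hc using h0
  have h1 : Ev (P := PP I Ω) (fun U _ => ∀ v : Fin 1 → Name (PP I Ω), (∀ i, v i ∈ U) →
      tN (P := PP I Ω) (c (Function.invFun (ordN (PP I Ω)) (v 0))) ∈ U) :=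
    Pool.PC.Ev.op (n := 1) (fun v => tN (P := PP I Ω) (c (Function.invFun (ordN (PP I Ω)) (v 0))))
  refine (((Pool.PV.Ev.ordinals (P := PP I Ω)).and (Pool.PV.Ev.countable_ord (Ω := Ω) j hj)).and
    (h1.and ((Pool.PV.Ev.borel_vc (I := I) (Ω := Ω)).and
      ((Pool.PV.Ev.code_of_class (Ω := Ω) j hj).and
        (Pool.PV.Ev.vc_eq (I := I) (Ω := Ω)))))).mono ?_
  rintro U H ⟨⟨hO, hC⟩, hcU, hBor, hCl, hEq⟩ x ⟨hx, hxo, f, hf, hfun, hsurj⟩
  obtain ⟨β, hβ, rfl⟩ := hO x hx hxo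
  have hβ1 : β < Ordinal.omega 1 := hC β hβ ⟨f, hf, hfun, hsurj⟩
  obtain ⟨a, ha, hca⟩ := hc β hβ1
  have hcU' : tN (P := PP I Ω) (c β) ∈ U := by
    have := hcU (fun _ => ordN (PP I Ω) β) (fun _ => hβ)
    simpa only [Function.leftInverse_invFun ordN_injective β] using this
  refine ⟨vc U H (c β), hBor 0 (c β) hcU', fun hcls => ?_⟩
  obtain ⟨c', hc'U, hRk, he⟩ := hCl β _ hβ hcls
  obtain ⟨p, hp, hpe⟩ := hEq 0 (c β) c' hcU' hc'U he
  refine rank_thm c' β hRk a ha p.down fun i z hz => ?_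
  rw [← hpe (fun _ => i) z hz, hca]
  exact hroot a (fun _ => i) z

/-- Codes of reals: the digit `n` is `true` iff for some `k` the condition `(r n k).1` is in the
generic filter and `(r n k).2 = true`. -/
abbrev RC (I Ω : Type) := ℕ → ℕ → Cnd I Ω × Bool

/-- The name of a real. -/
noncomputable def rN (r : RC I Ω) : Name (PP I Ω) :=
  Name.mk ℕ (fun n => ordN (PP I Ω) n) (fun n =>
    ⟨{p | ∃ k, p.down ≤ (r n k).1 ∧ (r n k).2 = true}, by
      rintro p q hq ⟨k, h1, h2⟩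
      exact ⟨k, le_trans (show q.down ≤ p.down from hq) h1, h2⟩⟩)

/-- The condition decides `n ∈ σ` in the sense `b`. -/
def QG4_F (σ : Name (PP I Ω)) (n : ℕ) (b : Bool) (z : PP I Ω) : Prop :=
  (b = true → Name.fmem (ordN (PP I Ω) (n : ℕ)) σ z) ∧
    (b = false → ∀ z' ≤ z, ¬ Name.fmem (ordN (PP I Ω) (n : ℕ)) σ z')

lemma QG4_F_mono {σ : Name (PP I Ω)} {n : ℕ} {b : Bool} {z z' : PP I Ω} (h : QG4_F σ n b z)
    (hz : z' ≤ z) : QG4_F σ n b z' :=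
  ⟨fun hb => Name.fmem_mono (h.1 hb) hz, fun hb w hw => h.2 hb w (hw.trans hz)⟩

/-- `r` is a code. -/
def QG4_G (σ : Name (PP I Ω)) (r : RC I Ω) : Prop :=
  ∀ n, (∀ k, QG4_F σ n (r n k).2 ⟨(r n k).1⟩) ∧
    ∀ z' : PP I Ω, ∃ k, ∃ w : PP I Ω, w ≤ z' ∧ w ≤ ⟨(r n k).1⟩

lemma QG4_exists (j : I → ℕ → Bool) (hj : Function.Injective j) (σ : Name (PP I Ω)) :
    ∃ r, QG4_G σ r := by
  have hdec : ∀ n (z : PP I Ω), ∃ z' ≤ z, ∃ b, QG4_F σ n b z' := by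
    intro n z
    by_cases h : ∃ z' ≤ z, Name.fmem (ordN (PP I Ω) (n : ℕ)) σ z'
    · obtain ⟨z', hz', h1⟩ := h
      exact ⟨z', hz', true, ⟨fun _ => h1, fun h => (Bool.false_ne_true h.symm).elim⟩⟩
    · push Not at h
      exact ⟨z, le_rfl, false, ⟨fun h => (Bool.false_ne_true h).elim, fun _ z' hz' => h z' hz'⟩⟩
  have h1 : ∀ n, ∃ w : ℕ → Cnd I Ω, (∀ k, w k ∈ {y : Cnd I Ω | ∃ b, QG4_F σ n b ⟨y⟩}) ∧
      ∀ y ∈ {y : Cnd I Ω | ∃ b, QG4_F σ n b ⟨y⟩}, ∃ k v, v ≤ y ∧ v ≤ w k := by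
    intro n
    refine Cnd.exists_pred j hj _ ?_
    obtain ⟨z', -, b, hb⟩ := hdec n ⟨Cnd.top⟩
    exact ⟨z'.down, b, hb⟩
  choose w hw1 hw2 using h1
  choose b hb using hw1
  refine ⟨fun n k => (w n k, b n k), fun n => ⟨fun k => hb n k, fun z' => ?_⟩⟩
  obtain ⟨z'', hz'', b', hb'⟩ := hdec n z'
  obtain ⟨k, v, hv1, hv2⟩ := hw2 n z''.down ⟨b', hb'⟩
  exact ⟨k, ⟨v⟩, le_trans (show (⟨v⟩ : PP I Ω) ≤ z'' from hv1) hz'', hv2⟩

/-- Every subset of `ω` in the model is given by a code. -/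
theorem Ev.exists_rc (j : I → ℕ → Bool) (hj : Function.Injective j) :
    Ev (P := PP I Ω) (fun U H => ∀ y ∈ MM U H, y ⊆ ZFSet.omega →
      ∃ r : RC I Ω, tN (P := PP I Ω) r ∈ U ∧ y = Name.val U H (rN r)) := by
  have hG : Ev (P := PP I Ω) (fun U H => ∀ t : Unit, tN t ∈ U →
      ∀ v : Fin 1 → Name (PP I Ω), (∀ i, v i ∈ U) →
      (∃ q ∈ H, ∃ r : RC I Ω, tN r ∈ U ∧ QG4_G (v 0) r) ∨
        (∃ p ∈ H, ∀ q ≤ p, ∀ r, ¬ QG4_G (v 0) r)) :=
    Ev.genT (P := PP I Ω) (T := Unit) (T' := RC I Ω) 1 (fun _ v _ r => QG4_G (v 0) r)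
  have hP : Ev (P := PP I Ω) (fun U H => ∀ n : ℕ, ∀ r : RC I Ω, tN r ∈ U →
      ∀ v : Fin 0 → Name (PP I Ω), (∀ i, v i ∈ U) →
      (∃ q ∈ H, ∃ k : ℕ, tN k ∈ U ∧ q ≤ ⟨(r n k).1⟩) ∨
        (∃ p ∈ H, ∀ q ≤ p, ∀ k : ℕ, ¬ q ≤ ⟨(r n k).1⟩)) :=
    Ev.all fun n => Ev.genT (P := PP I Ω) (T := RC I Ω) (T' := ℕ) 0
      (fun r _ q k => q ≤ ⟨(r n k).1⟩)
  refine ((Ev.base.and (Ev.seed (P := PP I Ω) ())).and (hG.and hP)).mono ?_
  rintro U H ⟨⟨hB, hunit⟩, hG, hP⟩ y ⟨σ, -, hσU, rfl⟩ hy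
  have hv : ∀ i, (![σ] : Fin 1 → Name (PP I Ω)) i ∈ U := by
    intro i
    fin_cases i
    exact hσU
  obtain ⟨r, hrU, hr⟩ : ∃ r : RC I Ω, tN r ∈ U ∧ QG4_G σ r := by
    rcases hG () hunit ![σ] hv with ⟨q, -, r, h1, h2⟩ | ⟨p, hp, hn⟩
    · exact ⟨r, h1, h2⟩
    · exfalso
      obtain ⟨r, hr⟩ := QG4_exists j hj σ
      exact hn p le_rfl r hr
  refine ⟨r, hrU, ?_⟩
  have hk : ∀ n, ∃ k, (⟨(r n k).1⟩ : PP I Ω) ∈ H := by
    intro n
    rcases hP n r hrU Fin.elim0 (fun i => i.elim0) with ⟨q, hq, k, -, h1⟩ | ⟨p, hp, hn⟩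
    · exact ⟨k, hB.filt.up q hq _ h1⟩
    · exfalso
      obtain ⟨k, w, hw1, hw2⟩ := (hr n).2 p
      exact hn w hw1 k hw2
  have htr : ∀ n : ℕ, num n ∈ Name.val U H σ ↔ ∃ p ∈ H, Name.fmem (ordN (PP I Ω) (n : ℕ)) σ p := by
    intro n
    have h1 := Name.val_mem_iff hB.full.at' (hB.nat n) hσU
    rwa [val_ordN_nat hB] at h1
  ext x
  constructor
  · intro hx
    obtain ⟨n, rfl⟩ := mem_omega_iff.1 (hy hx)
    obtain ⟨p, hp, hF⟩ := (htr n).1 hx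
    obtain ⟨k, hk⟩ := hk n
    obtain ⟨s, hs, h1, h2⟩ := hB.filt.dir p hp _ hk
    have hb : (r n k).2 = true := by
      by_contra hne
      rw [Bool.not_eq_true] at hne
      exact ((hr n).1 k).2 hne s h2 (Name.fmem_mono hF h1)
    exact Name.mem_val.2 ⟨n, hB.nat n, ⟨s, hs, k, h2, hb⟩, (val_ordN_nat hB n).symm⟩
  · intro hx
    obtain ⟨n, -, ⟨p, hp, k, h1, h2⟩, rfl⟩ := Name.mem_val.1 hx
    have h3 : (⟨(r n k).1⟩ : PP I Ω) ∈ H := hB.filt.up p hp _ h1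
    have h4 : num n ∈ Name.val U H σ := (htr n).2 ⟨_, h3, ((hr n).1 k).1 h2⟩
    have h5 : Name.val U H ((rN r).A n) = num n := val_ordN_nat hB n
    rw [h5]
    exact h4

omit D in
lemma QG5_finite (z : Cnd I Ω) : {y : I × At Ω × Bool | z.f y.1 y.2.1 = some y.2.2}.Finite := by
  have h : ((fun y : (I × At Ω) × Bool => (y.1.1, y.1.2, y.2)) ''
      ({x : I × At Ω | z.f x.1 x.2 ≠ none} ×ˢ (univ : Set Bool))).Finite :=
    (z.fin.prod Set.finite_univ).image _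
  refine h.subset ?_
  rintro ⟨i, x, b⟩ hy
  refine ⟨((i, x), b), ⟨?_, mem_univ _⟩, rfl⟩
  show z.f i x ≠ none
  have hy' : z.f i x = some b := hy
  rw [hy']
  simp

include D in
lemma QG5_inj : Function.Injective (fun z : Cnd I Ω => (QG5_finite z).toFinset) := by
  intro z z' h
  apply Cnd.ext'
  intro i
  funext x
  have key : ∀ b, z.f i x = some b ↔ z'.f i x = some b := by
    intro b
    have : ((i, x, b) : I × At Ω × Bool) ∈ (QG5_finite z).toFinset ↔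
        ((i, x, b) : I × At Ω × Bool) ∈ (QG5_finite z').toFinset := by
      have h' : (QG5_finite z).toFinset = (QG5_finite z').toFinset := h
      rw [h']
    simpa using this
  exact Option.ext fun b => by simpa using key b

lemma QG5_finset {α : Type} (h : #α ≤ 𝔠) : #(Finset α) ≤ 𝔠 := by
  have e : #(ℕ → Bool) = 𝔠 := by simp
  rw [← e] at h
  obtain ⟨f⟩ := h
  calc #(Finset α) ≤ #(Finset (ℕ → Bool)) :=
        Cardinal.mk_le_of_injective (f := fun s : Finset α => s.map f) (Finset.map_injective f)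
    _ = 𝔠 := by rw [Cardinal.mk_finset_of_infinite, e]

lemma QG5_seq {α : Type} (h : #α ≤ 𝔠) : #(ℕ → α) ≤ 𝔠 := by
  calc #(ℕ → α) = #α ^ ℵ₀ := by simp
    _ ≤ 𝔠 ^ ℵ₀ := Cardinal.power_le_power_right h
    _ = 𝔠 := Cardinal.continuum_power_aleph0

/-- The number of codes. -/
theorem mk_rc_le (hI : #I ≤ 𝔠) (hΩ : #Ω ≤ 𝔠) : #(RC I Ω) ≤ 𝔠 := by
  refine QG5_seq (QG5_seq ?_)
  have hc : ℵ₀ ≤ 𝔠 := Cardinal.aleph0_le_continuum
  have hb : #Bool ≤ 𝔠 := (Cardinal.mk_le_aleph0).trans hc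
  have hl : #(List ℕ) ≤ 𝔠 := (Cardinal.mk_le_aleph0).trans hc
  have hlb : #(List Bool) ≤ 𝔠 := (Cardinal.mk_le_aleph0).trans hc
  have hmul : ∀ {a b : Cardinal.{0}}, a ≤ 𝔠 → b ≤ 𝔠 → a * b ≤ 𝔠 := fun h h' =>
    Cardinal.mul_le_of_le hc h h'
  have hAt : #(At Ω) ≤ 𝔠 := by
    rw [Cardinal.mk_sum, Cardinal.mk_prod]
    simp only [Cardinal.lift_id]
    exact Cardinal.add_le_of_le hc hlb (hmul hΩ hl)
  have hC : #(Cnd I Ω) ≤ 𝔠 := by
    refine (Cardinal.mk_le_of_injective QG5_inj).trans (QG5_finset ?_)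
    rw [Cardinal.mk_prod, Cardinal.mk_prod]
    simp only [Cardinal.lift_id]
    exact hmul hI (hmul hAt hb)
  rw [Cardinal.mk_prod]
  simp only [Cardinal.lift_id]
  exact hmul hC hb

/-- The name of the function on `E` with the values named by `F`. -/
noncomputable def QG6_fN (F : I → Name (PP I Ω)) : Name (PP I Ω) :=
  Name.mk I (fun i => oN (tN i) (F i)) (fun _ => ⊤)

/-- The name of the set of the digits of the real of the point `i`. -/
noncomputable def QG6_dN (i : I) : Name (PP I Ω) :=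
  Name.mk ℕ (fun n => ordN (PP I Ω) n) (fun n =>
    ⟨{p | p.down.f i (At.x (gs n)) = some true}, fun _ _ hpq h => Cnd.le_some hpq h⟩)

lemma QG6_mem_fN {U : Set (Name (PP I Ω))} {H : Set (PP I Ω)} (hB : Base U H)
    (hp : ∀ σ τ : Name (PP I Ω), oN σ τ ∈ U → σ ∈ U ∧ τ ∈ U) {F : I → Name (PP I Ω)}
    (hF : ∀ i, tN (P := PP I Ω) i ∈ U → F i ∈ U) {x y : ZFSet.{0}} :
    ZFSet.pair x y ∈ Name.val U H (QG6_fN F) ↔
      ∃ i, tN (P := PP I Ω) i ∈ U ∧ x = Name.val U H (tN i) ∧ y = Name.val U H (F i) := by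
  obtain ⟨q, hq⟩ := hB.filt.ne
  rw [Name.mem_val]
  constructor
  · rintro ⟨i, hU, -, e⟩
    have hU' : oN (tN i) (F i) ∈ U := hU
    obtain ⟨h2, h3⟩ := hp _ _ hU'
    have e' : ZFSet.pair x y = Name.val U H (oN (tN i) (F i)) := e
    rw [val_oN hB h2 h3] at e'
    obtain ⟨e1, e2⟩ := ZFSet.pair_injective e'
    exact ⟨i, h2, e1, e2⟩
  · rintro ⟨i, hi, rfl, rfl⟩
    exact ⟨i, oN_mem hB hi (hF i hi), ⟨q, hq, trivial⟩, (val_oN hB hi (hF i hi)).symm⟩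

lemma QG6_funOn {U : Set (Name (PP I Ω))} {H : Set (PP I Ω)} (hB : Base U H)
    (hp : ∀ σ τ : Name (PP I Ω), oN σ τ ∈ U → σ ∈ U ∧ τ ∈ U)
    (hE : ∀ x, x ∈ EE U H ↔ ∃ i : I, tN (P := PP I Ω) i ∈ U ∧ x = Name.val U H (tN i))
    (hinj : ∀ i i' : I, tN (P := PP I Ω) i ∈ U → tN (P := PP I Ω) i' ∈ U →
      Name.val U H (tN (P := PP I Ω) i) = Name.val U H (tN i') → i = i')
    {F : I → Name (PP I Ω)} (hF : ∀ i, tN (P := PP I Ω) i ∈ U → F i ∈ U) :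
    FunOn (Name.val U H (QG6_fN F)) (EE U H) := by
  refine ⟨fun z hz => ?_, fun x hx => ?_⟩
  · obtain ⟨i, hU, -, e⟩ := Name.mem_val.1 hz
    have hU' : oN (tN i) (F i) ∈ U := hU
    obtain ⟨h2, h3⟩ := hp _ _ hU'
    exact ⟨Name.val U H (tN i), (hE _).2 ⟨i, h2, rfl⟩, Name.val U H (F i),
      e.trans (val_oN hB h2 h3)⟩
  · obtain ⟨i, hi, rfl⟩ := (hE x).1 hx
    refine ⟨Name.val U H (F i), (QG6_mem_fN hB hp hF).2 ⟨i, hi, rfl, rfl⟩, fun y hy => ?_⟩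
    obtain ⟨i', hi', e, e'⟩ := (QG6_mem_fN hB hp hF).1 hy
    rw [e', hinj i i' hi hi' e]

lemma QG6_mem_dN {U : Set (Name (PP I Ω))} {H : Set (PP I Ω)} (hB : Base U H) {i : I}
    {x : ZFSet.{0}} : x ∈ Name.val U H (QG6_dN (Ω := Ω) i) ↔
      ∃ n, (∃ p ∈ H, p.down.f i (At.x (gs n)) = some true) ∧ x = num n := by
  rw [Name.mem_val]
  constructor
  · rintro ⟨n, -, h, e⟩
    exact ⟨n, h, e.trans (val_ordN_nat hB n)⟩
  · rintro ⟨n, h, rfl⟩
    exact ⟨n, hB.nat n, h, (val_ordN_nat hB n).symm⟩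

/-- Different points are separated by a condition in the generic filter. -/
lemma QG6_sep : Ev (P := PP I Ω) (fun U H => ∀ i i' : I, tN (P := PP I Ω) i ∈ U →
    tN (P := PP I Ω) i' ∈ U → i ≠ i' → ∃ p ∈ H, ∃ σ, p.down.f i (At.x σ) = some true ∧
      p.down.f i' (At.x σ) = some false) := by
  refine ((Ev.genT (P := PP I Ω) (T := I × I) (T' := List Bool) 0 (fun t _ q σ =>
    q.down.f t.1 (At.x σ) = some true ∧ q.down.f t.2 (At.x σ) = some false)).and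
    (Ev.pairT I I)).mono fun U H h i i' hi hi' hne => ?_
  rcases h.1 (i, i') (h.2 i i' hi hi') Fin.elim0 (fun k => k.elim0) with
    ⟨q, hq, σ, -, h1, h2⟩ | ⟨p, hp, hn⟩
  · exact ⟨q, hq, σ, h1, h2⟩
  · exfalso
    obtain ⟨z', hz', σ, h1, h2⟩ := Cnd.exists_sep p.down hne
    exact hn ⟨z'⟩ hz' σ ⟨h1, h2⟩

/-- The size of `E`. -/
theorem Ev.sizeC (j : I → ℕ → Bool) (hj : Function.Injective j) (hI : #I = 𝔠) (hΩ : #Ω ≤ 𝔠) :
    Ev (P := PP I Ω) (fun U H => SizeC (MM U H) (EE U H)) := by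
  obtain ⟨s⟩ := Cardinal.le_def _ _ |>.1 ((mk_rc_le (I := I) (Ω := Ω) hI.le hΩ).trans hI.ge)
  have hs : ∀ r : RC I Ω, Function.invFun s (s r) = r := Function.leftInverse_invFun s.injective
  have hops : Ev (P := PP I Ω) (fun U _ => (QG6_fN (Ω := Ω) QG6_dN ∈ U ∧
      QG6_fN (fun i : I => rN (Function.invFun s i)) ∈ U) ∧
      ((∀ i : I, tN (P := PP I Ω) i ∈ U → QG6_dN (Ω := Ω) i ∈ U) ∧
      (∀ i : I, tN (P := PP I Ω) i ∈ U → rN (I := I) (Ω := Ω) (Function.invFun s i) ∈ U)) ∧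
      ∀ r : RC I Ω, tN (P := PP I Ω) r ∈ U → tN (P := PP I Ω) (s r) ∈ U) := by
    refine (((Ev.op (P := PP I Ω) (n := 0) (fun _ => QG6_fN (Ω := Ω) QG6_dN)).and
      (Ev.op (P := PP I Ω) (n := 0) (fun _ => QG6_fN (fun i : I =>
        rN (Function.invFun s i))))).and (((Ev.opN (P := PP I Ω) (T := I)
        (fun i => QG6_dN (Ω := Ω) i)).and (Ev.opN (P := PP I Ω) (T := I)
        (fun i => rN (I := I) (Ω := Ω) (Function.invFun s i)))).and
        (Ev.opT (P := PP I Ω) s))).mono fun U H h => ?_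
    exact ⟨⟨h.1.1 Fin.elim0 (fun k => k.elim0), h.1.2 Fin.elim0 (fun k => k.elim0)⟩, h.2.1, h.2.2⟩
  refine (((Ev.base.and Ev.parts).and (Ev.mem_EE.and Ev.pt_inj)).and ((QG6_sep.and
    (Ev.exists_rc j hj)).and hops)).mono ?_
  rintro U H ⟨⟨⟨hB, hp⟩, hE, hinj⟩, ⟨hsep, hrc⟩, ⟨hd, hr⟩, ⟨hd', hr'⟩, hs'⟩
  refine ⟨⟨Name.val U H (QG6_fN QG6_dN), ⟨_, mem_univ _, hd, rfl⟩,
    QG6_funOn hB hp hE hinj hd', fun x y hxy => ?_, fun x x' y hxy hxy' => ?_⟩,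
    ⟨Name.val U H (QG6_fN fun i : I => rN (Function.invFun s i)), ⟨_, mem_univ _, hr, rfl⟩,
    QG6_funOn hB hp hE hinj hr', fun y hy hyo => ?_⟩⟩
  · obtain ⟨i, hi, -, rfl⟩ := (QG6_mem_fN hB hp hd').1 hxy
    intro z hz
    obtain ⟨n, -, rfl⟩ := (QG6_mem_dN hB).1 hz
    exact mem_omega_iff.2 ⟨n, rfl⟩
  · obtain ⟨i, hi, rfl, rfl⟩ := (QG6_mem_fN hB hp hd').1 hxy
    obtain ⟨i', hi', rfl, e⟩ := (QG6_mem_fN hB hp hd').1 hxy'
    by_contra hne
    have hii : i ≠ i' := fun h => hne (by rw [h])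
    obtain ⟨p, hpH, σ, h1, h2⟩ := hsep i i' hi hi' hii
    have h3 : num (Encodable.encode σ) ∈ Name.val U H (QG6_dN (Ω := Ω) i) :=
      (QG6_mem_dN hB).2 ⟨Encodable.encode σ, ⟨p, hpH, by rw [gs_encode]; exact h1⟩, rfl⟩
    rw [e] at h3
    obtain ⟨n, ⟨q, hq, h4⟩, h5⟩ := (QG6_mem_dN hB).1 h3
    obtain rfl := num_injective hB h5
    rw [gs_encode] at h4
    obtain ⟨r, -, hr1, hr2⟩ := hB.filt.dir p hpH q hq
    have h6 := Cnd.le_some (z' := r.down) hr1 h2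
    have h7 := Cnd.le_some (z' := r.down) hr2 h4
    rw [h6] at h7
    simp at h7
  · obtain ⟨r, hrU, rfl⟩ := hrc y hy hyo
    refine ⟨Name.val U H (tN (s r)), (hE _).2 ⟨s r, hs' r hrU, rfl⟩,
      (QG6_mem_fN hB hp hr').2 ⟨s r, hs' r hrU, rfl, ?_⟩⟩
    rw [hs]

/-- The positive answer in the extension. -/
theorem Ev.positive [Uncountable I] (j : I → ℕ → Bool) (hj : Function.Injective j)
    (hI : #I = 𝔠) (hΩ : #Ω ≤ 𝔠)
    (hu : ∀ β : Ordinal.{0}, β < Ordinal.omega 1 → ∃ a : Ω, β < D.ρ a []) :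
    Ev (P := PP I Ω) (fun U H => PosE (MM U H)) := by
  refine ((Ev.EE_mem.and (Ev.sizeC j hj hI hΩ)).and ((Ev.propA j hj hu).and
    (Ev.propB j hj))).mono ?_
  rintro U H ⟨⟨⟨h1, h2, -, h3⟩, h4⟩, h5, h6⟩
  exact ⟨EE U H, h1, h4, AA U H, h2, h3, h5, h6⟩

theorem QG7_countable {ρ : Ordinal.{0}} (h : ρ < Ordinal.omega 1) : (Iio ρ).Countable := by
  rw [← Cardinal.le_aleph0_iff_set_countable, Cardinal.mk_Iio_ordinal, Cardinal.lift_le_aleph0]
  rw [← Order.lt_succ_iff]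
  have h1 : ρ.card < Cardinal.aleph 1 := by
    have := Cardinal.lt_ord.1 (show ρ < (Cardinal.aleph 1).ord by rwa [Cardinal.ord_aleph])
    exact this
  rwa [Cardinal.succ_aleph0]

theorem QG7_fund {ρ : Ordinal.{0}} (h0 : ρ ≠ 0) (h : ρ < Ordinal.omega 1) :
    ∃ f : ℕ → Ordinal.{0}, (∀ i, f i < ρ) ∧ ∀ β < ρ, {i | f i < β}.Finite := by
  have hpos : 0 < ρ := pos_iff_ne_zero.2 h0
  have hc := QG7_countable h
  obtain ⟨e, he⟩ := hc.exists_eq_range ⟨0, hpos⟩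
  let f : ℕ → Ordinal.{0} := fun i => (Finset.range (i + 1)).sup e
  have hf : ∀ i, f i < ρ := by
    intro i
    refine (Finset.sup_lt_iff (by rwa [Ordinal.bot_eq_zero])).2 fun k _ => ?_
    have : e k ∈ Iio ρ := he ▸ mem_range_self k
    exact this
  refine ⟨f, hf, fun β hβ => ?_⟩
  have hb : β ∈ Set.range e := he ▸ hβ
  obtain ⟨k, rfl⟩ := hb
  refine (Set.finite_Iio k).subset fun i hi => ?_
  by_contra hcon
  have h1 : k ≤ i := not_lt.1 hcon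
  have h2 : e k ≤ f i := Finset.le_sup (f := e) (Finset.mem_range.2 (by omega))
  exact absurd (hi : f i < e k) (not_lt.2 h2)

theorem QG7_rank {α : Ordinal.{0}} (h : α < Ordinal.omega 1) :
    ∃ ρ : List ℕ → Ordinal.{0}, (∀ t i, ρ t ≠ 0 → ρ (i :: t) < ρ t) ∧
      (∀ t i, ρ t = 0 → ρ (i :: t) = 0) ∧ (∀ t β, β < ρ t → {i | ρ (i :: t) < β}.Finite) ∧
      ρ [] = α := by
  classical
  choose F hF1 hF2 using @QG7_fund
  let ρ : List ℕ → Ordinal.{0} := fun t => List.rec (motive := fun _ => Ordinal.{0}) α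
    (fun i _ r => if hr : r ≠ 0 ∧ r < Ordinal.omega 1 then F hr.1 hr.2 i else 0) t
  have hnil : ρ [] = α := rfl
  have hcons : ∀ i t, ρ (i :: t) = if hr : ρ t ≠ 0 ∧ ρ t < Ordinal.omega 1 then F hr.1 hr.2 i
    else 0 := fun i t => rfl
  have hpos : (0 : Ordinal.{0}) < Ordinal.omega 1 := Ordinal.omega_pos 1
  have hlt : ∀ t, ρ t < Ordinal.omega 1 := by
    intro t
    induction t with
    | nil => exact h
    | cons i t ih =>
      rw [hcons]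
      split_ifs with hr
      · exact (hF1 hr.1 hr.2 i).trans hr.2
      · exact hpos
  have hcons1 : ∀ i t, ∀ (h1 : ρ t ≠ 0), ρ (i :: t) = F h1 (hlt t) i := by
    intro i t h1
    rw [hcons, dif_pos ⟨h1, hlt t⟩]
  have hcons0 : ∀ i t, ρ t = 0 → ρ (i :: t) = 0 := by
    intro i t h1
    rw [hcons, dif_neg (fun hr => hr.1 h1)]
  refine ⟨ρ, ?_, fun t i h => hcons0 i t h, ?_, hnil⟩
  · intro t i h1
    rw [hcons1 i t h1]
    exact hF1 h1 (hlt t) i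
  · intro t β hβ
    have h1 : ρ t ≠ 0 := by
      intro e
      rw [e] at hβ
      exact absurd hβ (not_lt.2 bot_le)
    have := hF2 h1 (hlt t) β hβ
    simpa only [hcons1 _ t h1] using this

/-- The trees. -/
theorem exists_TR : ∃ (Ω : Type) (_ : TR Ω), #Ω ≤ 𝔠 ∧
    ∀ β : Ordinal.{0}, β < Ordinal.omega 1 → ∃ a : Ω, β < TR.ρ a [] := by
  classical
  have hmk : #((Cardinal.aleph 1).ord.ToType) = (Cardinal.aleph 1 : Cardinal.{0}) :=
    Cardinal.mk_ord_toType _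
  have hle : #((Cardinal.aleph 1).ord.ToType) ≤ (𝔠 : Cardinal.{0}) := by
    rw [hmk]
    exact Cardinal.aleph_one_le_continuum
  have hlim : Order.IsSuccLimit (Cardinal.aleph 1 : Cardinal.{0}).ord :=
    Cardinal.isSuccLimit_ord (Cardinal.aleph0_le_aleph 1)
  have hα : ∀ a : (Cardinal.aleph 1 : Cardinal.{0}).ord.ToType,
      Order.succ (Ordinal.typein (α := (Cardinal.aleph 1).ord.ToType) (· < ·) a) <
        Ordinal.omega.{0} 1 := by
    intro a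
    rw [← Cardinal.ord_aleph]
    exact hlim.succ_lt (Ordinal.typein_lt_self a)
  choose ρ h1 h2 h3 h4 using fun a => QG7_rank (hα a)
  have hreal : #(ℕ → Bool) = 𝔠 := by simp
  obtain ⟨⟨h, hh⟩⟩ : #((Cardinal.aleph 1).ord.ToType) ≤ #(ℕ → Bool) := by rw [hreal]; exact hle
  obtain ⟨⟨g, hg⟩⟩ : #((Cardinal.aleph 1).ord.ToType × List ℕ) ≤ #(ℕ → Bool) := by
    rw [hreal, Cardinal.mk_prod, Cardinal.lift_id, Cardinal.lift_id, Cardinal.mk_list_eq_mk,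
      Cardinal.mk_nat]
    calc _ ≤ 𝔠 * 𝔠 := mul_le_mul' hle Cardinal.aleph0_le_continuum
      _ = 𝔠 := Cardinal.continuum_mul_self
  refine ⟨(Cardinal.aleph 1).ord.ToType,
    { ρ := ρ
      lt := h1
      zero := h2
      fin := h3
      g := fun a t => g (a, t)
      g_inj := fun a t a' t' hat => by
        have h5 := hg hat
        exact ⟨congrArg Prod.fst h5, congrArg Prod.snd h5⟩
      h := h
      h_inj := hh }, hle, ?_⟩
  intro β hβ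
  have hβ' : β < Ordinal.type (fun x y : (Cardinal.aleph 1).ord.ToType => x < y) := by
    rw [Ordinal.type_toType, Cardinal.ord_aleph]
    exact hβ
  refine ⟨Ordinal.enum (fun x y : (Cardinal.aleph 1).ord.ToType => x < y) ⟨β, hβ'⟩, ?_⟩
  show β < ρ _ []
  rw [h4, Ordinal.typein_enum]
  exact Order.lt_succ β

/-- THE MODEL -/
theorem exists_model : ∃ V : Set ZFSet.{0}, V.Countable ∧ (∀ x ∈ V, ∀ y ∈ x, y ∈ V) ∧
    ZFCModel V ∧ PosE V := by
  obtain ⟨Ω, D, hΩ, hu⟩ := exists_TR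
  have hI : #(ℕ → Bool) = 𝔠 := by simp
  have : Uncountable (ℕ → Bool) := by
    rw [← Cardinal.aleph0_lt_mk_iff, hI]
    exact Cardinal.aleph0_lt_continuum
  obtain ⟨U, H, hU, hH, -, ⟨⟨q1, q2⟩, q3⟩⟩ :=
    ((Ev.zf (P := PP (ℕ → Bool) Ω)).and Ev.choice |>.and
      (Ev.positive id Function.injective_id hI hΩ hu)).exists_hull ⟨Cnd.top⟩
  exact ⟨MM U H, MM_countable hU, fun x hx y hy => MM_trans hx hy, ⟨q1, q2⟩, q3⟩

end Pool.PV
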