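import Pool.Agent.Lib.MP_1c8600_pv.Code

/-!
# The positive half: elimination of quantifiers

A family of predicates which is invariant under the permutations of `I` which fix a countable set
pointwise is coded.
-/

set_option autoImplicit false
set_option linter.unusedSectionVars false

open Set Pool.LV

namespace Pool.PV

variable {I Ω : Type} [D : TR Ω]

/-- Invariance under the permutations which fix `s` pointwise. -/
def Iv {m : ℕ} (s : Set I) (θ : (Fin (m + 1) → I) → Cnd I Ω → Prop) : Prop :=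
  ∀ π : Equiv.Perm I, (∀ i ∈ s, π i = i) → ∀ i z,
    θ (fun k => π (i k)) (Cnd.act π z) ↔ θ i z

/-- Two tuples have the same pattern over `s`. -/
def Pt {m : ℕ} (s : Set I) (a i : Fin (m + 1) → I) : Prop :=
  (∀ k l, a k = a l ↔ i k = i l) ∧ ∀ k, (a k ∈ s ∨ i k ∈ s) → i k = a k

/-- A finite partial injection extends to a permutation. -/
lemma exists_perm {F : Set I} (hF : F.Finite) (f : I → I) (hf : InjOn f F) {s : Set I}
    (hs : ∀ x ∈ F, (x ∈ s ∨ f x ∈ s) → f x = x) :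
    ∃ π : Equiv.Perm I, (∀ x ∈ F, π x = f x) ∧ ∀ x ∈ s, π x = x := by
  classical
  have hE : ((F ∪ f '' F) \ s).Finite := (hF.union (hF.image f)).subset sdiff_subset
  obtain ⟨E, hE'⟩ : ∃ E : Finset I, (E : Set I) = (F ∪ f '' F) \ s :=
    ⟨hE.toFinset, hE.coe_toFinset⟩
  have hmem : ∀ x, x ∈ E ↔ (x ∈ F ∨ x ∈ f '' F) ∧ x ∉ s := by
    intro x
    rw [← Finset.mem_coe, hE']
    rfl
  have h1 : Set.MapsTo (fun x : E => f x.1) {x : E | x.1 ∈ F} (E : Set I) := by
    intro x hx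
    have hx' : x.1 ∉ s := ((hmem x.1).1 x.2).2
    rw [Finset.mem_coe, hmem]
    refine ⟨Or.inr ⟨x.1, hx, rfl⟩, fun h => hx' ?_⟩
    have h2 := hs x.1 hx (Or.inr h)
    have h3 : f x.1 ∈ s := h
    rwa [h2] at h3
  have h2 : Set.InjOn (fun x : E => f x.1) {x : E | x.1 ∈ F} := by
    intro x hx y hy hxy
    exact Subtype.ext (hf hx hy hxy)
  obtain ⟨g, hg⟩ := h1.exists_equiv_extend_of_card_eq (by simp) h2
  refine ⟨Equiv.Perm.ofSubtype g, ?_, ?_⟩
  · intro x hx
    by_cases hxs : x ∈ s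
    · rw [Equiv.Perm.ofSubtype_apply_of_not_mem, hs x hx (Or.inl hxs)]
      exact fun h => ((hmem x).1 h).2 hxs
    · have hxE : x ∈ E := (hmem x).2 ⟨Or.inl hx, hxs⟩
      rw [Equiv.Perm.ofSubtype_apply_of_mem _ hxE]
      exact hg ⟨x, hxE⟩ hx
  · intro x hx
    exact Equiv.Perm.ofSubtype_apply_of_not_mem _ fun h => ((hmem x).1 h).2 hx

lemma Pt.exists_perm {m : ℕ} {s : Set I} {a i : Fin (m + 1) → I} (h : Pt s a i) :
    ∃ π : Equiv.Perm I, (∀ x ∈ s, π x = x) ∧ ∀ k, π (a k) = i k := by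
  classical
  set f : I → I := fun x => if hx : ∃ k, a k = x then i hx.choose else x with hfdef
  have hf : ∀ k, f (a k) = i k := by
    intro k
    have hx : ∃ l, a l = a k := ⟨k, rfl⟩
    have h1 : f (a k) = i hx.choose := by
      rw [hfdef]
      exact dif_pos hx
    rw [h1]
    exact (h.1 _ _).1 hx.choose_spec
  obtain ⟨π, h1, h2⟩ := Pool.PV.exists_perm (F := range a) (Set.finite_range a) f
    (by
      rintro _ ⟨k, rfl⟩ _ ⟨l, rfl⟩ hkl
      rw [hf, hf] at hkl
      exact (h.1 k l).2 hkl) (s := s)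
    (by
      rintro _ ⟨k, rfl⟩ hk
      rw [hf] at hk ⊢
      exact h.2 k hk)
  exact ⟨π, h2, fun k => by rw [h1 _ ⟨k, rfl⟩, hf]⟩

/-- Countably many patterns. -/
lemma exists_rep [Uncountable I] (m : ℕ) {s : Set I} (hs : s.Countable) :
    ∃ A : Set (Fin (m + 1) → I), A.Countable ∧ ∀ i : Fin (m + 1) → I, ∃ a ∈ A, Pt s a i := by
  classical
  have hinf : (sᶜ).Infinite := by
    intro hf
    refine (Set.not_countable_univ_iff (α := I)).2 inferInstance ?_
    have := hs.union hf.countable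
    rwa [Set.union_compl_self] at this
  let e : ℕ → I := fun n => (hinf.natEmbedding _ n : I)
  have he : Function.Injective e := fun x y h =>
    (hinf.natEmbedding _).injective (Subtype.ext h)
  have hes : ∀ n, e n ∉ s := fun n => (hinf.natEmbedding _ n).2
  refine ⟨{a | ∀ k, a k ∈ s ∪ range e}, Set.countable_pi fun _ => hs.union (countable_range e),
    fun i => ?_⟩
  obtain ⟨f, hf⟩ := Set.countable_iff_exists_injOn.1 (Set.finite_range i).countable
  refine ⟨fun k => if i k ∈ s then i k else e (f (i k)), fun k => ?_, fun k l => ?_, fun k => ?_⟩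
  · by_cases h : i k ∈ s
    · simp only [h, if_true]
      exact Or.inl h
    · simp only [h, if_false]
      exact Or.inr ⟨_, rfl⟩
  · constructor
    · intro h
      by_cases h1 : i k ∈ s <;> by_cases h2 : i l ∈ s <;>
        simp only [h1, h2, if_true, if_false] at h
      · exact h
      · exact absurd (h ▸ h1) (hes _)
      · exact absurd (h ▸ h2 : e (f (i k)) ∈ s) (hes _)
      · exact hf ⟨k, rfl⟩ ⟨l, rfl⟩ (he h)
    · intro h
      simp only [h]
  · intro h
    by_cases h1 : i k ∈ s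
    · simp only [h1, if_true]
    · simp only [h1, if_false, or_false] at h
      exact absurd h (hes _)

lemma QC3_le_none {p q : At Ω → Option Bool} (h : ∀ x, q x = none) : LeAt p q :=
  ⟨fun x b hx => by rw [h x] at hx; simp at hx, fun a t m _ hx => by rw [h _] at hx; simp at hx⟩

lemma QC3_none {z : Cnd I Ω} {i : I} (h : i ∉ z.supp) (x : At Ω) : z.f i x = none := by
  by_contra hx
  exact h ⟨x, hx⟩

/-- Only the coordinates in `s` and in the tuple matter. -/
lemma Iv.res [Uncountable I] {m : ℕ} {s : Set I} (hs : s.Countable)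
    {θ : (Fin (m + 1) → I) → Cnd I Ω → Prop} (h : Iv s θ) (hm : ∀ i, Mn (θ i))
    {i : Fin (m + 1) → I} {w : Cnd I Ω} (hw : θ i w) :
    Fo (θ i) (Cnd.res (s ∪ range i) w) := by
  classical
  intro z hz
  rw [Cnd.le_res_iff] at hz
  set s' : Set I := s ∪ range i with hs'
  have hs'c : s'.Countable := hs.union (countable_range i)
  -- the points to be moved
  set F : Set I := w.supp \ s' with hF
  have hFf : F.Finite := (Cnd.supp_finite w).subset sdiff_subset
  -- the free points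
  set T : Set I := (z.supp ∪ s')ᶜ with hT
  have hTi : T.Infinite := by
    intro hfin
    have h1 : (z.supp ∪ s').Countable := (Cnd.supp_finite z).countable.union hs'c
    have h2 : (univ : Set I).Countable := by
      rw [← union_compl_self (z.supp ∪ s')]
      exact h1.union hfin.countable
    exact (not_countable (α := I)) (countable_univ_iff.mp h2)
  have _ne : Nonempty I := ⟨i 0⟩
  obtain ⟨f, hfT, hfi⟩ := hFf.exists_injOn_of_encard_le (t := T) (by
    rw [hTi.encard_eq]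
    exact le_top)
  obtain ⟨π, hπ1, hπ2⟩ := exists_perm hFf f hfi (s := s') (by
    rintro x hx (h1 | h1)
    · exact absurd h1 hx.2
    · exact absurd (Or.inr h1) (hfT hx))
  have hπs : ∀ x ∈ s, π x = x := fun x hx => hπ2 x (Or.inl hx)
  have hπi : (fun k => π (i k)) = i := funext fun k => hπ2 _ (Or.inr (mem_range_self k))
  have h1 : θ i (Cnd.act π w) := by
    have h2 := (h π hπs i w).mpr hw
    rwa [hπi] at h2
  refine ⟨Cnd.glue (f '' F) (Cnd.act π w) z, ?_, hm i _ _ ?_ h1⟩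
  · intro j
    by_cases hj : j ∈ f '' F
    · rw [Cnd.glue_pos hj]
      refine QC3_le_none fun x => QC3_none ?_ x
      obtain ⟨l, hl, rfl⟩ := hj
      exact fun h3 => hfT hl (Or.inl h3)
    · rw [Cnd.glue_neg hj]
      exact LeAt.refl _
  · intro j
    by_cases hj : j ∈ f '' F
    · rw [Cnd.glue_pos hj]
      exact LeAt.refl _
    · rw [Cnd.glue_neg hj]
      obtain ⟨l, rfl⟩ := π.surjective j
      rw [Cnd.act_f]
      by_cases hl : l ∈ w.supp
      · by_cases hl' : l ∈ s'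
        · rw [hπ2 l hl']
          exact hz l hl'
        · exact absurd ⟨l, ⟨hl, hl'⟩, (hπ1 l ⟨hl, hl'⟩).symm⟩ hj
      · exact QC3_le_none fun x => QC3_none hl x

lemma QC4_fo_const {P : Prop} {z : Cnd I Ω} : Fo (fun _ : Cnd I Ω => P) z ↔ P := by
  constructor
  · intro h
    obtain ⟨_, _, h1⟩ := h z le_rfl
    exact h1
  · exact fun h z' _ => ⟨z', le_rfl, h⟩

lemma QC4_not_const {m : ℕ} {P : (Fin (m + 1) → I) → Prop}
    (h : Cdd (m := m) (fun i (_ : Cnd I Ω) => P i)) :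
    Cdd (m := m) (fun i (_ : Cnd I Ω) => ¬ P i) := by
  refine (Cdd.not h fun i z z' _ hz => hz).congr fun i z => ?_
  have h1 : (fun z : Cnd I Ω => ∀ z' ≤ z, ¬ P i) = fun _ => ¬ P i := by
    funext z
    exact propext ⟨fun h => h z le_rfl, fun h _ _ => h⟩
  rw [h1]

lemma QC4_all_const {m : ℕ} {κ : Type} [Countable κ] {P : κ → (Fin (m + 1) → I) → Prop}
    (h : ∀ n, Cdd (m := m) (fun i (_ : Cnd I Ω) => P n i)) :
    Cdd (m := m) (fun i (_ : Cnd I Ω) => ∀ n, P n i) := by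
  refine (Cdd.all h fun n i z z' _ hz => hz).congr fun i z => ?_
  have h1 : (fun z : Cnd I Ω => ∀ n, Fo (fun _ : Cnd I Ω => P n i) z) = fun _ => ∀ n, P n i := by
    funext z
    exact propext (forall_congr' fun n => QC4_fo_const)
  rw [h1]

lemma QC4_and_const {m : ℕ} {P Q : (Fin (m + 1) → I) → Prop}
    (h : Cdd (m := m) (fun i (_ : Cnd I Ω) => P i))
    (h' : Cdd (m := m) (fun i (_ : Cnd I Ω) => Q i)) :
    Cdd (m := m) (fun i (_ : Cnd I Ω) => P i ∧ Q i) :=
  Cdd.and h h' (fun _ _ _ _ hz => hz) (fun _ _ _ _ hz => hz)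

/-- The set of tuples of a given pattern is coded. -/
lemma Cdd.pt {m : ℕ} {s : Set I} (hs : s.Countable) (a : Fin (m + 1) → I) :
    Cdd (m := m) (fun (i : Fin (m + 1) → I) (_ : Cnd I Ω) => Pt s a i) := by
  have h1 : ∀ q : Fin (m + 1) × Fin (m + 1),
      Cdd (m := m) (fun (i : Fin (m + 1) → I) (_ : Cnd I Ω) =>
        (a q.1 = a q.2 ↔ i q.1 = i q.2)) := by
    rintro ⟨k, l⟩
    by_cases h : a k = a l
    · have h2 : (fun (i : Fin (m + 1) → I) (_ : Cnd I Ω) => (a k = a l ↔ i k = i l)) =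
          fun i _ => i k = i l := by
        funext i z
        exact propext ⟨fun h' => h'.1 h, fun h' => ⟨fun _ => h', fun _ => h⟩⟩
      rw [h2]
      exact Cdd.eq k l
    · have h2 : (fun (i : Fin (m + 1) → I) (_ : Cnd I Ω) => (a k = a l ↔ i k = i l)) =
          fun i _ => ¬ i k = i l := by
        funext i z
        exact propext ⟨fun h' h'' => h (h'.2 h''), fun h' => ⟨fun h'' => absurd h'' h,
          fun h'' => absurd h'' h'⟩⟩
      rw [h2]
      exact QC4_not_const (Cdd.eq k l)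
  have h3 : ∀ k : Fin (m + 1), Cdd (m := m) (fun (i : Fin (m + 1) → I) (_ : Cnd I Ω) =>
      ((a k ∈ s ∨ i k ∈ s) → i k = a k)) := by
    intro k
    by_cases h : a k ∈ s
    · have h2 : (fun (i : Fin (m + 1) → I) (_ : Cnd I Ω) =>
          ((a k ∈ s ∨ i k ∈ s) → i k = a k)) = fun i _ => i k = a k := by
        funext i z
        exact propext ⟨fun h' => h' (Or.inl h), fun h' _ => h'⟩
      rw [h2]
      exact Cdd.eqc k (a k)
    · have h2 : (fun (i : Fin (m + 1) → I) (_ : Cnd I Ω) =>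
          ((a k ∈ s ∨ i k ∈ s) → i k = a k)) = fun i _ => ¬ i k ∈ s := by
        funext i z
        refine propext ⟨fun h' h'' => h ?_, fun h' h'' => ?_⟩
        · have h4 := h' (Or.inr h'')
          rwa [h4] at h''
        · rcases h'' with h'' | h''
          · exact absurd h'' h
          · exact absurd h'' h'
      rw [h2]
      exact QC4_not_const (Cdd.mem k hs)
  have h4 : (fun (i : Fin (m + 1) → I) (_ : Cnd I Ω) => Pt s a i) = fun i _ =>
      (∀ q : Fin (m + 1) × Fin (m + 1), (a q.1 = a q.2 ↔ i q.1 = i q.2)) ∧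
        ∀ k, ((a k ∈ s ∨ i k ∈ s) → i k = a k) := by
    funext i z
    exact propext ⟨fun h => ⟨fun q => h.1 q.1 q.2, h.2⟩, fun h => ⟨fun k l => h.1 (k, l), h.2⟩⟩
  rw [h4]
  exact QC4_and_const (QC4_all_const h1) (QC4_all_const h3)

/-- Finitely many forced predicates. -/
lemma QC4_fo_all {κ : Type} [Finite κ] {X : κ → Cnd I Ω → Prop} (hm : ∀ k, Mn (X k))
    {z : Cnd I Ω} (h : ∀ k, Fo (X k) z) : Fo (fun z => ∀ k, X k z) z := by
  classical
  have := Fintype.ofFinite κ
  have key : ∀ S : Finset κ, ∀ z' ≤ z, ∃ z'' ≤ z', ∀ k ∈ S, X k z'' := by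
    intro S
    induction S using Finset.induction_on with
    | empty => exact fun z' _ => ⟨z', le_rfl, fun k hk => absurd hk (Finset.notMem_empty k)⟩
    | insert k S hk ih =>
      intro z' hz'
      obtain ⟨z1, hz1, h1⟩ := ih z' hz'
      obtain ⟨z2, hz2, h2⟩ := h k z1 (hz1.trans hz')
      refine ⟨z2, hz2.trans hz1, fun l hl => ?_⟩
      rcases Finset.mem_insert.1 hl with rfl | hl
      · exact h2
      · exact hm l z1 z2 hz2 (h1 l hl)
  intro z' hz'
  obtain ⟨z'', hz'', h1⟩ := key Finset.univ z' hz'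
  exact ⟨z'', hz'', fun k => h1 k (Finset.mem_univ k)⟩

/-- The transport of the condition `w` from the tuple `a` to the tuple `i`. -/
lemma Cdd.trans {m : ℕ} (s : Set I) (a : Fin (m + 1) → I) (w : Cnd I Ω) :
    Cdd (m := m) (fun (i : Fin (m + 1) → I) (z : Cnd I Ω) =>
      z ≤ Cnd.res s w ∧ ∀ k, LeAt (z.f (i k)) (w.f (a k))) := by
  have hm : ∀ (k : Fin (m + 1)) (i : Fin (m + 1) → I),
      Mn (fun z : Cnd I Ω => LeAt (z.f (i k)) (w.f (a k))) := fun k i z z' hz h =>
    (hz (i k)).trans h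
  have h1 : Cdd (m := m) (fun (i : Fin (m + 1) → I) (z : Cnd I Ω) =>
      ∀ k : Fin (m + 1), Fo (fun z : Cnd I Ω => LeAt (z.f (i k)) (w.f (a k))) z) :=
    Cdd.all (θ := fun (k : Fin (m + 1)) (i : Fin (m + 1) → I) (z : Cnd I Ω) =>
      LeAt (z.f (i k)) (w.f (a k))) (fun k => Cdd.local' k (w.f (a k)) (Cnd.fin_at w (a k))) hm
  have h2 : Cdd (m := m) (fun (i : Fin (m + 1) → I) (z : Cnd I Ω) =>
      ∀ k : Fin (m + 1), LeAt (z.f (i k)) (w.f (a k))) := by
    refine h1.congr' (fun i z h => QC4_fo_all (fun k => hm k i) h) fun i z h => ?_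
    have h3 : Mn (fun z : Cnd I Ω => ∀ k : Fin (m + 1),
        Fo (fun z : Cnd I Ω => LeAt (z.f (i k)) (w.f (a k))) z) :=
      fun z1 z2 hz h' k => Fo.mono z1 z2 hz (h' k)
    exact Fo.of h3 fun k => Fo.of (hm k i) (h k)
  exact Cdd.and (Cdd.cond (Cnd.res s w)) h2 (fun _ _ _ hz h => hz.trans h)
    (fun i z z' hz h k => hm k i z z' hz (h k))

lemma le_act_iff {m : ℕ} {s : Set I} {a i : Fin (m + 1) → I} {π : Equiv.Perm I}
    (hπ : ∀ x ∈ s, π x = x) (ha : ∀ k, π (a k) = i k) (w z : Cnd I Ω) :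
    z ≤ Cnd.act π (Cnd.res (s ∪ range a) w) ↔
      z ≤ Cnd.res s w ∧ ∀ k, LeAt (z.f (i k)) (w.f (a k)) := by
  have hsymm : ∀ x ∈ s, π.symm x = x := fun x hx => by
    rw [Equiv.symm_apply_eq, hπ x hx]
  have hin : ∀ x ∈ s ∪ range a, (Cnd.res (s ∪ range a) w).f x = w.f x := fun x hx =>
    Cnd.glue_pos hx
  constructor
  · intro h
    refine ⟨Cnd.le_res_iff.2 fun x hx => ?_, fun k => ?_⟩
    · have h1 := h x
      have h2 : (Cnd.act π (Cnd.res (s ∪ range a) w)).f x = w.f x := by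
        show (Cnd.res (s ∪ range a) w).f (π.symm x) = w.f x
        rw [hsymm x hx, hin x (Or.inl hx)]
      rwa [h2] at h1
    · have h1 := h (i k)
      have h2 : (Cnd.act π (Cnd.res (s ∪ range a) w)).f (i k) = w.f (a k) := by
        show (Cnd.res (s ∪ range a) w).f (π.symm (i k)) = w.f (a k)
        rw [← ha k, Equiv.symm_apply_apply, hin (a k) (Or.inr ⟨k, rfl⟩)]
      rwa [h2] at h1
  · rintro ⟨h1, h2⟩ j
    show LeAt (z.f j) ((Cnd.res (s ∪ range a) w).f (π.symm j))
    by_cases hj : π.symm j ∈ s ∪ range a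
    · rw [hin _ hj]
      rcases hj with hj | ⟨k, hk⟩
      · have h3 : j = π.symm j := by
          conv_lhs => rw [← π.apply_symm_apply j]
          exact hπ _ hj
        have h4 := Cnd.le_res_iff.1 h1 _ hj
        rwa [← h3] at h4 ⊢
      · have h3 : i k = j := by
          rw [← ha k, hk, π.apply_symm_apply]
        rw [← hk, ← h3]
        exact h2 k
    · have h3 : (Cnd.res (s ∪ range a) w).f (π.symm j) = fun _ => none := Cnd.glue_neg hj
      rw [h3]
      exact ⟨fun x b h => by simp at h, fun b t k _ h => by simp at h⟩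

lemma qc5_act_symm (π : Equiv.Perm I) (z : Cnd I Ω) :
    Cnd.act π (Cnd.act π⁻¹ z) = z := by
  rw [Cnd.act_act, mul_inv_cancel, Cnd.act_one]

lemma qc5_symm_act (π : Equiv.Perm I) (z : Cnd I Ω) :
    Cnd.act π⁻¹ (Cnd.act π z) = z := by
  rw [Cnd.act_act, inv_mul_cancel, Cnd.act_one]

lemma qc5_mn_trans {m : ℕ} (s : Set I) (a : Fin (m + 1) → I) (w : Cnd I Ω)
    (i : Fin (m + 1) → I) :
    Mn (fun (z : Cnd I Ω) => z ≤ Cnd.res s w ∧ ∀ k, LeAt (z.f (i k)) (w.f (a k))) := by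
  intro z z' hz h
  exact ⟨hz.trans h.1, fun k => (hz (i k)).trans (h.2 k)⟩

/-- QUANTIFIER ELIMINATION -/
theorem Cdd.of_iv [Uncountable I] (j : I → ℕ → Bool) (hj : Function.Injective j) {m : ℕ}
    {s : Set I} (hs : s.Countable) {θ : (Fin (m + 1) → I) → Cnd I Ω → Prop} (h : Iv s θ)
    (hm : ∀ i, Mn (θ i)) : Cdd θ := by
  obtain ⟨A, hA, hrep⟩ := exists_rep (I := I) m hs
  let κ := {a : Fin (m + 1) → I // a ∈ A ∧ ∃ z, θ a z}
  have hκ : Countable κ := by
    have h1 : {a : Fin (m + 1) → I | a ∈ A ∧ ∃ z, θ a z}.Countable :=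
      hA.mono fun a ha => ha.1
    exact h1.to_subtype
  have hw : ∀ a : κ, ∃ w : ℕ → Cnd I Ω, (∀ n, θ a.1 (w n)) ∧
      ∀ z, θ a.1 z → ∃ n v, v ≤ z ∧ v ≤ w n := by
    intro a
    obtain ⟨w, hw1, hw2⟩ := Cnd.exists_pred (D := D) j hj {z | θ a.1 z} a.2.2
    exact ⟨w, hw1, hw2⟩
  choose w hw1 hw2 using hw
  have hcod : Cdd (fun (i : Fin (m + 1) → I) (z : Cnd I Ω) => ∃ a : κ, ∃ n : ℕ,
      (Pt s a.1 i ∧ (z ≤ Cnd.res s (w a n) ∧ ∀ k, LeAt (z.f (i k)) ((w a n).f (a.1 k))))) := by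
    have hmn : ∀ (a : κ) (n : ℕ) (i : Fin (m + 1) → I), Mn (fun z : Cnd I Ω =>
        Pt s a.1 i ∧ (z ≤ Cnd.res s (w a n) ∧ ∀ k, LeAt (z.f (i k)) ((w a n).f (a.1 k)))) := by
      intro a n i z z' hz hx
      exact ⟨hx.1, qc5_mn_trans s a.1 (w a n) i z z' hz hx.2⟩
    refine Cdd.un' (κ := κ) (fun a => ?_) (fun a i z z' hz hx => ?_)
    · refine Cdd.un (fun n => ?_) (fun n i => hmn a n i)
      exact Cdd.and (Cdd.pt hs a.1) (Cdd.trans s a.1 (w a n)) (fun i z z' _ hx => hx)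
        (fun i => qc5_mn_trans s a.1 (w a n) i)
    · obtain ⟨n, hn⟩ := hx
      exact ⟨n, hmn a n i z z' hz hn⟩
  refine hcod.congr' (fun i z hx => ?_) (fun i z hx => ?_)
  · obtain ⟨a, n, hpt, hle⟩ := hx
    obtain ⟨π, hπs, hπa⟩ := hpt.exists_perm
    have hle' : z ≤ Cnd.act π (Cnd.res (s ∪ range a.1) (w a n)) :=
      (le_act_iff hπs hπa (w a n) z).2 hle
    have hfo := Iv.res hs h hm (hw1 a n)
    intro z' hz'
    have h1 : Cnd.act π⁻¹ z' ≤ Cnd.res (s ∪ range a.1) (w a n) := by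
      rw [← Cnd.act_le_act (π := π), qc5_act_symm]
      exact hz'.trans hle'
    obtain ⟨z'', hz'', hth⟩ := hfo _ h1
    refine ⟨Cnd.act π z'', ?_, ?_⟩
    · have := (Cnd.act_le_act (π := π)).2 hz''
      rwa [qc5_act_symm] at this
    · have h2 := (h π hπs a.1 z'').2 hth
      have h3 : (fun k => π (a.1 k)) = i := funext hπa
      rwa [h3] at h2
  · intro z' hz'
    have hx' := hm i z z' hz' hx
    obtain ⟨a, haA, hpt⟩ := hrep i
    obtain ⟨π, hπs, hπa⟩ := hpt.exists_perm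
    have h3 : (fun k => π (a k)) = i := funext hπa
    have h4 : θ a (Cnd.act π⁻¹ z') := by
      rw [← h π hπs a (Cnd.act π⁻¹ z'), qc5_act_symm, h3]
      exact hx'
    let a' : κ := ⟨a, haA, _, h4⟩
    obtain ⟨n, v, hv1, hv2⟩ := hw2 a' _ h4
    refine ⟨Cnd.act π v, ?_, a', n, hpt, ?_⟩
    · have := (Cnd.act_le_act (π := π)).2 hv1
      rwa [qc5_act_symm] at this
    · refine (le_act_iff hπs hπa (w a' n) _).1 ?_
      exact ((Cnd.act_le_act (π := π)).2 hv2).trans
        ((Cnd.act_le_act (π := π)).2 (Cnd.le_res _ _))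

/-- The projection of a coded set is coded. -/
theorem exists_proj [Uncountable I] (j : I → ℕ → Bool) (hj : Function.Injective j) {m : ℕ}
    (c : Kd I Ω (m + 1)) : ∃ b : Kd I Ω m, ∀ i z, Fo (ev b i) z ↔
      Fo (fun z' => ∃ l : I, ev c (Fin.snoc (α := fun _ => I) i l) z') z := by
  have key : ∀ (π : Equiv.Perm I) (i : Fin (m + 1) → I) (l : I),
      (fun k => π ((Fin.snoc (α := fun _ => I) i l : Fin (m + 2) → I) k)) =
        Fin.snoc (α := fun _ => I) (fun k => π (i k)) (π l) := by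
    intro π i l
    funext k
    refine Fin.lastCases ?_ (fun k => ?_) k
    · simp
    · simp
  have hiv : Iv c.supp (fun (i : Fin (m + 1) → I) (z : Cnd I Ω) =>
      ∃ l : I, ev c (Fin.snoc (α := fun _ => I) i l) z) := by
    intro π hπ i z
    constructor
    · rintro ⟨l, hl⟩
      refine ⟨π.symm l, ?_⟩
      rw [← ev_act c hπ, key, Equiv.apply_symm_apply]
      exact hl
    · rintro ⟨l, hl⟩
      refine ⟨π l, ?_⟩
      rw [← key, ev_act c hπ]
      exact hl
  exact Cdd.of_iv j hj (Kd.supp_countable c) hiv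
    (fun i z z' hz ⟨l, hl⟩ => ⟨l, ev_mono c hl hz⟩)

end Pool.PV
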